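import Pool.Agent.NPQ.Stm4
import Pool.Agent.NPP.CMP
import Pool.Agent.NNDT.Core

/-!
# Project NPQ, module CMT: the assembly of the fourth version
-/

set_option autoImplicit false

namespace Pool.Agent.NPQ

open Finset Pool.Agent.NegLim Pool.Agent.NLM Pool.Agent.NEG72 Pool.Agent.NPP

namespace CMTM

/-- `n` graphs as one input. -/
def fl {n v : ℕ} (z : Fin n → Edge v → Bool) : Fin n × Edge v → Bool := fun e => z e.1 e.2

/-- one variable graph -/
theorem proj {n v : ℕ} (z : Fin n → Edge v → Bool) (i : Fin n) :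
    IsProj (fun (y : Edge v → Bool) => fl (Function.update z i y)) := by
  rintro ⟨j, e⟩
  by_cases hj : j = i
  · subst hj
    refine Or.inr (Or.inl ⟨e, ?_⟩)
    funext y
    simp [fl]
  · refine Or.inr (Or.inr ⟨z j e, ?_⟩)
    funext y
    simp [fl, hj]

/-- all graphs are complete or positive tests -/
def Gd {n v k b : ℕ} (hv : k * b ≤ v) (z : Fin n → Edge v → Bool) : Prop :=
  ∀ i, z i = (fun _ => true) ∨ ∃ a, z i = posG hv a

theorem Gd.upd {n v k b : ℕ} {hv : k * b ≤ v} {z : Fin n → Edge v → Bool} (hz : Gd hv z)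
    (i : Fin n) (y : Edge v → Bool) (hy : y = (fun _ => true) ∨ ∃ a, y = posG hv a) :
    Gd hv (Function.update z i y) := by
  intro j
  by_cases hj : j = i
  · subst hj
    rw [Function.update_self]
    exact hy
  · rw [Function.update_of_ne hj]
    exact hz j

theorem clq_top {v k : ℕ} (hkv : k ≤ v) : clq v k (fun _ => true) = true := by
  rw [clq_iff]
  obtain ⟨S, hS⟩ := Finset.exists_subset_card_eq (s := (univ : Finset (Fin v)))
    (n := k) (by rw [card_univ, Fintype.card_fin]; exact hkv)
  exact ⟨S, hS.2, fun e _ _ => rfl⟩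

theorem Gd.all {n v k b : ℕ} {hv : k * b ≤ v} {z : Fin n → Edge v → Bool} (hz : Gd hv z)
    (hkv : k ≤ v) : AllClq n v k (fl z) := by
  intro i
  have h1 : (fun e => fl z (i, e)) = z i := rfl
  rw [h1]
  rcases hz i with h | ⟨a, h⟩
  · rw [h]
    exact clq_top hkv
  · rw [h]
    exact CMPM.clq_posG hv a

/-- the graph number `i` is below the complete graph -/
theorem fl_le {n v : ℕ} (z : Fin n → Edge v → Bool) (i : Fin n) (y : Edge v → Bool)
    (e : Fin n × Edge v) (he : fl (Function.update z i y) e = true) :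
    fl (Function.update z i fun _ => true) e = true := by
  obtain ⟨j, e⟩ := e
  by_cases hj : j = i
  · subst hj
    simp [fl]
  · simpa [fl, hj] using he

theorem card_wit (s t : ℕ) :
    (Fintype.card ((Fin s → Bool) × (Fin t → Bool)) : ℝ) = 2 ^ (s + t) := by
  rw [Fintype.card_prod, Fintype.card_fun, Fintype.card_fun, Fintype.card_fin, Fintype.card_fin,
    Fintype.card_bool, pow_add]
  push_cast
  ring

/-! ### the potential -/

section Pot

variable {E : Type} {s t n : ℕ}

theorem accH_le (C : NCirc E s (n + t)) (d : Fin n → Bool) (x : E → Bool) :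
    (accH C d x : ℝ) ≤ 2 ^ (s + t) := by
  rw [← card_wit]
  unfold accH
  exact_mod_cast card_le_univ _

/-- the part of the NOT gates -/
def NN (C : NCirc E s t) (x : E → Bool) : ℕ := 2 ^ s * (2 ^ C.nots - 1) - Phi C x

theorem NN_lt (C : NCirc E s t) (x : E → Bool) {R : ℕ} (h : 2 ^ (s + C.nots) ≤ R) :
    NN C x + 1 ≤ R := by
  refine le_trans ?_ h
  unfold NN
  have h1 : 2 ^ s * (2 ^ C.nots - 1) + 2 ^ s = 2 ^ (s + C.nots) := by
    rw [pow_add, Nat.mul_sub, mul_one]
    exact Nat.sub_add_cancel (Nat.le_mul_of_pos_right _ (Nat.two_pow_pos _))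
  have h2 : 1 ≤ 2 ^ s := Nat.one_le_two_pow
  omega

theorem NN_mono (C : NCirc E s t) {x x' : E → Bool} (h : ∀ e, x e = true → x' e = true) :
    NN C x ≤ NN C x' := Nat.sub_le_sub_left (Phi_mono C h) _

theorem Phi_eq (C : NCirc E s t) {x x' : E → Bool} (h : NN C x = NN C x') :
    Phi C x = Phi C x' := by
  unfold NN at h
  have h1 := Phi_le C x
  have h2 := Phi_le C x'
  omega

/-- the level of the answer number `l` -/
noncomputable def LL (q W : ℕ) (C : NCirc E s (n + t)) (l : Fin n)
    (a : (E → Bool) → Fin n → Bool) (θ : (Fin n → Bool) → ℝ) (x : E → Bool) : ℕ :=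
  lev W (θ (hist q l (a x))) ((accH C (hist q l (a x)) x : ℝ) / 2 ^ (s + t)) (a x l = true)

theorem LL_le (hLEV : Stmt_LEV) (q W : ℕ) (C : NCirc E s (n + t)) (l : Fin n)
    (a : (E → Bool) → Fin n → Bool) (θ : (Fin n → Bool) → ℝ) (hθ : ∀ d, -(1 / 2 ^ W) ≤ θ d)
    (x : E → Bool) : LL q W C l a θ x ≤ W + 2 := by
  refine hLEV.1 W _ _ _ (hθ _) ?_
  rw [div_le_one (by positivity)]
  exact accH_le C _ x

theorem ans_mono (hMOH : Stmt_MOH) {q W : ℕ} {C : NCirc E s (n + t)} (hC : C.NotsFree)
    {l : Fin n} {a : (E → Bool) → Fin n → Bool} {θ : (Fin n → Bool) → ℝ}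
    (hA : GapH q W C l a θ) {x x' : E → Bool} (h : ∀ e, x e = true → x' e = true)
    (hP : Phi C x = Phi C x') (hh : hist q l (a x) = hist q l (a x')) (hx : a x l = true) :
    a x' l = true := by
  by_contra h1
  rw [Bool.not_eq_true] at h1
  have h2 := (hA x).1 hx
  have h3 := (hA x').2 h1
  have h4 := hMOH E s t n C hC x x' h hP (hist q l (a x'))
  rw [hh] at h2
  have h5 : (accH C (hist q l (a x')) x : ℝ) ≤ accH C (hist q l (a x')) x' := by
    exact_mod_cast h4
  have h6 : (0 : ℝ) < 1 / 2 ^ W * 2 ^ (s + t) := by positivity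
  nlinarith

theorem LL_mono (hLEV : Stmt_LEV) (hMOH : Stmt_MOH) {q W : ℕ} {C : NCirc E s (n + t)}
    (hC : C.NotsFree) {l : Fin n} {a : (E → Bool) → Fin n → Bool} {θ : (Fin n → Bool) → ℝ}
    (hA : GapH q W C l a θ) {x x' : E → Bool} (h : ∀ e, x e = true → x' e = true)
    (hP : Phi C x = Phi C x') (hh : hist q l (a x) = hist q l (a x')) :
    LL q W C l a θ x ≤ LL q W C l a θ x' ∧
      (LL q W C l a θ x = LL q W C l a θ x' → a x l = a x' l) := by
  have h4 := hMOH E s t n C hC x x' h hP (hist q l (a x'))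
  have h5 : (accH C (hist q l (a x')) x : ℝ) ≤ accH C (hist q l (a x')) x' := by
    exact_mod_cast h4
  have hm := ans_mono hMOH hC hA h hP hh
  constructor
  · unfold LL
    rw [hh]
    exact hLEV.2.1 W _ _ _ _ _ (div_le_div_of_nonneg_right h5 (by positivity)) hm
  · intro heq
    cases h1 : a x l with
    | true => exact (hm h1).symm
    | false =>
      cases h2 : a x' l with
      | false => rfl
      | true =>
        exfalso
        unfold LL lev at heq
        rw [if_neg (by rw [h1]; exact Bool.false_ne_true), if_pos h2] at heq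
        omega

theorem LL_step (hLEV : Stmt_LEV) {q W : ℕ} {C : NCirc E s (n + t)} {l : Fin n}
    {a : (E → Bool) → Fin n → Bool} {θ : (Fin n → Bool) → ℝ}
    (hA : GapH q W C l a θ) {x x' : E → Bool} (hh : hist q l (a x) = hist q l (a x'))
    (h1 : a x' l = true)
    (h2 : a x l = true → 2 * ((accH C (hist q l (a x')) x : ℝ) -
      θ (hist q l (a x')) * 2 ^ (s + t)) ≤ accH C (hist q l (a x')) x' -
      θ (hist q l (a x')) * 2 ^ (s + t)) :
    LL q W C l a θ x + 1 ≤ LL q W C l a θ x' := by
  have h0 : (0 : ℝ) < 2 ^ (s + t) := by positivity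
  unfold LL
  rw [hh]
  refine hLEV.2.2 W _ _ _ _ _ h1 (fun h3 => ?_) fun h3 => ?_
  · have h4 := (hA x).1 h3
    rw [hh] at h4
    rw [le_div_iff₀ h0]
    exact h4
  · have h4 := h2 h3
    have h5 : (2 : ℝ) * ((accH C (hist q l (a x')) x : ℝ) / 2 ^ (s + t) -
        θ (hist q l (a x'))) = 2 * ((accH C (hist q l (a x')) x : ℝ) -
          θ (hist q l (a x')) * 2 ^ (s + t)) / 2 ^ (s + t) := by
      field_simp
    have h6 : (accH C (hist q l (a x')) x' : ℝ) / 2 ^ (s + t) - θ (hist q l (a x')) =
        ((accH C (hist q l (a x')) x' : ℝ) -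
          θ (hist q l (a x')) * 2 ^ (s + t)) / 2 ^ (s + t) := by
      field_simp
    rw [h5, h6]
    exact div_le_div_of_nonneg_right h4 h0.le

end Pot

section Psi

variable {E : Type} {n : ℕ} {s t : Fin n → ℕ} (c q W : ℕ)
  (C : (l : Fin n) → NCirc E (s l) (n + t l)) (D : NCirc E 0 n)
  (a : (E → Bool) → Fin n → Bool) (θ : Fin n → (Fin n → Bool) → ℝ)

/-- the potential -/
noncomputable def Psi (x : E → Bool) : ℕ :=
  NN D x + wt c q (W + 2) (fun l => NN (C l) x) (fun l => LL q W (C l) l a (θ l) x)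

theorem Psi_le (hLEV : Stmt_LEV) (hWBD : Stmt_WBD) (hq : 0 < q) (hn : n ≤ c * q) {R : ℕ}
    (hR : ∀ l, 2 ^ (s l + (C l).nots) ≤ R) (hRD : 2 ^ D.nots ≤ R)
    (hθ : ∀ l d, -(1 / 2 ^ W) ≤ θ l d) (x : E → Bool) :
    Psi c q W C D a θ x ≤ (1 + q * (W + 3)) ^ c * R := by
  have h1 := hWBD n q c (W + 2) R (fun l => NN (C l) x) (fun l => LL q W (C l) l a (θ l) x)
    hq hn (fun l => NN_lt (C l) x (hR l)) (fun l => LL_le hLEV q W (C l) l a (θ l) (hθ l) x)
  have h2 : NN D x + 1 ≤ R := NN_lt D x (by rwa [zero_add])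
  have h3 : Psi c q W C D a θ x ≤
      wt c q (W + 2) (fun l => NN (C l) x) (fun l => LL q W (C l) l a (θ l) x) + R := by
    unfold Psi
    omega
  exact h3.trans h1

theorem Psi_step (hLEV : Stmt_LEV) (hMOH : Stmt_MOH) (hWGT : Stmt_WGT) (hq : 0 < q)
    (hn : n ≤ c * q) (hN : ∀ l, (C l).NotsFree) (hθ : ∀ l d, -(1 / 2 ^ W) ≤ θ l d)
    (hA : ∀ l, GapH q W (C l) l a (θ l)) {x x' : E → Bool}
    (h : ∀ e, x e = true → x' e = true) :
    Psi c q W C D a θ x ≤ Psi c q W C D a θ x' ∧
      ((Phi D x ≠ Phi D x' ∨ ∃ l, Phi (C l) x ≠ Phi (C l) x' ∨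
        (hist q l (a x) = hist q l (a x') ∧ a x' l = true ∧
          (a x l = true → 2 * ((accH (C l) (hist q l (a x')) x : ℝ) -
            θ l (hist q l (a x')) * 2 ^ (s l + t l)) ≤ accH (C l) (hist q l (a x')) x' -
            θ l (hist q l (a x')) * 2 ^ (s l + t l)))) →
        Psi c q W C D a θ x + 1 ≤ Psi c q W C D a θ x') := by
  have hw := hWGT n q c (W + 2) (fun l => NN (C l) x) (fun l => NN (C l) x')
    (fun l => LL q W (C l) l a (θ l) x) (fun l => LL q W (C l) l a (θ l) x') (a x) (a x') hq hn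
    (fun l => LL_le hLEV q W (C l) l a (θ l) (hθ l) x)
    (fun l => LL_le hLEV q W (C l) l a (θ l) (hθ l) x')
    (fun l => NN_mono (C l) h)
    (fun l h1 h2 => LL_mono hLEV hMOH (hN l) (hA l) h (Phi_eq (C l) h1) h2)
  have hd := NN_mono D h
  constructor
  · unfold Psi
    exact Nat.add_le_add hd hw.1
  · intro h1
    by_cases h2 : NN D x = NN D x'
    · have h3 : ∃ l, Phi (C l) x ≠ Phi (C l) x' ∨
          (hist q l (a x) = hist q l (a x') ∧ a x' l = true ∧
          (a x l = true → 2 * ((accH (C l) (hist q l (a x')) x : ℝ) -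
            θ l (hist q l (a x')) * 2 ^ (s l + t l)) ≤ accH (C l) (hist q l (a x')) x' -
            θ l (hist q l (a x')) * 2 ^ (s l + t l))) := by
        rcases h1 with h1 | h1
        · exact absurd (Phi_eq D h2) h1
        · exact h1
      obtain ⟨l, h4⟩ := h3
      have h5 := hw.2 ⟨l, by
        rcases h4 with h4 | ⟨h4, h6, h7⟩
        · exact Or.inl fun h8 => h4 (Phi_eq (C l) h8)
        · right
          have h8 := LL_step hLEV (hA l) h4 h6 h7
          exact ⟨h4, fun h9 => by
            have h10 : LL q W (C l) l a (θ l) x = LL q W (C l) l a (θ l) x' := h9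
            omega⟩⟩
      unfold Psi
      omega
    · have h3 := hw.1
      unfold Psi
      omega

end Psi

end CMTM

open Classical CMTM in
theorem CMT_thm : Stmt_CMT := by
  intro hLEV hDI1 hCHN hGUE hMOH hWGT hWBD hSTT m v k b h p T n q c W R hv s t C D a θ hn hq hnc
    h1 hk hp hb hT hD2 hbig hN hG hR hND hGD hRD hθ hA hD
  have h4 : 1 ≤ 2 * h - 1 := by omega
  have hk2 : 2 ≤ k - 1 := by nlinarith
  have hb1 : 0 < b := by
    have h5 : 1 ≤ p * (2 * h) := by nlinarith
    omega
  have hkv : k ≤ v := by nlinarith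
  have : Nonempty (Fin b) := ⟨⟨0, hb1⟩⟩
  have : Nonempty (Fin (k - 1)) := ⟨⟨0, by omega⟩⟩
  have hpot := fun (x x' : Fin m × Edge v → Bool) (hx : ∀ e, x e = true → x' e = true) =>
    Psi_step c q W C D a θ hLEV hMOH hWGT hq hnc hN hθ hA hx
  refine hCHN (Edge v → Bool) (Fin k → Fin b) (posG hv) (fun _ => true) m
    ((1 + q * (W + 3)) ^ c * R) (fun z => Psi c q W C D a θ (fl z)) ?_ ?_ ?_
  · intro z _
    exact Psi_le c q W C D a θ hLEV hWBD hq hnc hR hRD hθ _
  · intro z _ i τ
    exact (hpot _ _ (fl_le z i _)).1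
  · intro z hz' i
    have hz : Gd hv z := hz'
    have hP : Fintype.card (Fin k → Fin b) = b ^ k := by
      rw [Fintype.card_fun, Fintype.card_fin, Fintype.card_fin]
    have hQ : Fintype.card (Fin v → Fin (k - 1)) = (k - 1) ^ v := by
      rw [Fintype.card_fun, Fintype.card_fin, Fintype.card_fin]
    have hkk : 0 < (k - 1) ^ v := pow_pos (by omega) v
    have hup2 : ∀ τ, Gd hv (Function.update z i (posG hv τ)) :=
      fun τ => hz.upd i _ (Or.inr ⟨τ, rfl⟩)
    have hDI : ∀ (G' : ℕ), G' ≤ T → ∀ (F : (Edge v → Bool) → Bool), MonSize F G' →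
        32 * n * 2 ^ W * ((univ : Finset (Fin v → Fin (k - 1))).filter
          fun χ => F (negIn χ) = false).card < Fintype.card (Fin v → Fin (k - 1)) ∨
        12 * ((univ : Finset (Fin k → Fin b)).filter
          fun τ => F (posG hv τ) = true).card ≤ Fintype.card (Fin k → Fin b) := by
      intro G' hG' F hF
      rw [hP, hQ]
      rcases hDI1 v k b h p G' 12 hv F h1 hk hp hb (by norm_num)
        ((Nat.mul_le_mul_left 24 hG').trans hT) hD2 hF with h5 | h5
      · left
        have h6 : 2 ^ p * (32 * n * 2 ^ W * ((univ : Finset (Fin v → Fin (k - 1))).filter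
            fun χ => F (negIn χ) = false).card) < 2 ^ p * (k - 1) ^ v := by
          calc _ = 32 * n * 2 ^ W * (2 ^ p * ((univ : Finset (Fin v → Fin (k - 1))).filter
                fun χ => F (negIn χ) = false).card) := by ring
            _ ≤ 32 * n * 2 ^ W * (G' * (4 * (p * (2 * h)) ^ (4 * h)) * (k - 1) ^ v) :=
                Nat.mul_le_mul_left _ h5
            _ ≤ 32 * n * 2 ^ W * (T * (4 * (p * (2 * h)) ^ (4 * h)) * (k - 1) ^ v) :=
                Nat.mul_le_mul_left _ (Nat.mul_le_mul_right _ (Nat.mul_le_mul_right _ hG'))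
            _ = 32 * n * 2 ^ W * (T * (4 * (p * (2 * h)) ^ (4 * h))) * (k - 1) ^ v := by ring
            _ < _ := Nat.mul_lt_mul_of_pos_right hbig hkk
        exact Nat.lt_of_mul_lt_mul_left h6
      · exact Or.inr h5
    choose F K hfm hcm hc1 hcf using fun l => hGUE (Fin m × Edge v) (Edge v) (s l) (n + t l) (C l)
      (hN l) (fun y => fl (Function.update z i y)) (proj z i)
      (fl (Function.update z i fun _ => true)) (fun y e he => fl_le z i y e he)
    obtain ⟨F₁, K₁, hfm₁, hcm₁, hc1₁, hcf₁⟩ := hGUE (Fin m × Edge v) (Edge v) 0 n D hND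
      (fun y => fl (Function.update z i y)) (proj z i)
      (fl (Function.update z i fun _ => true)) (fun y e he => fl_le z i y e he)
    have hstep := hSTT n q W (Edge v → Bool) (Fin k → Fin b) (Fin v → Fin (k - 1))
      (fun l => (Fin (s l) → Bool) × (Fin (t l) → Bool)) (fun _ => true) (posG hv) negIn
      (fun l p y => F l (p.1, Fin.append
        (hist q l (a (fl (Function.update z i fun _ => true)))) p.2) y)
      (fun l p y => K l (p.1, Fin.append
        (hist q l (a (fl (Function.update z i fun _ => true)))) p.2) y)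
      (fun l p y => outp (C l) (fl (Function.update z i y)) p.1 (Fin.append
        (hist q l (a (fl (Function.update z i fun _ => true)))) p.2))
      (fun l τ => Phi (C l) (fl (Function.update z i (posG hv τ))) =
        Phi (C l) (fl (Function.update z i fun _ => true)))
      (fun y => a (fl (Function.update z i y)))
      (fun l => θ l (hist q l (a (fl (Function.update z i fun _ => true)))))
      (fun y => F₁ (fun i => i.elim0, a (fl (Function.update z i fun _ => true))) y)
      (fun y => K₁ (fun i => i.elim0, a (fl (Function.update z i fun _ => true))) y)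
      (fun y => outp D (fl (Function.update z i y)) (fun i => i.elim0)
        (a (fl (Function.update z i fun _ => true))))
      (fun τ => Phi D (fl (Function.update z i (posG hv τ))) =
        Phi D (fl (Function.update z i fun _ => true)))
      hn hq
      (fun l => Fintype.card_pos) (by rw [hQ]; exact hkk)
      (fun l p y hy => Pool.Agent.NNDT.MonSize.monotone (hfm l _) _ _ (fun _ _ => rfl) hy)
      (fun l τ hs p => hc1 l _ hs _)
      (fun l p => hc1 l _ rfl _)
      (fun l p y hy => hcf l y _ hy)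
      (fun τ hs => hc1₁ _ hs _)
      (fun y hy => hcf₁ y _ hy)
      (fun l p => hDI _ (hG l) _ (hfm l _))
      (fun l p => hDI _ (hG l) _ (hcm l _))
      (hDI _ hGD _ (hfm₁ _))
      (hDI _ hGD _ (hcm₁ _))
      (fun l y hy => by
        rw [card_wit]
        have h5 := hA l (fl (Function.update z i y))
        rw [hy] at h5
        exact h5)
      (fun τ hτ => by
        have h5 := (hD _).1 ((hup2 τ).all hkv)
        rw [hτ] at h5
        exact h5)
      (fun χ hχ => by
        by_contra h5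
        rw [Bool.not_eq_false] at h5
        rw [← hχ] at h5
        have h6 := (hD _).2 h5 i
        have h7 : (fun e => fl (Function.update z i (negIn χ)) (i, e)) = negIn χ := by
          funext e
          simp [fl]
        rw [h7, clq_iff] at h6
        exact not_hasClique_negIn (by omega) χ h6)
    refine hstep.trans (Nat.mul_le_mul_left _ (card_le_card ?_))
    intro τ hτ
    have hτ2 := (@Finset.mem_filter _ _ (_) _ _).1 hτ
    rw [mem_filter]
    refine ⟨mem_univ _, (hpot _ _ (fl_le z i _)).2 ?_⟩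
    rcases hτ2.2 with h0 | ⟨l, h5 | ⟨h5, h6, h7⟩⟩
    · exact Or.inl h0
    · exact Or.inr ⟨l, Or.inl h5⟩
    · refine Or.inr ⟨l, Or.inr ⟨h5, h6, fun h8 => ?_⟩⟩
      have h9 := h7 h8
      rw [card_wit] at h9
      exact h9

end Pool.Agent.NPQ
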