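import Pool.Agent.NPQ.Stm5
import Pool.Agent.NPQ.CMT

/-!
# Project NPQ, module CMV: the assembly of the fifth version
-/

set_option autoImplicit false

namespace Pool.Agent.NPQ

open Finset Pool.Agent.NegLim Pool.Agent.NLM Pool.Agent.NEG72 Pool.Agent.NPP

namespace CMVM

open CMTM

section PsA

variable {E : Type} {n : ℕ} {s t : Fin n → ℕ} (c q W : ℕ)
  (C : (l : Fin n) → NCirc E (s l) (n + t l)) (D : NCirc E 0 n)
  (a : (E → Bool) → Fin n → Bool) (θ : Fin n → (Fin n → Bool) → ℝ)

/-- the potential -/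
noncomputable def PsA (x : E → Bool) : ℕ :=
  NN D x + wtA c q (W + 2) (fun l => NN (C l) x) (fun l => LL q W (C l) l a (θ l) x) (a x)

theorem PsA_le (hLEV : Stmt_LEV) (hWBV : Stmt_WBV) (hq : 0 < q) (hn : n ≤ c * q) {R : ℕ}
    (hR : ∀ l, 2 ^ (s l + (C l).nots) ≤ R) (hRD : 2 ^ D.nots ≤ R)
    (hθ : ∀ l d, -(1 / 2 ^ W) ≤ θ l d) (x : E → Bool) :
    PsA c q W C D a θ x ≤ steps c q W * R := by
  have h1 := hWBV n q c (W + 2) R (fun l => NN (C l) x) (fun l => LL q W (C l) l a (θ l) x)
    (a x) hq hn (fun l => NN_lt (C l) x (hR l)) (fun l => LL_le hLEV q W (C l) l a (θ l) (hθ l) x)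
  have h2 : NN D x + 1 ≤ R := NN_lt D x (by rwa [zero_add])
  have h3 : PsA c q W C D a θ x ≤
      wtA c q (W + 2) (fun l => NN (C l) x) (fun l => LL q W (C l) l a (θ l) x) (a x) + R := by
    unfold PsA
    omega
  exact h3.trans h1

theorem PsA_step (hLEV : Stmt_LEV) (hMOH : Stmt_MOH) (hWGV : Stmt_WGV) (hq : 0 < q)
    (hn : n ≤ c * q) (hN : ∀ l, (C l).NotsFree) (hθ : ∀ l d, -(1 / 2 ^ W) ≤ θ l d)
    (hA : ∀ l, GapH q W (C l) l a (θ l)) {x x' : E → Bool}
    (h : ∀ e, x e = true → x' e = true) :
    PsA c q W C D a θ x ≤ PsA c q W C D a θ x' ∧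
      ((Phi D x ≠ Phi D x' ∨ ∃ l, Phi (C l) x ≠ Phi (C l) x' ∨
        (hist q l (a x) = hist q l (a x') ∧ a x' l = true ∧
          (a x l = true → 2 * ((accH (C l) (hist q l (a x')) x : ℝ) -
            θ l (hist q l (a x')) * 2 ^ (s l + t l)) ≤ accH (C l) (hist q l (a x')) x' -
            θ l (hist q l (a x')) * 2 ^ (s l + t l)))) →
        PsA c q W C D a θ x + 1 ≤ PsA c q W C D a θ x') := by
  have hw := hWGV n q c (W + 2) (fun l => NN (C l) x) (fun l => NN (C l) x')
    (fun l => LL q W (C l) l a (θ l) x) (fun l => LL q W (C l) l a (θ l) x') (a x) (a x') hq hn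
    (fun l => LL_le hLEV q W (C l) l a (θ l) (hθ l) x)
    (fun l => LL_le hLEV q W (C l) l a (θ l) (hθ l) x')
    (fun l => NN_mono (C l) h)
    (fun l h1 h2 =>
      ⟨(LL_mono hLEV hMOH (hN l) (hA l) h (Phi_eq (C l) h1) h2).1,
        (LL_mono hLEV hMOH (hN l) (hA l) h (Phi_eq (C l) h1) h2).2,
        ans_mono hMOH (hN l) (hA l) h (Phi_eq (C l) h1) h2⟩)
  have hd := NN_mono D h
  constructor
  · unfold PsA
    exact Nat.add_le_add hd hw.1
  · intro h1
    by_cases h2 : NN D x = NN D x'
    · have h3 : ∃ l, Phi (C l) x ≠ Phi (C l) x' ∨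
          (hist q l (a x) = hist q l (a x') ∧ a x' l = true ∧
          (a x l = true → 2 * ((accH (C l) (hist q l (a x')) x : ℝ) -
            θ l (hist q l (a x')) * 2 ^ (s l + t l)) ≤ accH (C l) (hist q l (a x')) x' -
            θ l (hist q l (a x')) * 2 ^ (s l + t l))) := by
        rcases h1 with h1 | h1
        · exact absurd (Phi_eq D h2) h1
        · exact h1
      obtain ⟨l, h4⟩ := h3
      have h5 := hw.2 ⟨l, by
        rcases h4 with h4 | ⟨h4, h6, h7⟩
        · exact Or.inl fun h8 => h4 (Phi_eq (C l) h8)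
        · right
          have h8 := LL_step hLEV (hA l) h4 h6 h7
          exact ⟨h4, fun h9 => by
            have h10 : LL q W (C l) l a (θ l) x = LL q W (C l) l a (θ l) x' := h9
            omega⟩⟩
      unfold PsA
      omega
    · have h3 := hw.1
      unfold PsA
      omega

end PsA

end CMVM

open Classical CMTM CMVM in
/-- Module CMV. -/
theorem CMV_thm : Stmt_CMV := by
  intro hLEV hDI1 hCHN hGUE hMOH hWGV hWBV hSTT m v k b h p T n q c W R hv s t C D a θ hn hq hnc
    h1 hk hp hb hT hD2 hbig hN hG hR hND hGD hRD hθ hA hD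
  have h4 : 1 ≤ 2 * h - 1 := by omega
  have hk2 : 2 ≤ k - 1 := by nlinarith
  have hb1 : 0 < b := by
    have h5 : 1 ≤ p * (2 * h) := by nlinarith
    omega
  have hkv : k ≤ v := by nlinarith
  have : Nonempty (Fin b) := ⟨⟨0, hb1⟩⟩
  have : Nonempty (Fin (k - 1)) := ⟨⟨0, by omega⟩⟩
  have hpot := fun (x x' : Fin m × Edge v → Bool) (hx : ∀ e, x e = true → x' e = true) =>
    PsA_step c q W C D a θ hLEV hMOH hWGV hq hnc hN hθ hA hx
  refine hCHN (Edge v → Bool) (Fin k → Fin b) (posG hv) (fun _ => true) m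
    (steps c q W * R) (fun z => PsA c q W C D a θ (fl z)) ?_ ?_ ?_
  · intro z _
    exact PsA_le c q W C D a θ hLEV hWBV hq hnc hR hRD hθ _
  · intro z _ i τ
    exact (hpot _ _ (fl_le z i _)).1
  · intro z hz' i
    have hz : Gd hv z := hz'
    have hP : Fintype.card (Fin k → Fin b) = b ^ k := by
      rw [Fintype.card_fun, Fintype.card_fin, Fintype.card_fin]
    have hQ : Fintype.card (Fin v → Fin (k - 1)) = (k - 1) ^ v := by
      rw [Fintype.card_fun, Fintype.card_fin, Fintype.card_fin]
    have hkk : 0 < (k - 1) ^ v := pow_pos (by omega) v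
    have hup2 : ∀ τ, Gd hv (Function.update z i (posG hv τ)) :=
      fun τ => hz.upd i _ (Or.inr ⟨τ, rfl⟩)
    have hDI : ∀ (G' : ℕ), G' ≤ T → ∀ (F : (Edge v → Bool) → Bool), MonSize F G' →
        32 * n * 2 ^ W * ((univ : Finset (Fin v → Fin (k - 1))).filter
          fun χ => F (negIn χ) = false).card < Fintype.card (Fin v → Fin (k - 1)) ∨
        12 * ((univ : Finset (Fin k → Fin b)).filter
          fun τ => F (posG hv τ) = true).card ≤ Fintype.card (Fin k → Fin b) := by
      intro G' hG' F hF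
      rw [hP, hQ]
      rcases hDI1 v k b h p G' 12 hv F h1 hk hp hb (by norm_num)
        ((Nat.mul_le_mul_left 24 hG').trans hT) hD2 hF with h5 | h5
      · left
        have h6 : 2 ^ p * (32 * n * 2 ^ W * ((univ : Finset (Fin v → Fin (k - 1))).filter
            fun χ => F (negIn χ) = false).card) < 2 ^ p * (k - 1) ^ v := by
          calc _ = 32 * n * 2 ^ W * (2 ^ p * ((univ : Finset (Fin v → Fin (k - 1))).filter
                fun χ => F (negIn χ) = false).card) := by ring
            _ ≤ 32 * n * 2 ^ W * (G' * (4 * (p * (2 * h)) ^ (4 * h)) * (k - 1) ^ v) :=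
                Nat.mul_le_mul_left _ h5
            _ ≤ 32 * n * 2 ^ W * (T * (4 * (p * (2 * h)) ^ (4 * h)) * (k - 1) ^ v) :=
                Nat.mul_le_mul_left _ (Nat.mul_le_mul_right _ (Nat.mul_le_mul_right _ hG'))
            _ = 32 * n * 2 ^ W * (T * (4 * (p * (2 * h)) ^ (4 * h))) * (k - 1) ^ v := by ring
            _ < _ := Nat.mul_lt_mul_of_pos_right hbig hkk
        exact Nat.lt_of_mul_lt_mul_left h6
      · exact Or.inr h5
    choose F K hfm hcm hc1 hcf using fun l => hGUE (Fin m × Edge v) (Edge v) (s l) (n + t l) (C l)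
      (hN l) (fun y => fl (Function.update z i y)) (proj z i)
      (fl (Function.update z i fun _ => true)) (fun y e he => fl_le z i y e he)
    obtain ⟨F₁, K₁, hfm₁, hcm₁, hc1₁, hcf₁⟩ := hGUE (Fin m × Edge v) (Edge v) 0 n D hND
      (fun y => fl (Function.update z i y)) (proj z i)
      (fl (Function.update z i fun _ => true)) (fun y e he => fl_le z i y e he)
    have hstep := hSTT n q W (Edge v → Bool) (Fin k → Fin b) (Fin v → Fin (k - 1))
      (fun l => (Fin (s l) → Bool) × (Fin (t l) → Bool)) (fun _ => true) (posG hv) negIn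
      (fun l p y => F l (p.1, Fin.append
        (hist q l (a (fl (Function.update z i fun _ => true)))) p.2) y)
      (fun l p y => K l (p.1, Fin.append
        (hist q l (a (fl (Function.update z i fun _ => true)))) p.2) y)
      (fun l p y => outp (C l) (fl (Function.update z i y)) p.1 (Fin.append
        (hist q l (a (fl (Function.update z i fun _ => true)))) p.2))
      (fun l τ => Phi (C l) (fl (Function.update z i (posG hv τ))) =
        Phi (C l) (fl (Function.update z i fun _ => true)))
      (fun y => a (fl (Function.update z i y)))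
      (fun l => θ l (hist q l (a (fl (Function.update z i fun _ => true)))))
      (fun y => F₁ (fun i => i.elim0, a (fl (Function.update z i fun _ => true))) y)
      (fun y => K₁ (fun i => i.elim0, a (fl (Function.update z i fun _ => true))) y)
      (fun y => outp D (fl (Function.update z i y)) (fun i => i.elim0)
        (a (fl (Function.update z i fun _ => true))))
      (fun τ => Phi D (fl (Function.update z i (posG hv τ))) =
        Phi D (fl (Function.update z i fun _ => true)))
      hn hq
      (fun l => Fintype.card_pos) (by rw [hQ]; exact hkk)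
      (fun l p y hy => Pool.Agent.NNDT.MonSize.monotone (hfm l _) _ _ (fun _ _ => rfl) hy)
      (fun l τ hs p => hc1 l _ hs _)
      (fun l p => hc1 l _ rfl _)
      (fun l p y hy => hcf l y _ hy)
      (fun τ hs => hc1₁ _ hs _)
      (fun y hy => hcf₁ y _ hy)
      (fun l p => hDI _ (hG l) _ (hfm l _))
      (fun l p => hDI _ (hG l) _ (hcm l _))
      (hDI _ hGD _ (hfm₁ _))
      (hDI _ hGD _ (hcm₁ _))
      (fun l y hy => by
        rw [card_wit]
        have h5 := hA l (fl (Function.update z i y))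
        rw [hy] at h5
        exact h5)
      (fun τ hτ => by
        have h5 := (hD _).1 ((hup2 τ).all hkv)
        rw [hτ] at h5
        exact h5)
      (fun χ hχ => by
        by_contra h5
        rw [Bool.not_eq_false] at h5
        rw [← hχ] at h5
        have h6 := (hD _).2 h5 i
        have h7 : (fun e => fl (Function.update z i (negIn χ)) (i, e)) = negIn χ := by
          funext e
          simp [fl]
        rw [h7, clq_iff] at h6
        exact not_hasClique_negIn (by omega) χ h6)
    refine hstep.trans (Nat.mul_le_mul_left _ (card_le_card ?_))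
    intro τ hτ
    have hτ2 := (@Finset.mem_filter _ _ (_) _ _).1 hτ
    rw [mem_filter]
    refine ⟨mem_univ _, (hpot _ _ (fl_le z i _)).2 ?_⟩
    rcases hτ2.2 with h0 | ⟨l, h5 | ⟨h5, h6, h7⟩⟩
    · exact Or.inl h0
    · exact Or.inr ⟨l, Or.inl h5⟩
    · refine Or.inr ⟨l, Or.inr ⟨h5, h6, fun h8 => ?_⟩⟩
      have h9 := h7 h8
      rw [card_wit] at h9
      exact h9

end Pool.Agent.NPQ
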