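import Pool.Agent.NPQ.Stm4
import Pool.Agent.NPP.TRF2

/-!
# MOH: the output grows if the NOT gates do not change
-/

set_option autoImplicit false

namespace Pool.Agent.NPQ

open Finset Pool.Agent.NegLim Pool.Agent.NLM Pool.Agent.NEG72 Pool.Agent.NPP

namespace MOHM

variable {E : Type} {s t : ℕ}

theorem outp_mono (C : NCirc E s t) (hN : C.NotsFree) {x x' : E → Bool}
    (hx : ∀ e, x e = true → x' e = true) (h : Phi C x = Phi C x') (u : Fin s → Bool)
    (w : Fin t → Bool) (ho : outp C x u w = true) : outp C x' u w = true := by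
  have hg' : Good (guess C x' u) C.gates x' u w := good_guess C hN (fun _ => rfl) u w
  have hg : Good (guess C x' u) C.gates x u w :=
    good_guess C hN (fun u => num_eq_of_Phi C hx h.le u) u w
  have h2 : outp C x u w =
      C.out.val x u w (gvals (guess C x' u) C.gates x u w) := by
    rw [hg.gvals]
    rfl
  have h3 : outp C x' u w =
      C.out.val x' u w (gvals (guess C x' u) C.gates x' u w) := by
    rw [hg'.gvals]
    rfl
  rw [h3]
  rw [h2] at ho
  exact Wire.val_mono hx (gvals_mono _ C.gates u w hx) C.out ho

end MOHM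

theorem MOH_thm : Stmt_MOH := by
  intro E s t n C hN x x' hx h d
  unfold accH
  refine Finset.card_le_card fun p hp => ?_
  rw [Finset.mem_filter] at hp ⊢
  exact ⟨hp.1, MOHM.outp_mono C hN hx h p.1 (Fin.append d p.2) hp.2⟩

end Pool.Agent.NPQ
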