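import Pool.Agent.NPQ.Stmts
import Pool.Agent.NPP.BLK2

/-!
# BLQ: from `q` circuits with NOT gates for `m` graphs to programs without NOT gates for `n` graphs
-/

set_option autoImplicit false

namespace Pool.Agent.NPQ

open Finset Pool.Agent.NegLim Pool.Agent.NLM Pool.Agent.NEG72 Pool.Agent.NPP

namespace BLQM

/-- The number of the bad groups is less than the number of the groups. -/
theorem sum_lt {q : ℕ} (s u : Fin q → ℕ) (hq : 0 < q) :
    ∑ j, 2 ^ (s j) * (2 ^ (u j) - 1) < ∑ j, 2 ^ (s j + u j) := by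
  refine Finset.sum_lt_sum_of_nonempty ⟨⟨0, hq⟩, mem_univ _⟩ fun j _ => ?_
  have h5 : 0 < 2 ^ (s j) := by positivity
  have h6 : 0 < 2 ^ (u j) := by positivity
  have h7 : 2 ^ (s j) * (2 ^ (u j) - 1) < 2 ^ (s j) * 2 ^ (u j) :=
    Nat.mul_lt_mul_of_pos_left (by omega) h5
  rwa [← pow_add] at h7

end BLQM

open BLQM Pool.Agent.NPP.BLKM in
theorem BLQ_thm : Stmt_BLQ := by
  classical
  intro hTRQ m v k q n s t C hk hq hN hm
  set M := ∑ j, 2 ^ (s j + (C j).nots) with hM
  let idx : Fin M → Fin n → Fin m := fun g j => Fin.castLE hm (finProdFinEquiv (g, j))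
  have hidx : ∀ g j g' j', idx g j = idx g' j' → g = g' ∧ j = j' := by
    intro g i g' i' h
    have h1 := finProdFinEquiv.injective (Fin.castLE_injective hm h)
    exact ⟨congrArg Prod.fst h1, congrArg Prod.snd h1⟩
  let B : Fin M → Set (Fin m × Edge v) := fun g => {e | ∃ j, e.1 = idx g j}
  let φ : Fin M → (Fin m × Edge v → Bool) → Bool := fun g x =>
    decide (AllClq n v k fun q => x (idx g q.1, q.2))
  -- all functions are true: all graphs have cliques
  have hall : ∀ x : Fin m × Edge v → Bool, (∀ e, (∀ g, e ∉ B g) → x e = true) →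
      (∀ g, φ g x = true) → AllClq m v k x := by
    intro x hx h i
    by_cases hj : ∃ g j, idx g j = i
    · obtain ⟨g, j, rfl⟩ := hj
      exact (of_decide_eq_true (h g)) j
    · have h1 : (fun e : Edge v => x (i, e)) = fun _ => true := by
        funext e
        apply hx
        rintro g ⟨j, hj'⟩
        exact hj ⟨g, j, hj'.symm⟩
      rw [h1]
      exact clq_true hk
  obtain ⟨A, hA, hAF⟩ := hTRQ (Fin m × Edge v) (Fin M) q s t B
    (fun g g' hgg => Set.disjoint_left.2 (by
      rintro e ⟨j, h1⟩ ⟨j', h2⟩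
      exact hgg (hidx g j g' j' (h1.symm.trans h2)).1))
    (fun _ => true) φ
    (by
      intro g x x' hx
      have h1 : (fun q : Fin n × Edge v => x (idx g q.1, q.2)) =
          fun q => x' (idx g q.1, q.2) := by
        funext q
        exact hx _ ⟨q.1, rfl⟩
      simp only [φ, h1])
    (fun g => decide_eq_true fun i => clq_true hk) C hN
  obtain ⟨g, hg⟩ : ∃ g, g ∉ A := by
    by_contra hall
    push Not at hall
    have h3 : (univ : Finset (Fin M)) ⊆ A := fun i _ => hall i
    have h4 := Finset.card_le_card h3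
    rw [Finset.card_univ, Fintype.card_fin] at h4
    have h7 := sum_lt s (fun j => (C j).nots) hq
    rw [← hM] at h7
    exact absurd (h4.trans hA) (not_le.2 h7)
  obtain ⟨Z', f', c', ⟨hu1, hu2, hu3⟩, hf, hc, hc1, hfc⟩ := hAF g hg
  -- the substitution
  let σ : (Fin n × Edge v → Bool) → Fin m × Edge v → Bool := fun z e =>
    if h : ∃ j, e.1 = idx g j then z (h.choose, e.2) else true
  have hσ : IsProj σ := by
    intro e
    by_cases h : ∃ j, e.1 = idx g j
    · right; left
      refine ⟨(h.choose, e.2), ?_⟩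
      funext y
      simp only [σ, dif_pos h]
    · right; right
      refine ⟨true, ?_⟩
      funext y
      simp only [σ, dif_neg h]
  have hσ1 : ∀ (z : Fin n × Edge v → Bool) (j : Fin n) (e : Edge v),
      σ z (idx g j, e) = z (j, e) := by
    intro z j e
    have h : ∃ j', (idx g j, e).1 = idx g j' := ⟨j, rfl⟩
    have h2 : h.choose = j := ((hidx g j g _ h.choose_spec).2).symm
    simp only [σ, dif_pos h]
    rw [h2]
  have hφ : ∀ z, φ g (σ z) = true ↔ AllClq n v k z := by
    intro z
    simp only [φ, decide_eq_true_iff]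
    have h1 : (fun q : Fin n × Edge v => σ z (idx g q.1, q.2)) = z := by
      funext q
      exact hσ1 z q.1 q.2
    rw [h1]
  refine ⟨fun z => Z' (σ z), fun j p z => f' j p (σ z), fun j p z => c' j p (σ z),
    fun z => ⟨fun h => ?_, fun h => ?_⟩, fun j p => (hf j p).comp hσ,
    fun j p => (hc j p).comp hσ, fun z hz j p => hc1 (σ z) ((hφ z).2 hz) j p,
    fun z j p h => hfc (σ z) j p h⟩
  · rw [← hφ z, ← hu2]
    simp only [φ, decide_eq_true_iff]
    intro j
    exact h (idx g j)
  · refine hall _ (fun e he => hu1 (σ z) e he) fun g' => ?_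
    by_cases hgg : g' = g
    · subst hgg
      rw [hu2]
      exact (hφ z).2 h
    · exact hu3 (σ z) g' hgg

end Pool.Agent.NPQ
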