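import Pool.Agent.NPQ.Stmts

/-!
# Project NPQ, module CHN: the chain
-/

set_option autoImplicit false

namespace Pool.Agent.NPQ

open Finset

namespace CHNM

variable {Y P : Type}

/-- The sequence with `top` at the places `j < i` and `pos (a j)` at the other places. -/
def ww (pos : P → Y) (top : Y) {n : ℕ} (i : ℕ) (a : Fin n → P) : Fin n → Y :=
  fun j => if j.val < i then top else pos (a j)

lemma ww_good (pos : P → Y) (top : Y) {n : ℕ} (i : ℕ) (a : Fin n → P) :
    ∀ j, ww pos top i a j = top ∨ ∃ x, ww pos top i a j = pos x := by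
  intro j
  unfold ww
  split_ifs
  · exact Or.inl rfl
  · exact Or.inr ⟨_, rfl⟩

lemma ww_pos (pos : P → Y) (top : Y) {n : ℕ} (i : Fin n) (a : Fin n → P) (x : P) :
    ww pos top i.val (Function.update a i x) =
      Function.update (ww pos top i.val a) i (pos x) := by
  funext j
  by_cases hj : j = i
  · subst hj
    simp [ww]
  · simp [ww, Function.update_of_ne hj]

lemma ww_top (pos : P → Y) (top : Y) {n : ℕ} (i : Fin n) (a : Fin n → P) (x : P) :
    ww pos top (i.val + 1) (Function.update a i x) =
      Function.update (ww pos top i.val a) i top := by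
  funext j
  by_cases hj : j = i
  · subst hj
    simp [ww]
  · have h1 : j.val ≠ i.val := fun h => hj (Fin.ext h)
    have h2 : (j.val < i.val + 1) ↔ (j.val < i.val) := by omega
    simp [ww, Function.update_of_ne hj, h2]

/-- Averaging again over one coordinate. -/
lemma res_nat (I X : Type) [Fintype I] [DecidableEq I] [Fintype X] (r : I) (f : (I → X) → ℕ) :
    ∑ ω : I → X, ∑ x : X, f (Function.update ω r x) = Fintype.card X * ∑ ω, f ω := by
  have h0 : Function.Involutive
      (fun p : (I → X) × X => (Function.update p.1 r p.2, p.1 r)) := by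
    rintro ⟨ω, x⟩
    simp
  have h1 : ∑ p : (I → X) × X, f (Function.update p.1 r p.2) = ∑ p : (I → X) × X, f p.1 :=
    Fintype.sum_equiv (Function.Involutive.toPerm _ h0) _ _ fun p => rfl
  rw [Fintype.sum_prod_type, Fintype.sum_prod_type] at h1
  rw [h1, Finset.mul_sum]
  refine Finset.sum_congr rfl fun ω _ => ?_
  simp

/-- The sum over the coordinate. -/
lemma one_step [Fintype P] (F : P → ℕ) (T : ℕ) (h2 : ∀ a, F a ≤ T)
    (h3 : 2 * Fintype.card P ≤ 3 * ((univ : Finset P).filter fun a => F a + 1 ≤ T).card) :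
    3 * (∑ a, F a) + 2 * Fintype.card P ≤ 3 * ∑ _a : P, T := by
  classical
  have h4 : ∀ a : P, F a + (if F a + 1 ≤ T then 1 else 0) ≤ T := by
    intro a
    split_ifs with h
    · exact h
    · exact h2 a
  have h5 : (∑ a, F a) + ((univ : Finset P).filter fun a => F a + 1 ≤ T).card ≤ ∑ _a : P, T := by
    rw [Finset.card_filter, ← Finset.sum_add_distrib]
    exact Finset.sum_le_sum fun a _ => h4 a
  omega

end CHNM

open CHNM in
theorem CHN_thm : Stmt_CHN := by
  classical
  intro Y P _ _ pos top n K Ψ h1 h2 h3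
  set S : ℕ → ℕ := fun i => ∑ a : Fin n → P, Ψ (ww pos top i a) with hS
  have hP : 0 < Fintype.card P := Fintype.card_pos
  have step : ∀ i : ℕ, i < n → 3 * S i + 2 * Fintype.card P ^ n ≤ 3 * S (i + 1) := by
    intro i hi
    have e1 := res_nat (Fin n) P (⟨i, hi⟩ : Fin n)
      (fun a => Ψ (ww pos top i a))
    have e2 := res_nat (Fin n) P (⟨i, hi⟩ : Fin n)
      (fun a => Ψ (ww pos top (i + 1) a))
    have e3 : ∀ a : Fin n → P,
        3 * (∑ x, Ψ (ww pos top i (Function.update a ⟨i, hi⟩ x))) + 2 * Fintype.card P ≤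
          3 * ∑ x, Ψ (ww pos top (i + 1) (Function.update a ⟨i, hi⟩ x)) := by
      intro a
      have f1 : ∀ x, Ψ (ww pos top i (Function.update a ⟨i, hi⟩ x)) =
          Ψ (Function.update (ww pos top i a) ⟨i, hi⟩ (pos x)) := fun x =>
        congrArg Ψ (ww_pos pos top (⟨i, hi⟩ : Fin n) a x)
      have f2 : ∀ x, Ψ (ww pos top (i + 1) (Function.update a ⟨i, hi⟩ x)) =
          Ψ (Function.update (ww pos top i a) ⟨i, hi⟩ top) := fun x =>
        congrArg Ψ (ww_top pos top (⟨i, hi⟩ : Fin n) a x)
      simp only [f1, f2]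
      exact one_step _ _ (fun x => h2 _ (ww_good pos top i a) _ x)
        (h3 _ (ww_good pos top i a) _)
    have e4 := Finset.sum_le_sum fun (a : Fin n → P) (_ : a ∈ (univ : Finset (Fin n → P))) => e3 a
    have e6 : ∑ _a : Fin n → P, 2 * Fintype.card P =
        Fintype.card P ^ n * (2 * Fintype.card P) := by
      rw [Finset.sum_const, Finset.card_univ, Fintype.card_fun, Fintype.card_fin, smul_eq_mul]
    rw [Finset.sum_add_distrib, e6, ← Finset.mul_sum, ← Finset.mul_sum, e1, e2] at e4
    have e5 : Fintype.card P * (3 * S i + 2 * Fintype.card P ^ n) ≤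
        Fintype.card P * (3 * S (i + 1)) := by
      simp only [hS]
      calc _ = 3 * (Fintype.card P * ∑ a : Fin n → P, Ψ (ww pos top i a)) +
            Fintype.card P ^ n * (2 * Fintype.card P) := by ring
        _ ≤ _ := e4
        _ = _ := by ring
    exact Nat.le_of_mul_le_mul_left e5 hP
  have ind : ∀ i : ℕ, i ≤ n → 3 * S 0 + 2 * i * Fintype.card P ^ n ≤ 3 * S i := by
    intro i
    induction i with
    | zero => intro _; simp
    | succ i ih =>
      intro hi
      have g1 := ih (by omega)
      have g2 := step i (by omega)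
      have g3 : 2 * (i + 1) * Fintype.card P ^ n =
          2 * i * Fintype.card P ^ n + 2 * Fintype.card P ^ n := by ring
      rw [g3]
      omega
  have top1 : S n ≤ Fintype.card P ^ n * K := by
    have : S n ≤ ∑ _a : Fin n → P, K :=
      Finset.sum_le_sum fun a _ => h1 _ (ww_good pos top n a)
    rw [Finset.sum_const, Finset.card_univ, Fintype.card_fun, Fintype.card_fin,
      smul_eq_mul] at this
    exact this
  have fin := ind n le_rfl
  have hPn : 0 < Fintype.card P ^ n := pow_pos hP n
  have : Fintype.card P ^ n * (2 * n) ≤ Fintype.card P ^ n * (3 * K) := by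
    calc Fintype.card P ^ n * (2 * n) = 2 * n * Fintype.card P ^ n := by ring
      _ ≤ 3 * S n := by omega
      _ ≤ 3 * (Fintype.card P ^ n * K) := by omega
      _ = _ := by ring
  exact Nat.le_of_mul_le_mul_left this hPn

end Pool.Agent.NPQ
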