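import Pool.Agent.NPQ.Stm6

/-!
# CIR: a small monotone circuit for comparing a number given by witness bits with the number of the ones
-/

set_option autoImplicit false

namespace Pool.Agent.NPQ

open Finset Pool.Agent.NegLim Pool.Agent.NLM Pool.Agent.NEG72 Pool.Agent.NPP

namespace CIRM

/-- The number of the ones is counted by the list of all elements. -/
lemma countP_ones {E : Type} [Fintype E] (x : E → Bool) :
    ((univ : Finset E).toList).countP (fun e => x e) = ones x := by
  unfold ones
  rw [Finset.card_def, Finset.filter_val, ← Multiset.countP_eq_card_filter,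
    ← Finset.coe_toList (univ : Finset E), Multiset.coe_countP]
  refine List.countP_congr fun e _ => ?_
  simp

/-- A function which is made from nothing is the output of a circuit without NOT gates. -/
lemma circ_of_makes {E : Type} {s t K : ℕ} {F : Fn E s t} {T : Set (Fn E s t)}
    (h : Makes (∅ : Set (Fn E s t)) K T) (hF : F ∈ T) :
    ∃ C : NCirc E s t, C.nots = 0 ∧ C.gates.length ≤ K ∧ ∀ x u w, outp C x u w = F x u w := by
  obtain ⟨M, h1, h2, h3⟩ := h [] (fun f hf => absurd hf (Set.notMem_empty f))
  obtain ⟨C, c1, c2, c3, -⟩ := conv (h2 0 Prg.nil)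
  obtain ⟨a, ha⟩ := conv_wire (h3 F hF)
  refine ⟨⟨C, a⟩, c2, ?_, fun x u w => ?_⟩
  · show C.length ≤ K
    rw [c1, List.append_nil]
    exact h1
  · show a.val x u w (vals C x u w) = F x u w
    rw [c3, ha]

end CIRM

theorem CIR_thm : Stmt_CIR := by
  intro E _ n t φ
  classical
  set N := Fintype.card E with hNdef
  set l : List E := (univ : Finset E).toList with hl
  have hlen : l.length = N := by rw [hl, Finset.length_toList, Finset.card_univ]
  set S : Set (Fn E 0 (n + t)) := {f | ∃ a, f = thr l a} with hS
  set F : Fn E 0 (n + t) := fun x u w => (List.range (N + 1)).any fun j =>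
    decide (φ (fun i => w (Fin.castAdd t i)) = j) && thr l j x u w with hF
  have h1 : Makes (∅ : Set (Fn E 0 (n + t))) (N * (2 * (N + 1))) S := by
    have h := makes_thr_all (∅ : Set (Fn E 0 (n + t))) l
    rw [hlen] at h
    exact h
  have h2 : Makes ((∅ : Set (Fn E 0 (n + t))) ∪ S) ((N + 1) * 2) {F} := by
    have h := Makes.any (S := (∅ : Set (Fn E 0 (n + t))) ∪ S) (K := 1)
      (F := fun j x u w => decide (φ (fun i => w (Fin.castAdd t i)) = j) && thr l j x u w)
      (List.range (N + 1)) (fun j _ => by
        refine Makes.and (K := 0) (K' := 0) ?_ ?_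
        · exact Makes.wit _ fun _ w => decide (φ (fun i => w (Fin.castAdd t i)) = j)
        · apply Makes.of_mem
          intro f hf
          rw [Set.mem_singleton_iff.1 hf]
          exact Or.inr ⟨j, rfl⟩)
    rw [List.length_range] at h
    exact h
  obtain ⟨C, c1, c2, c3⟩ := CIRM.circ_of_makes (F := F) (h1.trans h2) (Or.inr rfl)
  refine ⟨C, c1, c2.trans ?_, fun x u d w => ?_⟩
  · calc N * (2 * (N + 1)) + (N + 1) * 2 = 2 * (N + 1) ^ 2 * 1 := by ring
      _ ≤ 12 * (N + 1) ^ 2 * (N + 1) :=
        Nat.mul_le_mul (Nat.mul_le_mul_right _ (by norm_num)) (by omega)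
      _ = 12 * (N + 1) ^ 3 := by ring
  · have hd : (fun i => Fin.append d w (Fin.castAdd t i)) = d := by
      funext i
      exact Fin.append_left d w i
    have hle : ones x ≤ N := by
      rw [← CIRM.countP_ones x, ← hlen]
      exact List.countP_le_length
    rw [c3, hF]
    simp only [hd, List.any_eq_true, Bool.and_eq_true, decide_eq_true_eq, thr_eq]
    rw [hl, CIRM.countP_ones]
    constructor
    · rintro ⟨j, _, h3, h4⟩
      omega
    · intro h3
      exact ⟨φ d, List.mem_range.2 (by omega), rfl, h3⟩

end Pool.Agent.NPQ
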