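import Pool.Agent.NPQ.Stmts
import Pool.Agent.NPP.CMP
import Pool.Agent.NNDT.Core

/-!
# Project NPQ, module CMQ: the contradiction without NOT gates
-/

set_option autoImplicit false

namespace Pool.Agent.NPQ

open Finset Pool.Agent.NegLim Pool.Agent.NLM Pool.Agent.NEG72 Pool.Agent.NPP

namespace CMQM

/-- `n` graphs as one input. -/
def fl {n v : ℕ} (z : Fin n → Edge v → Bool) : Fin n × Edge v → Bool := fun e => z e.1 e.2

/-- one variable graph -/
theorem proj {n v : ℕ} (z : Fin n → Edge v → Bool) (i : Fin n) :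
    IsProj (fun (y : Edge v → Bool) => fl (Function.update z i y)) := by
  rintro ⟨j, e⟩
  by_cases hj : j = i
  · subst hj
    refine Or.inr (Or.inl ⟨e, ?_⟩)
    funext y
    simp [fl]
  · refine Or.inr (Or.inr ⟨z j e, ?_⟩)
    funext y
    simp [fl, hj]

theorem cnt_le {P X : Type} [Fintype P] (g : P → X → Bool) (x : X) :
    cnt g x ≤ Fintype.card P := by
  unfold cnt
  exact (card_filter_le _ _).trans (le_of_eq card_univ)

theorem cnt_mono {P X : Type} [Fintype P] (g : P → X → Bool) (x y : X)
    (h : ∀ p, g p x = true → g p y = true) : cnt g x ≤ cnt g y := by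
  unfold cnt
  exact card_le_card (monotone_filter_right _ fun p _ => h p)

/-- all graphs are complete or positive tests -/
def Gd {n v k b : ℕ} (hv : k * b ≤ v) (z : Fin n → Edge v → Bool) : Prop :=
  ∀ i, z i = (fun _ => true) ∨ ∃ a, z i = posG hv a

theorem Gd.upd {n v k b : ℕ} {hv : k * b ≤ v} {z : Fin n → Edge v → Bool} (hz : Gd hv z)
    (i : Fin n) (y : Edge v → Bool) (hy : y = (fun _ => true) ∨ ∃ a, y = posG hv a) :
    Gd hv (Function.update z i y) := by
  intro j
  by_cases hj : j = i
  · subst hj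
    rw [Function.update_self]
    exact hy
  · rw [Function.update_of_ne hj]
    exact hz j

theorem clq_top {v k : ℕ} (hkv : k ≤ v) : clq v k (fun _ => true) = true := by
  rw [clq_iff]
  obtain ⟨S, hS⟩ := Finset.exists_subset_card_eq (s := (univ : Finset (Fin v)))
    (n := k) (by rw [card_univ, Fintype.card_fin]; exact hkv)
  exact ⟨S, hS.2, fun e _ _ => rfl⟩

theorem Gd.all {n v k b : ℕ} {hv : k * b ≤ v} {z : Fin n → Edge v → Bool} (hz : Gd hv z)
    (hkv : k ≤ v) : AllClq n v k (fl z) := by
  intro i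
  have h1 : (fun e => fl z (i, e)) = z i := rfl
  rw [h1]
  rcases hz i with h | ⟨a, h⟩
  · rw [h]
    exact clq_top hkv
  · rw [h]
    exact CMPM.clq_posG hv a

end CMQM

open Classical CMQM in
theorem CMQ_thm : Stmt_CMQ := by
  intro hDI1 hSTQ hLEV hCHN n v k b h p T q W hv Pt _ f c g A D θ₀ hq hPt h1 hk hp hb hT hD2 hbig
    hf hc hall hfg hA₀ hD
  obtain ⟨hL1, hL2, hL3⟩ := hLEV
  have h2W : (0 : ℝ) < 2 ^ W := by positivity
  have h4 : 1 ≤ 2 * h - 1 := by omega
  have hk2 : 2 ≤ k - 1 := by nlinarith
  have hb1 : 0 < b := by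
    have h5 : 1 ≤ p * (2 * h) := by nlinarith
    omega
  have hkv : k ≤ v := by nlinarith
  have : Nonempty (Fin b) := ⟨⟨0, hb1⟩⟩
  have : Nonempty (Fin (k - 1)) := ⟨⟨0, by omega⟩⟩
  have cPt : ∀ j, (0 : ℝ) < Fintype.card (Pt j) := fun j => by exact_mod_cast hPt j
  -- the thresholds
  set θ : Fin q → ℝ := fun j => max (θ₀ j) (-(1 / 2 ^ W)) with hθ
  have hθ1 : ∀ j, -(1 / 2 ^ W) ≤ θ j := fun j => le_max_right _ _
  have hA : ∀ j z, (A j z → (θ j + 1 / 2 ^ W) * Fintype.card (Pt j) ≤ cnt (g j) z) ∧
      (¬ A j z → (cnt (g j) z : ℝ) ≤ θ j * Fintype.card (Pt j)) := by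
    intro j z
    refine ⟨fun hz => ?_, fun hz => ?_⟩
    · rcases le_total (-(1 / 2 ^ W)) (θ₀ j) with h5 | h5
      · rw [hθ]
        simp only [max_eq_left h5]
        exact (hA₀ j z).1 hz
      · rw [hθ]
        simp only [max_eq_right h5]
        rw [neg_add_cancel, zero_mul]
        exact Nat.cast_nonneg _
    · refine ((hA₀ j z).2 hz).trans ?_
      exact mul_le_mul_of_nonneg_right (le_max_left _ _) (cPt j).le
  -- the functions at good inputs
  have hgf : ∀ z : Fin n → Edge v → Bool, Gd hv z → ∀ j p, g j p (fl z) = f j p (fl z) :=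
    fun z hz j p => (hfg _ j p (hall _ (hz.all hkv) j p)).symm
  have hle : ∀ (z : Fin n → Edge v → Bool) (i : Fin n) (y : Edge v → Bool) (j : Fin q) (p : Pt j),
      f j p (fl (Function.update z i y)) = true →
        f j p (fl (Function.update z i fun _ => true)) = true := by
    intro z i y j p hy
    refine Pool.Agent.NNDT.MonSize.monotone (hf j p) _ _ ?_ hy
    rintro ⟨i', e⟩ he
    by_cases hi : i' = i
    · subst hi
      simp [fl]
    · simpa [fl, hi] using he
  have hcnt : ∀ z : Fin n → Edge v → Bool, Gd hv z → ∀ i a j,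
      cnt (g j) (fl (Function.update z i (posG hv a))) ≤
        cnt (g j) (fl (Function.update z i fun _ => true)) := by
    intro z hz i a j
    refine cnt_mono _ _ _ fun p hp => ?_
    rw [hgf _ (hz.upd i _ (Or.inl rfl))]
    rw [hgf _ (hz.upd i _ (Or.inr ⟨a, rfl⟩))] at hp
    exact hle z i _ j p hp
  have hAm : ∀ z : Fin n → Edge v → Bool, Gd hv z → ∀ i a j,
      A j (fl (Function.update z i (posG hv a))) →
        A j (fl (Function.update z i fun _ => true)) := by
    intro z hz i a j h5
    by_contra h6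
    have h7 := (hA j _).1 h5
    have h8 := (hA j _).2 h6
    have h9 : (cnt (g j) (fl (Function.update z i (posG hv a))) : ℝ) ≤
        cnt (g j) (fl (Function.update z i fun _ => true)) := by
      exact_mod_cast hcnt z hz i a j
    have h10 : 0 < 1 / (2 : ℝ) ^ W * Fintype.card (Pt j) := mul_pos (by positivity) (cPt j)
    linarith
  have hxle : ∀ z : Fin n → Edge v → Bool, Gd hv z → ∀ i a j,
      (cnt (g j) (fl (Function.update z i (posG hv a))) : ℝ) / Fintype.card (Pt j) ≤
        (cnt (g j) (fl (Function.update z i fun _ => true)) : ℝ) / Fintype.card (Pt j) := by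
    intro z hz i a j
    refine div_le_div_of_nonneg_right ?_ (cPt j).le
    exact_mod_cast hcnt z hz i a j
  refine hCHN (Edge v → Bool) (Fin k → Fin b) (posG hv) (fun _ => true) n (q * (W + 2))
    (fun z => ∑ j, lev W (θ j) ((cnt (g j) (fl z) : ℝ) / Fintype.card (Pt j)) (A j (fl z)))
    ?_ ?_ ?_
  · intro z _
    have h5 : ∀ j ∈ (univ : Finset (Fin q)),
        lev W (θ j) ((cnt (g j) (fl z) : ℝ) / Fintype.card (Pt j)) (A j (fl z)) ≤ W + 2 := by
      intro j _
      refine hL1 W (θ j) _ _ (hθ1 j) ?_
      rw [div_le_one (cPt j)]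
      exact_mod_cast cnt_le (g j) (fl z)
    refine (sum_le_card_nsmul _ _ _ h5).trans (le_of_eq ?_)
    rw [card_univ, Fintype.card_fin, smul_eq_mul]
  · intro z hz i a
    exact sum_le_sum fun j _ => hL2 W (θ j) _ _ _ _ (hxle z hz i a j) (hAm z hz i a j)
  · intro z hz' i
    have hz : Gd hv z := hz'
    have hproj := proj z i
    have hP : Fintype.card (Fin k → Fin b) = b ^ k := by
      rw [Fintype.card_fun, Fintype.card_fin, Fintype.card_fin]
    have hQ : Fintype.card (Fin v → Fin (k - 1)) = (k - 1) ^ v := by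
      rw [Fintype.card_fun, Fintype.card_fin, Fintype.card_fin]
    have hbk : 0 < b ^ k := pow_pos hb1 k
    have hkk : 0 < (k - 1) ^ v := pow_pos (by omega) v
    have hup : Gd hv (Function.update z i fun _ => true) := hz.upd i _ (Or.inl rfl)
    have hup2 : ∀ a, Gd hv (Function.update z i (posG hv a)) :=
      fun a => hz.upd i _ (Or.inr ⟨a, rfl⟩)
    have hDI : ∀ F : (Edge v → Bool) → Bool, MonSize F T →
        16 * q * 2 ^ W * ((univ : Finset (Fin v → Fin (k - 1))).filter
          fun χ => F (negIn χ) = false).card < Fintype.card (Fin v → Fin (k - 1)) ∨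
        12 * q * ((univ : Finset (Fin k → Fin b)).filter
          fun τ => F (posG hv τ) = true).card ≤ Fintype.card (Fin k → Fin b) := by
      intro F hF
      rw [hP, hQ]
      rcases hDI1 v k b h p T (12 * q) hv F h1 hk hp hb (by omega)
        (by rw [← mul_assoc]; exact hT) (by rw [← mul_assoc]; exact hD2) hF with h5 | h5
      · left
        have h6 : 2 ^ p * (16 * q * 2 ^ W * ((univ : Finset (Fin v → Fin (k - 1))).filter
            fun χ => F (negIn χ) = false).card) < 2 ^ p * (k - 1) ^ v := by
          calc _ = 16 * q * 2 ^ W * (2 ^ p * ((univ : Finset (Fin v → Fin (k - 1))).filter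
                fun χ => F (negIn χ) = false).card) := by ring
            _ ≤ 16 * q * 2 ^ W * (T * (4 * (p * (2 * h)) ^ (4 * h)) * (k - 1) ^ v) :=
                Nat.mul_le_mul_left _ h5
            _ = 16 * q * 2 ^ W * (T * (4 * (p * (2 * h)) ^ (4 * h))) * (k - 1) ^ v := by ring
            _ < _ := Nat.mul_lt_mul_of_pos_right hbig hkk
        exact Nat.lt_of_mul_lt_mul_left h6
      · exact Or.inr h5
    have hstep := hSTQ q W (Edge v → Bool) (Fin k → Fin b) (Fin v → Fin (k - 1)) Pt
      (fun _ => true) (posG hv) negIn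
      (fun j p x => f j p (fl (Function.update z i x)))
      (fun j p x => c j p (fl (Function.update z i x)))
      (fun j p x => g j p (fl (Function.update z i x)))
      (fun j x => A j (fl (Function.update z i x))) D θ hq hPt (by rw [hQ]; exact hkk)
      (fun j p x hx => hle z i x j p hx)
      (fun j p a => hall _ ((hup2 a).all hkv) j p)
      (fun j p => hall _ (hup.all hkv) j p)
      (fun j p x hx => hfg _ j p hx)
      (fun j p => hDI _ ((hf j p).comp hproj))
      (fun j p => by
        rcases hDI _ ((hc j p).comp hproj) with h5 | h5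
        · exact h5
        · exfalso
          rw [filter_true_of_mem fun a _ => hall _ ((hup2 a).all hkv) j p, card_univ, hP] at h5
          nlinarith)
      (fun j x => hA j _)
      (fun a => (hD _).1 ((hup2 a).all hkv))
      (fun χ h5 => by
        have h6 := (hD _).2 h5 i
        have h7 : (fun e => fl (Function.update z i (negIn χ)) (i, e)) = negIn χ := by
          funext e
          simp [fl]
        rw [h7, clq_iff] at h6
        exact not_hasClique_negIn (by omega) χ h6)
    refine hstep.trans (Nat.mul_le_mul_left _ (card_le_card ?_))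
    intro a ha
    rw [mem_filter] at ha ⊢
    refine ⟨mem_univ _, ?_⟩
    obtain ⟨-, j, hj1, hj2⟩ := ha
    refine Nat.succ_le_of_lt (sum_lt_sum
      (fun j' _ => hL2 W (θ j') _ _ _ _ (hxle z hz i a j') (hAm z hz i a j'))
      ⟨j, mem_univ _, Nat.lt_of_succ_le (hL3 W (θ j) _ _ _ _ hj1 (fun h5 => ?_) fun h5 => ?_)⟩)
    · rw [le_div_iff₀ (cPt j)]
      exact (hA j _).1 h5
    · have h6 := hj2 h5
      have e1 : ∀ x : ℝ, x / Fintype.card (Pt j) - θ j =
          (x - θ j * Fintype.card (Pt j)) / Fintype.card (Pt j) := by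
        intro x
        rw [sub_div, mul_div_assoc, div_self (cPt j).ne', mul_one]
      rw [e1, e1, ← mul_div_assoc]
      exact div_le_div_of_nonneg_right h6 (cPt j).le

end Pool.Agent.NPQ
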