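import Pool.Agent.NPQ.Stm2
import Pool.Agent.NPP.CMP
import Pool.Agent.NNDT.Core

/-!
# Project NPQ, module CMR: the assembly of the second version
-/

set_option autoImplicit false

namespace Pool.Agent.NPQ

open Finset Pool.Agent.NegLim Pool.Agent.NLM Pool.Agent.NEG72 Pool.Agent.NPP

namespace CMRM

/-- `n` graphs as one input. -/
def fl {n v : ℕ} (z : Fin n → Edge v → Bool) : Fin n × Edge v → Bool := fun e => z e.1 e.2

/-- one variable graph -/
theorem proj {n v : ℕ} (z : Fin n → Edge v → Bool) (i : Fin n) :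
    IsProj (fun (y : Edge v → Bool) => fl (Function.update z i y)) := by
  rintro ⟨j, e⟩
  by_cases hj : j = i
  · subst hj
    refine Or.inr (Or.inl ⟨e, ?_⟩)
    funext y
    simp [fl]
  · refine Or.inr (Or.inr ⟨z j e, ?_⟩)
    funext y
    simp [fl, hj]

/-- all graphs are complete or positive tests -/
def Gd {n v k b : ℕ} (hv : k * b ≤ v) (z : Fin n → Edge v → Bool) : Prop :=
  ∀ i, z i = (fun _ => true) ∨ ∃ a, z i = posG hv a

theorem Gd.upd {n v k b : ℕ} {hv : k * b ≤ v} {z : Fin n → Edge v → Bool} (hz : Gd hv z)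
    (i : Fin n) (y : Edge v → Bool) (hy : y = (fun _ => true) ∨ ∃ a, y = posG hv a) :
    Gd hv (Function.update z i y) := by
  intro j
  by_cases hj : j = i
  · subst hj
    rw [Function.update_self]
    exact hy
  · rw [Function.update_of_ne hj]
    exact hz j

theorem clq_top {v k : ℕ} (hkv : k ≤ v) : clq v k (fun _ => true) = true := by
  rw [clq_iff]
  obtain ⟨S, hS⟩ := Finset.exists_subset_card_eq (s := (univ : Finset (Fin v)))
    (n := k) (by rw [card_univ, Fintype.card_fin]; exact hkv)
  exact ⟨S, hS.2, fun e _ _ => rfl⟩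

theorem Gd.all {n v k b : ℕ} {hv : k * b ≤ v} {z : Fin n → Edge v → Bool} (hz : Gd hv z)
    (hkv : k ≤ v) : AllClq n v k (fl z) := by
  intro i
  have h1 : (fun e => fl z (i, e)) = z i := rfl
  rw [h1]
  rcases hz i with h | ⟨a, h⟩
  · rw [h]
    exact clq_top hkv
  · rw [h]
    exact CMPM.clq_posG hv a

/-- the graph number `i` is below the complete graph -/
theorem fl_le {n v : ℕ} (z : Fin n → Edge v → Bool) (i : Fin n) (y : Edge v → Bool)
    (e : Fin n × Edge v) (he : fl (Function.update z i y) e = true) :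
    fl (Function.update z i fun _ => true) e = true := by
  obtain ⟨j, e⟩ := e
  by_cases hj : j = i
  · subst hj
    simp [fl]
  · simpa [fl, hj] using he

theorem card_wit (s t : ℕ) :
    (Fintype.card ((Fin s → Bool) × (Fin t → Bool)) : ℝ) = 2 ^ (s + t) := by
  rw [Fintype.card_prod, Fintype.card_fun, Fintype.card_fun, Fintype.card_fin, Fintype.card_fin,
    Fintype.card_bool, pow_add]
  push_cast
  ring

end CMRM

open Classical CMRM in
theorem CMR_thm : Stmt_CMR := by
  intro hLEV hDI1 hCHN hGUE hPTR hSTR m v k b h p T q W hv s t C A D θ hq h1 hk hp hb hT hD2 hbig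
    hN hG hθ hA hD
  have h4 : 1 ≤ 2 * h - 1 := by omega
  have hk2 : 2 ≤ k - 1 := by nlinarith
  have hb1 : 0 < b := by
    have h5 : 1 ≤ p * (2 * h) := by nlinarith
    omega
  have hkv : k ≤ v := by nlinarith
  have : Nonempty (Fin b) := ⟨⟨0, hb1⟩⟩
  have : Nonempty (Fin (k - 1)) := ⟨⟨0, by omega⟩⟩
  have hpot := fun j => hPTR hLEV (Fin m × Edge v) (s j) (t j) W (θ j) (C j) (A j) (hN j) (hθ j)
    (hA j)
  refine hCHN (Edge v → Bool) (Fin k → Fin b) (posG hv) (fun _ => true) m
    ((W + 3) * ∑ j, 2 ^ (s j + (C j).nots))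
    (fun z => ∑ j, pot W (θ j) (C j) (A j) (fl z)) ?_ ?_ ?_
  · intro z _
    rw [mul_sum]
    exact sum_le_sum fun j _ => (hpot j).1 _
  · intro z _ i a
    exact sum_le_sum fun j _ => ((hpot j).2 _ _ (fl_le z i _)).1
  · intro z hz' i
    have hz : Gd hv z := hz'
    have hP : Fintype.card (Fin k → Fin b) = b ^ k := by
      rw [Fintype.card_fun, Fintype.card_fin, Fintype.card_fin]
    have hQ : Fintype.card (Fin v → Fin (k - 1)) = (k - 1) ^ v := by
      rw [Fintype.card_fun, Fintype.card_fin, Fintype.card_fin]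
    have hkk : 0 < (k - 1) ^ v := pow_pos (by omega) v
    have hup2 : ∀ a, Gd hv (Function.update z i (posG hv a)) :=
      fun a => hz.upd i _ (Or.inr ⟨a, rfl⟩)
    have hDI : ∀ (j : Fin q) (F : (Edge v → Bool) → Bool), MonSize F ((C j).gates.length + 1) →
        16 * q * 2 ^ W * ((univ : Finset (Fin v → Fin (k - 1))).filter
          fun χ => F (negIn χ) = false).card < Fintype.card (Fin v → Fin (k - 1)) ∨
        12 * ((univ : Finset (Fin k → Fin b)).filter
          fun τ => F (posG hv τ) = true).card ≤ Fintype.card (Fin k → Fin b) := by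
      intro j F hF
      rw [hP, hQ]
      rcases hDI1 v k b h p ((C j).gates.length + 1) 12 hv F h1 hk hp hb (by norm_num)
        ((Nat.mul_le_mul_left 24 (hG j)).trans hT) hD2 hF with h5 | h5
      · left
        have h6 : 2 ^ p * (16 * q * 2 ^ W * ((univ : Finset (Fin v → Fin (k - 1))).filter
            fun χ => F (negIn χ) = false).card) < 2 ^ p * (k - 1) ^ v := by
          calc _ = 16 * q * 2 ^ W * (2 ^ p * ((univ : Finset (Fin v → Fin (k - 1))).filter
                fun χ => F (negIn χ) = false).card) := by ring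
            _ ≤ 16 * q * 2 ^ W *
                (((C j).gates.length + 1) * (4 * (p * (2 * h)) ^ (4 * h)) * (k - 1) ^ v) :=
                Nat.mul_le_mul_left _ h5
            _ ≤ 16 * q * 2 ^ W * (T * (4 * (p * (2 * h)) ^ (4 * h)) * (k - 1) ^ v) :=
                Nat.mul_le_mul_left _ (Nat.mul_le_mul_right _ (Nat.mul_le_mul_right _ (hG j)))
            _ = 16 * q * 2 ^ W * (T * (4 * (p * (2 * h)) ^ (4 * h))) * (k - 1) ^ v := by ring
            _ < _ := Nat.mul_lt_mul_of_pos_right hbig hkk
        exact Nat.lt_of_mul_lt_mul_left h6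
      · exact Or.inr h5
    choose f c hfm hcm hc1 hcf using fun j => hGUE (Fin m × Edge v) (Edge v) (s j) (t j) (C j)
      (hN j) (fun y => fl (Function.update z i y)) (proj z i)
      (fl (Function.update z i fun _ => true)) (fun y e he => fl_le z i y e he)
    have hstep := hSTR q W (Edge v → Bool) (Fin k → Fin b) (Fin v → Fin (k - 1))
      (fun j => (Fin (s j) → Bool) × (Fin (t j) → Bool)) (fun _ => true) (posG hv) negIn f c
      (fun j p y => outp (C j) (fl (Function.update z i y)) p.1 p.2)
      (fun j a => Phi (C j) (fl (Function.update z i (posG hv a))) =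
        Phi (C j) (fl (Function.update z i fun _ => true)))
      (fun j y => A j (fl (Function.update z i y))) D θ hq
      (fun j => Fintype.card_pos) (by rw [hQ]; exact hkk)
      (fun j p y hy => Pool.Agent.NNDT.MonSize.monotone (hfm j p) _ _ (fun _ _ => rfl) hy)
      (fun j a hs p => hc1 j _ hs p)
      (fun j p => hc1 j _ rfl p)
      (fun j p y hy => hcf j y p hy)
      (fun j p => hDI j _ (hfm j p))
      (fun j p => hDI j _ (hcm j p))
      (fun j y => by
        rw [card_wit]
        exact hA j _)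
      (fun a => (hD _).1 ((hup2 a).all hkv))
      (fun χ h5 => by
        have h6 := (hD _).2 h5 i
        have h7 : (fun e => fl (Function.update z i (negIn χ)) (i, e)) = negIn χ := by
          funext e
          simp [fl]
        rw [h7, clq_iff] at h6
        exact not_hasClique_negIn (by omega) χ h6)
    refine hstep.trans (Nat.mul_le_mul_left _ (card_le_card ?_))
    intro a ha
    have ha2 := (@Finset.mem_filter _ _ (_) _ _).1 ha
    rw [mem_filter]
    refine ⟨mem_univ _, ?_⟩
    obtain ⟨-, j, hj⟩ := ha2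
    refine Nat.succ_le_of_lt (sum_lt_sum
      (fun j' _ => ((hpot j').2 _ _ (fl_le z i _)).1) ⟨j, mem_univ _, Nat.lt_of_succ_le ?_⟩)
    rcases hj with hj | ⟨hj1, hj2⟩
    · exact ((hpot j).2 _ _ (fl_le z i _)).2.1 hj
    · refine ((hpot j).2 _ _ (fl_le z i _)).2.2 hj1 fun h5 => ?_
      have h6 := hj2 h5
      rw [card_wit] at h6
      exact h6

end Pool.Agent.NPQ
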