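import Pool.Agent.NPQ.Stm3
import Pool.Agent.NPP.CMP
import Pool.Agent.NNDT.Core

/-!
# Project NPQ, module CMS: the assembly of the third version
-/

set_option autoImplicit false

namespace Pool.Agent.NPQ

open Finset Pool.Agent.NegLim Pool.Agent.NLM Pool.Agent.NEG72 Pool.Agent.NPP

namespace CMSM

/-- `n` graphs as one input. -/
def fl {n v : ℕ} (z : Fin n → Edge v → Bool) : Fin n × Edge v → Bool := fun e => z e.1 e.2

/-- one variable graph -/
theorem proj {n v : ℕ} (z : Fin n → Edge v → Bool) (i : Fin n) :
    IsProj (fun (y : Edge v → Bool) => fl (Function.update z i y)) := by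
  rintro ⟨j, e⟩
  by_cases hj : j = i
  · subst hj
    refine Or.inr (Or.inl ⟨e, ?_⟩)
    funext y
    simp [fl]
  · refine Or.inr (Or.inr ⟨z j e, ?_⟩)
    funext y
    simp [fl, hj]

/-- all graphs are complete or positive tests -/
def Gd {n v k b : ℕ} (hv : k * b ≤ v) (z : Fin n → Edge v → Bool) : Prop :=
  ∀ i, z i = (fun _ => true) ∨ ∃ a, z i = posG hv a

theorem Gd.upd {n v k b : ℕ} {hv : k * b ≤ v} {z : Fin n → Edge v → Bool} (hz : Gd hv z)
    (i : Fin n) (y : Edge v → Bool) (hy : y = (fun _ => true) ∨ ∃ a, y = posG hv a) :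
    Gd hv (Function.update z i y) := by
  intro j
  by_cases hj : j = i
  · subst hj
    rw [Function.update_self]
    exact hy
  · rw [Function.update_of_ne hj]
    exact hz j

theorem clq_top {v k : ℕ} (hkv : k ≤ v) : clq v k (fun _ => true) = true := by
  rw [clq_iff]
  obtain ⟨S, hS⟩ := Finset.exists_subset_card_eq (s := (univ : Finset (Fin v)))
    (n := k) (by rw [card_univ, Fintype.card_fin]; exact hkv)
  exact ⟨S, hS.2, fun e _ _ => rfl⟩

theorem Gd.all {n v k b : ℕ} {hv : k * b ≤ v} {z : Fin n → Edge v → Bool} (hz : Gd hv z)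
    (hkv : k ≤ v) : AllClq n v k (fl z) := by
  intro i
  have h1 : (fun e => fl z (i, e)) = z i := rfl
  rw [h1]
  rcases hz i with h | ⟨a, h⟩
  · rw [h]
    exact clq_top hkv
  · rw [h]
    exact CMPM.clq_posG hv a

/-- the graph number `i` is below the complete graph -/
theorem fl_le {n v : ℕ} (z : Fin n → Edge v → Bool) (i : Fin n) (y : Edge v → Bool)
    (e : Fin n × Edge v) (he : fl (Function.update z i y) e = true) :
    fl (Function.update z i fun _ => true) e = true := by
  obtain ⟨j, e⟩ := e
  by_cases hj : j = i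
  · subst hj
    simp [fl]
  · simpa [fl, hj] using he

theorem card_wit (s t : ℕ) :
    (Fintype.card ((Fin s → Bool) × (Fin t → Bool)) : ℝ) = 2 ^ (s + t) := by
  rw [Fintype.card_prod, Fintype.card_fun, Fintype.card_fun, Fintype.card_fin, Fintype.card_fin,
    Fintype.card_bool, pow_add]
  push_cast
  ring

end CMSM

open Classical CMSM in
theorem CMS_thm : Stmt_CMS := by
  intro hLEV hDI1 hCHN hGUE hPTR hSTS m v k b h p T q W hv s t C A D θ hq h1 hk hp hb hT hD2 hbig
    hN hG hND hGD hθ hA hD
  have h4 : 1 ≤ 2 * h - 1 := by omega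
  have hk2 : 2 ≤ k - 1 := by nlinarith
  have hb1 : 0 < b := by
    have h5 : 1 ≤ p * (2 * h) := by nlinarith
    omega
  have hkv : k ≤ v := by nlinarith
  have : Nonempty (Fin b) := ⟨⟨0, hb1⟩⟩
  have : Nonempty (Fin (k - 1)) := ⟨⟨0, by omega⟩⟩
  have hpot := fun j => hPTR hLEV (Fin m × Edge v) (s j) (t j) W (θ j) (C j)
    (fun x => A j x = true) (hN j) (hθ j) (hA j)
  have hPhi : ∀ (z : Fin m → Edge v → Bool) (i : Fin m) (y : Edge v → Bool),
      Phi D (fl (Function.update z i fun _ => true)) ≤ Phi D (fl (Function.update z i y)) :=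
    fun z i y => Phi_mono D (fl_le z i y)
  have hPhi2 : ∀ x, Phi D x ≤ 2 ^ D.nots := by
    intro x
    have h5 := Phi_le D x
    rw [pow_zero, one_mul] at h5
    exact h5.trans (Nat.sub_le _ _)
  refine hCHN (Edge v → Bool) (Fin k → Fin b) (posG hv) (fun _ => true) m
    (2 ^ D.nots + (W + 3) * ∑ j, 2 ^ (s j + (C j).nots))
    (fun z => (2 ^ D.nots - Phi D (fl z)) +
      ∑ j, pot W (θ j) (C j) (fun x => A j x = true) (fl z)) ?_ ?_ ?_
  · intro z _
    rw [mul_sum]
    exact Nat.add_le_add (Nat.sub_le _ _) (sum_le_sum fun j _ => (hpot j).1 _)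
  · intro z _ i a
    exact Nat.add_le_add (Nat.sub_le_sub_left (hPhi z i _) _)
      (sum_le_sum fun j _ => ((hpot j).2 _ _ (fl_le z i _)).1)
  · intro z hz' i
    have hz : Gd hv z := hz'
    have hP : Fintype.card (Fin k → Fin b) = b ^ k := by
      rw [Fintype.card_fun, Fintype.card_fin, Fintype.card_fin]
    have hQ : Fintype.card (Fin v → Fin (k - 1)) = (k - 1) ^ v := by
      rw [Fintype.card_fun, Fintype.card_fin, Fintype.card_fin]
    have hkk : 0 < (k - 1) ^ v := pow_pos (by omega) v
    have hup2 : ∀ a, Gd hv (Function.update z i (posG hv a)) :=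
      fun a => hz.upd i _ (Or.inr ⟨a, rfl⟩)
    have hDI : ∀ (G' : ℕ), G' ≤ T → ∀ (F : (Edge v → Bool) → Bool), MonSize F G' →
        32 * q * 2 ^ W * ((univ : Finset (Fin v → Fin (k - 1))).filter
          fun χ => F (negIn χ) = false).card < Fintype.card (Fin v → Fin (k - 1)) ∨
        12 * ((univ : Finset (Fin k → Fin b)).filter
          fun τ => F (posG hv τ) = true).card ≤ Fintype.card (Fin k → Fin b) := by
      intro G' hG' F hF
      rw [hP, hQ]
      rcases hDI1 v k b h p G' 12 hv F h1 hk hp hb (by norm_num)
        ((Nat.mul_le_mul_left 24 hG').trans hT) hD2 hF with h5 | h5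
      · left
        have h6 : 2 ^ p * (32 * q * 2 ^ W * ((univ : Finset (Fin v → Fin (k - 1))).filter
            fun χ => F (negIn χ) = false).card) < 2 ^ p * (k - 1) ^ v := by
          calc _ = 32 * q * 2 ^ W * (2 ^ p * ((univ : Finset (Fin v → Fin (k - 1))).filter
                fun χ => F (negIn χ) = false).card) := by ring
            _ ≤ 32 * q * 2 ^ W * (G' * (4 * (p * (2 * h)) ^ (4 * h)) * (k - 1) ^ v) :=
                Nat.mul_le_mul_left _ h5
            _ ≤ 32 * q * 2 ^ W * (T * (4 * (p * (2 * h)) ^ (4 * h)) * (k - 1) ^ v) :=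
                Nat.mul_le_mul_left _ (Nat.mul_le_mul_right _ (Nat.mul_le_mul_right _ hG'))
            _ = 32 * q * 2 ^ W * (T * (4 * (p * (2 * h)) ^ (4 * h))) * (k - 1) ^ v := by ring
            _ < _ := Nat.mul_lt_mul_of_pos_right hbig hkk
        exact Nat.lt_of_mul_lt_mul_left h6
      · exact Or.inr h5
    choose f c hfm hcm hc1 hcf using fun j => hGUE (Fin m × Edge v) (Edge v) (s j) (t j) (C j)
      (hN j) (fun y => fl (Function.update z i y)) (proj z i)
      (fl (Function.update z i fun _ => true)) (fun y e he => fl_le z i y e he)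
    obtain ⟨f₁, c₁, hfm₁, hcm₁, hc1₁, hcf₁⟩ := hGUE (Fin m × Edge v) (Edge v) 0 q D hND
      (fun y => fl (Function.update z i y)) (proj z i)
      (fl (Function.update z i fun _ => true)) (fun y e he => fl_le z i y e he)
    have hstep := hSTS q W (Edge v → Bool) (Fin k → Fin b) (Fin v → Fin (k - 1))
      (fun j => (Fin (s j) → Bool) × (Fin (t j) → Bool)) (fun _ => true) (posG hv) negIn f c
      (fun j p y => outp (C j) (fl (Function.update z i y)) p.1 p.2)
      (fun j a => Phi (C j) (fl (Function.update z i (posG hv a))) =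
        Phi (C j) (fl (Function.update z i fun _ => true)))
      (fun j y => A j (fl (Function.update z i y))) θ
      (fun d y => f₁ (fun i => i.elim0, d) y) (fun d y => c₁ (fun i => i.elim0, d) y)
      (fun d y => outp D (fl (Function.update z i y)) (fun i => i.elim0) d)
      (fun a => Phi D (fl (Function.update z i (posG hv a))) =
        Phi D (fl (Function.update z i fun _ => true)))
      hq
      (fun j => Fintype.card_pos) (by rw [hQ]; exact hkk)
      (fun j p y hy => Pool.Agent.NNDT.MonSize.monotone (hfm j p) _ _ (fun _ _ => rfl) hy)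
      (fun j a hs p => hc1 j _ hs p)
      (fun j p => hc1 j _ rfl p)
      (fun j p y hy => hcf j y p hy)
      (fun a hs d => hc1₁ _ hs _)
      (fun d y hy => hcf₁ y _ hy)
      (fun j p => hDI _ (hG j) _ (hfm j p))
      (fun j p => hDI _ (hG j) _ (hcm j p))
      (fun d => hDI _ hGD _ (hfm₁ _))
      (fun d => hDI _ hGD _ (hcm₁ _))
      (fun j y => by
        rw [card_wit]
        exact hA j _)
      (fun a => (hD _).1 ((hup2 a).all hkv))
      (fun χ => by
        by_contra h5
        rw [Bool.not_eq_false] at h5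
        have h6 := (hD _).2 h5 i
        have h7 : (fun e => fl (Function.update z i (negIn χ)) (i, e)) = negIn χ := by
          funext e
          simp [fl]
        rw [h7, clq_iff] at h6
        exact not_hasClique_negIn (by omega) χ h6)
    refine hstep.trans (Nat.mul_le_mul_left _ (card_le_card ?_))
    intro a ha
    have ha2 := (@Finset.mem_filter _ _ (_) _ _).1 ha
    rw [mem_filter]
    refine ⟨mem_univ _, ?_⟩
    have hfirst := hPhi z i (posG hv a)
    rcases ha2.2 with h0 | ⟨j, hj⟩
    · have h5 : Phi D (fl (Function.update z i fun _ => true)) <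
          Phi D (fl (Function.update z i (posG hv a))) := lt_of_le_of_ne hfirst (Ne.symm h0)
      have h6 := hPhi2 (fl (Function.update z i (posG hv a)))
      have h7 : ∑ j, pot W (θ j) (C j) (fun x => A j x = true)
            (fl (Function.update z i (posG hv a))) ≤
          ∑ j, pot W (θ j) (C j) (fun x => A j x = true)
            (fl (Function.update z i fun _ => true)) :=
        sum_le_sum fun j' _ => ((hpot j').2 _ _ (fl_le z i _)).1
      have h8 : 2 ^ D.nots - Phi D (fl (Function.update z i (posG hv a))) + 1 ≤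
          2 ^ D.nots - Phi D (fl (Function.update z i fun _ => true)) := by omega
      show 2 ^ D.nots - Phi D (fl (Function.update z i (posG hv a))) +
          ∑ j, pot W (θ j) (C j) (fun x => A j x = true)
            (fl (Function.update z i (posG hv a))) + 1 ≤
        2 ^ D.nots - Phi D (fl (Function.update z i fun _ => true)) +
          ∑ j, pot W (θ j) (C j) (fun x => A j x = true)
            (fl (Function.update z i fun _ => true))
      omega
    · have h7 : ∑ j, pot W (θ j) (C j) (fun x => A j x = true)
            (fl (Function.update z i (posG hv a))) <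
          ∑ j, pot W (θ j) (C j) (fun x => A j x = true)
            (fl (Function.update z i fun _ => true)) := by
        refine sum_lt_sum
          (fun j' _ => ((hpot j').2 _ _ (fl_le z i _)).1) ⟨j, mem_univ _, Nat.lt_of_succ_le ?_⟩
        rcases hj with hj | ⟨hj1, hj2⟩
        · exact ((hpot j).2 _ _ (fl_le z i _)).2.1 hj
        · refine ((hpot j).2 _ _ (fl_le z i _)).2.2 hj1 fun h5 => ?_
          have h6 := hj2 h5
          rw [card_wit] at h6
          exact h6
      have h8 : 2 ^ D.nots - Phi D (fl (Function.update z i (posG hv a))) ≤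
          2 ^ D.nots - Phi D (fl (Function.update z i fun _ => true)) :=
        Nat.sub_le_sub_left hfirst _
      show 2 ^ D.nots - Phi D (fl (Function.update z i (posG hv a))) +
          ∑ j, pot W (θ j) (C j) (fun x => A j x = true)
            (fl (Function.update z i (posG hv a))) + 1 ≤
        2 ^ D.nots - Phi D (fl (Function.update z i fun _ => true)) +
          ∑ j, pot W (θ j) (C j) (fun x => A j x = true)
            (fl (Function.update z i fun _ => true))
      omega

end Pool.Agent.NPQ
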