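import Pool.Agent.NPQ.Stmts
import Pool.Agent.NPP.APP
import Pool.Agent.NPP.ONE
import Pool.Agent.NPP.PLK

/-!
# DI1: the dichotomy for one graph (project NPQ, MP_153864_lc)
-/

set_option autoImplicit false

namespace Pool.Agent.NPQ

open Finset Pool.Agent.NegLim Pool.Agent.NLM Pool.Agent.NEG72 Pool.Agent.NPP

namespace DI1M

/-- the geometric sum -/
theorem geo2 (r : ℝ) (h0 : 0 ≤ r) (h1 : r ≤ 1 / 4) (n : ℕ) :
    ∑ a ∈ Finset.Ico 2 n, r ^ a ≤ 2 * r ^ 2 := by
  have h := geom_sum_Ico_le_of_lt_one (x := r) (m := 2) (n := n) h0 (by linarith)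
  refine h.trans ?_
  rw [div_le_iff₀ (by linarith)]
  nlinarith [sq_nonneg r]

open Classical in
/-- the sum over the sets of the family -/
theorem fam_sum2 {V : Type} (A : Finset (Finset V)) {l p b : ℕ} (hb : 0 < b)
    (h4 : 4 * (p * l) ≤ b) (h1 : ∀ X ∈ A, X.card ≤ l) (h2 : ∀ X ∈ A, 2 ≤ X.card)
    (hA : ∀ a, (A.filter fun X => X.card = a).card ≤ (p * l) ^ a) :
    ∑ X ∈ A, ((1 : ℝ) / (b : ℝ) ^ X.card) ≤ 2 * (((p * l : ℕ) : ℝ) / b) ^ 2 := by
  have hb' : (0 : ℝ) < b := by exact_mod_cast hb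
  have hmap : ∀ X ∈ A, X.card ∈ Finset.Ico 2 (l + 1) := fun X hX => by
    rw [Finset.mem_Ico]; exact ⟨h2 X hX, Nat.lt_succ_of_le (h1 X hX)⟩
  rw [← Finset.sum_fiberwise_of_maps_to hmap]
  have h5 : ((p * l : ℕ) : ℝ) / b ≤ 1 / 4 := by
    rw [div_le_iff₀ hb']
    have : (4 : ℝ) * ((p * l : ℕ) : ℝ) ≤ b := by exact_mod_cast h4
    linarith
  refine (Finset.sum_le_sum fun a _ => ?_).trans (geo2 _ (by positivity) h5 (l + 1))
  have e : ∑ X ∈ A.filter (fun X => X.card = a), ((1 : ℝ) / (b : ℝ) ^ X.card) =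
      ((A.filter fun X => X.card = a).card : ℝ) * (1 / (b : ℝ) ^ a) := by
    rw [Finset.sum_congr rfl (g := fun _ => (1 : ℝ) / (b : ℝ) ^ a)]
    · rw [Finset.sum_const, nsmul_eq_mul]
    · intro X hX
      rw [(mem_filter.1 hX).2]
  rw [e]
  have h3 : ((A.filter fun X => X.card = a).card : ℝ) ≤ ((p * l : ℕ) : ℝ) ^ a := by
    exact_mod_cast hA a
  rw [div_pow, mul_one_div]
  exact div_le_div_of_nonneg_right h3 (by positivity)

end DI1M

open DI1M

open Classical in
/-- DI1 -/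
theorem DI1_thm : Stmt_DI1 := by
  intro v k b h p T D hv f hh hk hp hb hD hT hD2 hf
  have hb0 : 0 < b := by
    have : 0 < p * (2 * h) := by positivity
    omega
  have hbk : (0 : ℝ) < (b : ℝ) ^ k := by
    have : (0 : ℝ) < b := by exact_mod_cast hb0
    positivity
  have hb' : (0 : ℝ) < b := by exact_mod_cast hb0
  set S := univ.filter fun τ : Fin k → Fin b => f (posG hv τ) = true with hS
  obtain ⟨A, BP, BN, a1, a2, a3, a4, a5, a6⟩ := APP_thm PLK_thm (Fin v) (Edge v) (Fin k → Fin b)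
    (k - 1) h p b (posG hv) (kset hv) negIn hh hk hp hb (by
      intro e
      refine ⟨{{e.1.1, e.1.2}}, ?_, by simp, ?_, ?_⟩
      · intro X hX
        rw [mem_singleton] at hX
        rw [hX]
        exact Finset.card_le_two.trans (by omega)
      · intro τ hτ
        simp only [posG, posIn, Bool.and_eq_true, decide_eq_true_eq] at hτ
        refine ⟨{e.1.1, e.1.2}, by simp, ?_⟩
        intro a ha
        rw [mem_insert, mem_singleton] at ha
        rcases ha with rfl | rfl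
        · exact hτ.1
        · exact hτ.2
      · rintro χ ⟨X, hX, hXχ⟩
        rw [mem_singleton] at hX
        subst hX
        simp only [negIn, decide_eq_true_eq]
        intro h
        have := hXχ (by simp : e.1.1 ∈ (({e.1.1, e.1.2} : Finset (Fin v)) : Set (Fin v)))
          (by simp : e.1.2 ∈ (({e.1.1, e.1.2} : Finset (Fin v)) : Set (Fin v))) h
        exact absurd this (ne_of_lt e.2)) (fun Y => ONEM.count hb0 hv Y) f T hf
  rw [Fintype.card_fun, Fintype.card_fin, Fintype.card_fin] at a3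
  rw [Fintype.card_fin] at a4
  by_cases hsm : ∃ X ∈ A, X.card ≤ 1
  · -- the family accepts all colourings
    left
    obtain ⟨X, hX, hX1⟩ := hsm
    have h2 : ∀ χ, χ ∉ BN → f (negIn χ) = true := fun χ hχ => a6 χ hχ ⟨X, hX, by
      intro a ha a' ha' _
      exact Finset.card_le_one.1 hX1 a (mem_coe.1 ha) a' (mem_coe.1 ha')⟩
    have h3 : (univ : Finset (Fin v → Fin (k - 1))).filter (fun χ => f (negIn χ) = false) ⊆
        BN := by
      intro χ hχ
      by_contra hn
      have h4 := h2 χ hn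
      rw [(mem_filter.1 hχ).2] at h4
      exact absurd h4 (by decide)
    calc 2 ^ p * ((univ : Finset (Fin v → Fin (k - 1))).filter
          (fun χ => f (negIn χ) = false)).card ≤ 2 ^ p * BN.card :=
          Nat.mul_le_mul_left _ (Finset.card_le_card h3)
      _ = BN.card * 2 ^ p := Nat.mul_comm _ _
      _ ≤ _ := a4
  · -- few positive tests are accepted
    right
    push Not at hsm
    have h2 : S ⊆ BP ∪ A.biUnion fun X => univ.filter fun τ => X ⊆ kset hv τ := by
      intro τ hτ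
      by_cases hB : τ ∈ BP
      · exact mem_union_left _ hB
      · obtain ⟨X, hX, hXK⟩ := a5 τ hB (mem_filter.1 hτ).2
        exact mem_union_right _ (mem_biUnion.2 ⟨X, hX, mem_filter.2 ⟨mem_univ _, hXK⟩⟩)
    have h3 : (S.card : ℝ) ≤ BP.card + ∑ X ∈ A,
        ((univ.filter fun τ : Fin k → Fin b => X ⊆ kset hv τ).card : ℝ) := by
      have h4 : S.card ≤ BP.card + ∑ X ∈ A,
          (univ.filter fun τ : Fin k → Fin b => X ⊆ kset hv τ).card :=
        (Finset.card_le_card h2).trans ((Finset.card_union_le _ _).trans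
          (Nat.add_le_add_left Finset.card_biUnion_le _))
      exact_mod_cast h4
    have h4 : 2 * ((D : ℝ) * (BP.card : ℝ)) ≤ (b : ℝ) ^ k := by
      have h5 : (2 * (D * BP.card)) * 2 ^ (2 * h) ≤ b ^ k * 2 ^ (2 * h) := by
        calc (2 * (D * BP.card)) * 2 ^ (2 * h) = 2 * D * (BP.card * 2 ^ (2 * h)) := by ring
          _ ≤ 2 * D * (T * b ^ k) := Nat.mul_le_mul_left _ a3
          _ = 2 * D * T * b ^ k := by ring
          _ ≤ 2 ^ (2 * h) * b ^ k := Nat.mul_le_mul_right _ hT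
          _ = b ^ k * 2 ^ (2 * h) := by ring
      have h6 : 2 * (D * BP.card) ≤ b ^ k := Nat.le_of_mul_le_mul_right h5 (by positivity)
      exact_mod_cast h6
    have h5 : ∑ X ∈ A, ((univ.filter fun τ : Fin k → Fin b => X ⊆ kset hv τ).card : ℝ) ≤
        2 * (((p * (2 * h) : ℕ) : ℝ) / b) ^ 2 * (b : ℝ) ^ k := by
      have h6 : ∀ X ∈ A, ((univ.filter fun τ : Fin k → Fin b => X ⊆ kset hv τ).card : ℝ) ≤
          (1 / (b : ℝ) ^ X.card) * (b : ℝ) ^ k := by
        intro X _
        have h7 := ONEM.count hb0 hv X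
        rw [Fintype.card_fun, Fintype.card_fin, Fintype.card_fin] at h7
        have h8 : ((univ.filter fun τ : Fin k → Fin b => X ⊆ kset hv τ).card : ℝ) *
            (b : ℝ) ^ X.card ≤ (b : ℝ) ^ k := by exact_mod_cast h7
        have h9 : (0 : ℝ) < (b : ℝ) ^ X.card := by positivity
        rw [one_div, inv_mul_eq_div, le_div_iff₀ h9]
        exact h8
      refine (Finset.sum_le_sum h6).trans ?_
      rw [← Finset.sum_mul]
      refine mul_le_mul_of_nonneg_right ?_ hbk.le
      exact fam_sum2 A hb0 hb a1 (fun X hX => hsm X hX) a2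
    have h6 : 4 * ((D : ℝ) * (((p * (2 * h) : ℕ) : ℝ) / b) ^ 2) ≤ 1 := by
      have h7 : (4 : ℝ) * D * ((p * (2 * h) : ℕ) : ℝ) ^ 2 ≤ (b : ℝ) ^ 2 := by
        have e : (2 * h * p : ℕ) = p * (2 * h) := by ring
        rw [e] at hD2
        exact_mod_cast hD2
      have e : 4 * ((D : ℝ) * (((p * (2 * h) : ℕ) : ℝ) / b) ^ 2) =
          (4 * D * ((p * (2 * h) : ℕ) : ℝ) ^ 2) / (b : ℝ) ^ 2 := by
        rw [div_pow]; ring
      rw [e, div_le_one (by positivity)]
      exact h7
    have h7 : (D : ℝ) * S.card ≤ (b : ℝ) ^ k := by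
      have h8 : (D : ℝ) * S.card ≤ D * (BP.card +
          2 * (((p * (2 * h) : ℕ) : ℝ) / b) ^ 2 * (b : ℝ) ^ k) :=
        mul_le_mul_of_nonneg_left (h3.trans (by linarith)) (by positivity)
      have h9 : (D : ℝ) * (2 * (((p * (2 * h) : ℕ) : ℝ) / b) ^ 2 * (b : ℝ) ^ k) ≤
          1 / 2 * (b : ℝ) ^ k := by
        have : (D : ℝ) * (2 * (((p * (2 * h) : ℕ) : ℝ) / b) ^ 2 * (b : ℝ) ^ k) =
            (1 / 2 * (4 * ((D : ℝ) * (((p * (2 * h) : ℕ) : ℝ) / b) ^ 2))) * (b : ℝ) ^ k := by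
          ring
        rw [this]
        refine mul_le_mul_of_nonneg_right ?_ hbk.le
        linarith
      linarith
    exact_mod_cast h7

end Pool.Agent.NPQ
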