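import Pool.Agent.NPQ.Stm2
import Pool.Agent.NPP.TRF2

/-!
# GUE: guessed outputs of the NOT gates for a general substitution
-/

set_option autoImplicit false

namespace Pool.Agent.NPQ

open Finset Pool.Agent.NegLim Pool.Agent.NLM Pool.Agent.NEG72 Pool.Agent.NPP

namespace GUEM

variable {E V : Type} {s t : ℕ}

/-- the check -/
noncomputable def cc (C : NCirc E s t) (R : E → Bool) (σ : (V → Bool) → E → Bool)
    (p : (Fin s → Bool) × (Fin t → Bool)) (x : V → Bool) : Bool :=
  chkA (guess C R p.1) C.gates (σ x) p.1 p.2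

/-- the circuit with guessed outputs of the NOT gates, and the check -/
noncomputable def ff (C : NCirc E s t) (R : E → Bool) (σ : (V → Bool) → E → Bool)
    (p : (Fin s → Bool) × (Fin t → Bool)) (x : V → Bool) : Bool :=
  chkA (guess C R p.1) C.gates (σ x) p.1 p.2 &&
    C.out.val (σ x) p.1 p.2 (gvals (guess C R p.1) C.gates (σ x) p.1 p.2)

theorem monSize_cc (C : NCirc E s t) (R : E → Bool) {σ : (V → Bool) → E → Bool} (hσ : IsProj σ)
    (p : (Fin s → Bool) × (Fin t → Bool)) : MonSize (cc C R σ p) (C.gates.length + 1) := by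
  obtain ⟨u, w⟩ := p
  obtain ⟨L, h1, h2, h3, h4⟩ := prog hσ (guess C R u) C.gates u w false
  exact ⟨L, h1, h2.trans (Nat.le_succ _), h4⟩

theorem monSize_ff (C : NCirc E s t) (R : E → Bool) {σ : (V → Bool) → E → Bool} (hσ : IsProj σ)
    (p : (Fin s → Bool) × (Fin t → Bool)) : MonSize (ff C R σ p) (C.gates.length + 1) := by
  obtain ⟨u, w⟩ := p
  obtain ⟨L, h1, h2, h3, h4⟩ := prog hσ (guess C R u) C.gates u w false
  have h6 : Avail L fun y => C.out.val (σ y) u w
      (gvals (guess C R u) C.gates (σ y) u w) := by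
    cases C.out with
    | inp e => exact (hσ e).mono (by simp)
    | wit φ => exact Avail.const _ _
    | gate n => exact h3 n
  exact ⟨_, Mon.and h1 h4 h6, by simpa using h2, Avail.head _ _⟩

end GUEM

open GUEM in
theorem GUE_thm : Stmt_GUE := by
  intro E V s t C hN σ hσ R hle
  have hgoodR : ∀ u w, Good (guess C R u) C.gates R u w :=
    good_guess C hN fun _ => rfl
  refine ⟨ff C R σ, cc C R σ, monSize_ff C R hσ, monSize_cc C R hσ, ?_, ?_⟩
  · rintro x hx ⟨u, w⟩
    have hgood : Good (guess C R u) C.gates (σ x) u w := by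
      refine good_guess C hN ?_ u w
      intro u'
      exact num_eq_of_Phi C (hle x) hx.le u'
    exact chkA_of_good hgood
  · rintro x ⟨u, w⟩ hc
    have hc' : chkA (guess C R u) C.gates (σ x) u w = true := hc
    show (chkA (guess C R u) C.gates (σ x) u w &&
      C.out.val (σ x) u w (gvals (guess C R u) C.gates (σ x) u w)) = _
    rw [hc', keyA (hle x) (hgoodR u w) hc']
    rfl

end Pool.Agent.NPQ
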