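import Pool.Agent.NPQ.Stmts

/-!
# The levels of the answers
-/

set_option autoImplicit false

namespace Pool.Agent.NPQ

namespace LEVM

theorem mul_le {W : ℕ} {a b : ℝ} (h : a ≤ b) : a * 2 ^ W ≤ b * 2 ^ W :=
  mul_le_mul_of_nonneg_right h (by positivity)

end LEVM

/-- Module LEV. -/
theorem LEV_thm : Stmt_LEV := by
  refine ⟨?_, ?_, ?_⟩
  · intro W θ x A hθ hx
    unfold lev
    split_ifs with hA
    · have h1 : (x - θ) * 2 ^ W ≤ 2 ^ W + 1 := by
        have h2 : x - θ ≤ 1 + 1 / 2 ^ W := by linarith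
        refine (LEVM.mul_le h2).trans (le_of_eq ?_)
        have h3 : (2 : ℝ) ^ W ≠ 0 := by positivity
        field_simp
      have h4 : ⌊(x - θ) * 2 ^ W⌋₊ ≤ 2 ^ W + 1 := by
        refine Nat.floor_le_of_le ?_
        push_cast
        exact h1
      have h5 : ⌊(x - θ) * 2 ^ W⌋₊ < 2 ^ (W + 2) := by
        have h6 : 1 ≤ 2 ^ W := Nat.one_le_two_pow
        have h7 : 2 ^ (W + 2) = 4 * 2 ^ W := by ring
        omega
      have h8 : Nat.log 2 ⌊(x - θ) * 2 ^ W⌋₊ < W + 2 :=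
        Nat.log_lt_of_lt_pow' (by omega) h5
      omega
    · omega
  · intro W θ x x' A A' hx hA
    unfold lev
    by_cases h : A
    · rw [if_pos h, if_pos (hA h)]
      have h1 : ⌊(x - θ) * 2 ^ W⌋₊ ≤ ⌊(x' - θ) * 2 ^ W⌋₊ :=
        Nat.floor_le_floor (LEVM.mul_le (by linarith))
      have h2 := Nat.log_mono_right (b := 2) h1
      omega
    · rw [if_neg h]
      exact Nat.zero_le _
  · intro W θ x x' A A' hA' h1 h2
    unfold lev
    rw [if_pos hA']
    by_cases h : A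
    · rw [if_pos h]
      have h3 : (1 : ℝ) ≤ (x - θ) * 2 ^ W := by
        have h4 : 1 / 2 ^ W ≤ x - θ := by linarith [h1 h]
        refine le_trans (le_of_eq ?_) (LEVM.mul_le h4)
        have h5 : (2 : ℝ) ^ W ≠ 0 := by positivity
        field_simp
      have h6 : 1 ≤ ⌊(x - θ) * 2 ^ W⌋₊ := Nat.le_floor (by exact_mod_cast h3)
      have h7 : ⌊(x - θ) * 2 ^ W⌋₊ * 2 ≤ ⌊(x' - θ) * 2 ^ W⌋₊ := by
        refine Nat.le_floor ?_
        push_cast
        have h8 : (⌊(x - θ) * 2 ^ W⌋₊ : ℝ) ≤ (x - θ) * 2 ^ W := Nat.floor_le (by linarith)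
        have h9 := LEVM.mul_le (W := W) (h2 h)
        linarith
      have h10 := Nat.log_mono_right (b := 2) h7
      rw [Nat.log_mul_base (by omega) (by omega)] at h10
      omega
    · rw [if_neg h]
      omega

end Pool.Agent.NPQ
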