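import Pool.Agent.NPQ.Stm2
import Pool.Agent.NPP.TRF2

/-!
# The potential of a circuit
-/

set_option autoImplicit false

namespace Pool.Agent.NPQ

open Finset Pool.Agent.NegLim Pool.Agent.NLM Pool.Agent.NEG72 Pool.Agent.NPP

namespace PTRM

variable {E : Type} {s t : ℕ}

theorem acc_le (C : NCirc E s t) (x : E → Bool) : (acc C x : ℝ) / 2 ^ (s + t) ≤ 1 := by
  have h1 : acc C x ≤ 2 ^ (s + t) := by
    unfold acc
    refine (Finset.card_le_univ _).trans (le_of_eq ?_)
    rw [Fintype.card_prod, Fintype.card_fun, Fintype.card_fun, Fintype.card_bool,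
      Fintype.card_fin, Fintype.card_fin, pow_add]
  have h2 : (acc C x : ℝ) ≤ 2 ^ (s + t) := by exact_mod_cast h1
  rw [div_le_one (by positivity)]
  exact h2

theorem outp_mono (C : NCirc E s t) (hN : C.NotsFree) {x x' : E → Bool}
    (hx : ∀ e, x e = true → x' e = true) (h : Phi C x = Phi C x') (u : Fin s → Bool)
    (w : Fin t → Bool) (ho : outp C x u w = true) : outp C x' u w = true := by
  have hg' : Good (guess C x' u) C.gates x' u w := good_guess C hN (fun _ => rfl) u w
  have hg : Good (guess C x' u) C.gates x u w :=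
    good_guess C hN (fun u => num_eq_of_Phi C hx h.le u) u w
  have h2 : outp C x u w =
      C.out.val x u w (gvals (guess C x' u) C.gates x u w) := by
    rw [hg.gvals]
    rfl
  have h3 : outp C x' u w =
      C.out.val x' u w (gvals (guess C x' u) C.gates x' u w) := by
    rw [hg'.gvals]
    rfl
  rw [h3]
  rw [h2] at ho
  exact Wire.val_mono hx (gvals_mono _ C.gates u w hx) C.out ho

theorem acc_mono (C : NCirc E s t) (hN : C.NotsFree) {x x' : E → Bool}
    (hx : ∀ e, x e = true → x' e = true) (h : Phi C x = Phi C x') : acc C x ≤ acc C x' := by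
  unfold acc
  refine Finset.card_le_card fun p hp => ?_
  rw [Finset.mem_filter] at hp ⊢
  exact ⟨hp.1, outp_mono C hN hx h p.1 p.2 hp.2⟩

end PTRM

open PTRM in
/-- Module PTR. -/
theorem PTR_thm : Stmt_PTR := by
  rintro ⟨hL1, hL2, hL3⟩ E s t W θ C A hN hθ hgap
  have hT : (0 : ℝ) < 2 ^ (s + t) := by positivity
  have hW : (0 : ℝ) < 1 / 2 ^ W := by positivity
  have hlev : ∀ x, lev W θ ((acc C x : ℝ) / 2 ^ (s + t)) (A x) ≤ W + 2 := fun x =>
    hL1 W θ _ _ hθ (acc_le C x)
  refine ⟨fun x => ?_, fun x x' hx => ?_⟩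
  · unfold pot
    have h1 := hlev x
    have h2 : (W + 3) * (2 ^ s * (2 ^ C.nots - 1) - Phi C x) ≤
        (W + 3) * (2 ^ s * (2 ^ C.nots - 1)) := Nat.mul_le_mul_left _ (Nat.sub_le _ _)
    have h3 : 2 ^ s * (2 ^ C.nots - 1) + 2 ^ s = 2 ^ (s + C.nots) := by
      have h4 : 1 ≤ 2 ^ C.nots := Nat.one_le_two_pow
      rw [pow_add]
      obtain ⟨n, hn⟩ : ∃ n, 2 ^ C.nots = n + 1 := ⟨2 ^ C.nots - 1, by omega⟩
      rw [hn, Nat.add_sub_cancel, Nat.mul_add, Nat.mul_one]
    have h5 : W + 3 ≤ (W + 3) * 2 ^ s := Nat.le_mul_of_pos_right _ (by positivity)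
    have h6 : (W + 3) * 2 ^ (s + C.nots) =
        (W + 3) * (2 ^ s * (2 ^ C.nots - 1)) + (W + 3) * 2 ^ s := by
      rw [← h3, Nat.mul_add]
    omega
  · have hle : Phi C x' ≤ Phi C x := Phi_mono C hx
    have hM : Phi C x ≤ 2 ^ s * (2 ^ C.nots - 1) := Phi_le C x
    by_cases hP : Phi C x = Phi C x'
    · have hacc : acc C x ≤ acc C x' := acc_mono C hN hx hP
      have haccR : (acc C x : ℝ) ≤ acc C x' := by exact_mod_cast hacc
      have hA : A x → A x' := by
        intro h
        by_contra hn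
        have h1 := (hgap x).1 h
        have h2 := (hgap x').2 hn
        have h3 : 0 < (1 / 2 ^ W : ℝ) * 2 ^ (s + t) := mul_pos hW hT
        nlinarith
      refine ⟨?_, fun h => absurd hP h, fun hA' h2 => ?_⟩
      · unfold pot
        rw [hP]
        exact Nat.add_le_add_left (hL2 W θ _ _ _ _
          (div_le_div_of_nonneg_right haccR hT.le) hA) _
      · unfold pot
        rw [hP, Nat.add_assoc]
        refine Nat.add_le_add_left (hL3 W θ _ _ _ _ hA' (fun h => ?_) fun h => ?_) _
        · rw [le_div_iff₀ hT]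
          exact (hgap x).1 h
        · have h3 := h2 h
          have h4 : 2 * ((acc C x : ℝ) / 2 ^ (s + t) - θ) =
              2 * ((acc C x : ℝ) - θ * 2 ^ (s + t)) / 2 ^ (s + t) := by
            field_simp
          have h5 : (acc C x' : ℝ) / 2 ^ (s + t) - θ =
              ((acc C x' : ℝ) - θ * 2 ^ (s + t)) / 2 ^ (s + t) := by
            field_simp
          rw [h4, h5]
          exact div_le_div_of_nonneg_right h3 hT.le
    · have hlt : Phi C x' + 1 ≤ Phi C x := by omega
      have key : pot W θ C A x + 1 ≤ pot W θ C A x' := by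
        unfold pot
        have h1 := hlev x
        have h2 : 2 ^ s * (2 ^ C.nots - 1) - Phi C x + 1 ≤
            2 ^ s * (2 ^ C.nots - 1) - Phi C x' := by omega
        have h3 := Nat.mul_le_mul_left (W + 3) h2
        rw [Nat.mul_add, Nat.mul_one] at h3
        omega
      exact ⟨by omega, fun _ => key, fun _ _ => key⟩

end Pool.Agent.NPQ
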