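import Pool.Agent.NPQ.Stm2

set_option autoImplicit false

namespace Pool.Agent.NPQ

open Finset Pool.Agent.NegLim Pool.Agent.NLM Pool.Agent.NEG72 Pool.Agent.NPP

namespace STRM

/-- Double counting. -/
theorem dc {α β : Type} [Fintype β] (S : Finset α) (bad : α → β → Bool) (q K w e N : ℕ)
    (h : ∀ p ∈ S, 2 * q * K * ((univ : Finset β).filter fun b => bad p b = true).card + e ≤ N) :
    2 * q * w * ((univ : Finset β).filter fun b =>
        w ≤ K * (S.filter fun p => bad p b = true).card).card + e * S.card ≤ S.card * N := by
  have h1 : 2 * q * w * ((univ : Finset β).filter fun b =>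
      w ≤ K * (S.filter fun p => bad p b = true).card).card ≤
      ∑ p ∈ S, 2 * q * K * ((univ : Finset β).filter fun b => bad p b = true).card := by
    have e1 : ∑ p ∈ S, 2 * q * K * ((univ : Finset β).filter fun b => bad p b = true).card =
        ∑ b : β, 2 * q * K * (S.filter fun p => bad p b = true).card := by
      rw [← Finset.mul_sum, ← Finset.mul_sum]
      congr 1
      simp only [Finset.card_filter]
      exact Finset.sum_comm
    rw [e1]
    calc 2 * q * w * ((univ : Finset β).filter fun b =>
          w ≤ K * (S.filter fun p => bad p b = true).card).card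
        = ∑ b ∈ (univ : Finset β).filter (fun b =>
          w ≤ K * (S.filter fun p => bad p b = true).card), 2 * q * w := by
          rw [Finset.sum_const, smul_eq_mul, Nat.mul_comm]
      _ ≤ ∑ b ∈ (univ : Finset β).filter (fun b =>
          w ≤ K * (S.filter fun p => bad p b = true).card),
            2 * q * K * (S.filter fun p => bad p b = true).card := by
          refine Finset.sum_le_sum fun b hb => ?_
          have hb' := (Finset.mem_filter.1 hb).2
          calc 2 * q * w ≤ 2 * q * (K * (S.filter fun p => bad p b = true).card) :=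
                Nat.mul_le_mul_left _ hb'
            _ = 2 * q * K * (S.filter fun p => bad p b = true).card := by ring
      _ ≤ _ := Finset.sum_le_sum_of_subset (Finset.filter_subset _ _)
  have h2 : ∑ p ∈ S, (2 * q * K * ((univ : Finset β).filter fun b => bad p b = true).card + e) ≤
      ∑ _p ∈ S, N := Finset.sum_le_sum h
  rw [Finset.sum_add_distrib, Finset.sum_const, Finset.sum_const, smul_eq_mul, smul_eq_mul] at h2
  calc 2 * q * w * ((univ : Finset β).filter fun b =>
        w ≤ K * (S.filter fun p => bad p b = true).card).card + e * S.card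
      ≤ (∑ p ∈ S, 2 * q * K * ((univ : Finset β).filter fun b => bad p b = true).card) +
        e * S.card := Nat.add_le_add_right h1 _
    _ ≤ S.card * N := by rw [Nat.mul_comm e]; exact h2

/-- The union bound, strict in the first family. -/
theorem ub {β : Type} [Fintype β] (q : ℕ) (hq : 0 < q) (B1 B2 : Fin q → Finset β)
    (h1 : ∀ j, 2 * q * (B1 j).card < Fintype.card β) (h2 : ∀ j, 2 * q * (B2 j).card ≤ Fintype.card β) :
    ∃ b : β, ∀ j, b ∉ B1 j ∧ b ∉ B2 j := by
  classical
  by_contra hcon
  push Not at hcon
  have hsub : (univ : Finset β) ⊆ (univ : Finset (Fin q)).biUnion fun j => B1 j ∪ B2 j := by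
    intro b _
    obtain ⟨j, hj⟩ := hcon b
    rw [Finset.mem_biUnion]
    refine ⟨j, Finset.mem_univ _, ?_⟩
    rw [Finset.mem_union]
    by_cases hb : b ∈ B1 j
    · exact Or.inl hb
    · exact Or.inr (hj hb)
  have hc : Fintype.card β ≤ ∑ j : Fin q, ((B1 j).card + (B2 j).card) := by
    calc Fintype.card β = (univ : Finset β).card := Finset.card_univ.symm
      _ ≤ ((univ : Finset (Fin q)).biUnion fun j => B1 j ∪ B2 j).card := Finset.card_le_card hsub
      _ ≤ ∑ j : Fin q, (B1 j ∪ B2 j).card := Finset.card_biUnion_le
      _ ≤ _ := Finset.sum_le_sum fun j _ => Finset.card_union_le _ _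
  have hs : ∑ j : Fin q, (2 * q * (B1 j).card + 2 * q * (B2 j).card) <
      ∑ _j : Fin q, (Fintype.card β + Fintype.card β) := by
    have : Nonempty (Fin q) := ⟨⟨0, hq⟩⟩
    exact Finset.sum_lt_sum_of_nonempty Finset.univ_nonempty
      fun j _ => Nat.add_lt_add_of_lt_of_le (h1 j) (h2 j)
  have he : ∑ j : Fin q, (2 * q * (B1 j).card + 2 * q * (B2 j).card) =
      2 * q * ∑ j : Fin q, ((B1 j).card + (B2 j).card) := by
    rw [Finset.mul_sum]
    exact Finset.sum_congr rfl fun j _ => by ring
  rw [he, Finset.sum_const, Finset.card_univ, Fintype.card_fin, smul_eq_mul] at hs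
  have h3 : 2 * q * Fintype.card β ≤ 2 * q * ∑ j : Fin q, ((B1 j).card + (B2 j).card) :=
    Nat.mul_le_mul_left _ hc
  have h4 : q * (Fintype.card β + Fintype.card β) = 2 * q * Fintype.card β := by ring
  omega


end STRM

open Classical in
theorem STR_thm : Stmt_STR := by
  intro q W X P Q _ _ Pt _ top pos neg f c g sm A D θ hq hPt hQ hfm hcp hct hcg hf hc' hA hDp hDn
  set L := (univ : Finset P).filter fun a => ∃ j, ¬ sm j a ∨ (A j top ∧
      (A j (pos a) → 2 * ((cnt (g j) (pos a) : ℝ) - θ j * Fintype.card (Pt j)) ≤
        cnt (g j) top - θ j * Fintype.card (Pt j))) with hL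
  -- (0)
  by_cases hc : ∀ (j : Fin q) (p : Pt j),
      16 * q * 2 ^ W * ((univ : Finset Q).filter fun b => c j p (neg b) = false).card <
        Fintype.card Q
  swap
  · push Not at hc
    obtain ⟨j, p, hjp⟩ := hc
    have h12 : 12 * ((univ : Finset P).filter fun a => c j p (pos a) = true).card ≤
        Fintype.card P := by
      rcases hc' j p with h | h
      · exact absurd h (not_lt.2 hjp)
      · exact h
    have hsub : (univ : Finset P) ⊆ ((univ : Finset P).filter fun a => c j p (pos a) = true) ∪ L := by
      intro a _
      rw [Finset.mem_union]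
      by_cases ha : sm j a
      · exact Or.inl (Finset.mem_filter.2 ⟨Finset.mem_univ _, hcp j a ha p⟩)
      · exact Or.inr (Finset.mem_filter.2 ⟨Finset.mem_univ _, j, Or.inl ha⟩)
    have h3 := (Finset.card_le_card hsub).trans (Finset.card_union_le _ _)
    rw [Finset.card_univ] at h3
    omega
  -- the points of type 1
  let I : (j : Fin q) → Finset (Pt j) := fun j => (univ : Finset (Pt j)).filter fun p =>
    16 * q * 2 ^ W * ((univ : Finset Q).filter fun b => f j p (neg b) = false).card <
      Fintype.card Q
  -- (1)
  obtain ⟨b, hb⟩ : ∃ b : Q, ∀ j : Fin q,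
      8 * 2 ^ W * ((univ : Finset (Pt j)).filter fun p => c j p (neg b) = false).card <
        Fintype.card (Pt j) ∧
      8 * 2 ^ W * ((I j).filter fun p => f j p (neg b) = false).card < Fintype.card (Pt j) := by
    have h1 := fun j : Fin q => STRM.dc (univ : Finset (Pt j)) (fun p (b : Q) => !(c j p (neg b)))
      q (8 * 2 ^ W) (Fintype.card (Pt j)) 1 (Fintype.card Q) (by
        intro p _
        have h := hc j p
        simp only [Bool.not_eq_true']
        have e : 2 * q * (8 * 2 ^ W) = 16 * q * 2 ^ W := by ring
        rw [e]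
        omega)
    have h2 := fun j : Fin q => STRM.dc (I j) (fun p (b : Q) => !(f j p (neg b)))
      q (8 * 2 ^ W) (Fintype.card (Pt j)) 0 (Fintype.card Q) (by
        intro p hp
        have h := (Finset.mem_filter.1 hp).2
        simp only [Bool.not_eq_true']
        have e : 2 * q * (8 * 2 ^ W) = 16 * q * 2 ^ W := by ring
        rw [e]
        omega)
    simp only [Bool.not_eq_true'] at h1 h2
    obtain ⟨b, hb⟩ := STRM.ub q hq
      (fun j => (univ : Finset Q).filter fun b => Fintype.card (Pt j) ≤
        8 * 2 ^ W * ((univ : Finset (Pt j)).filter fun p => c j p (neg b) = false).card)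
      (fun j => (univ : Finset Q).filter fun b => Fintype.card (Pt j) ≤
        8 * 2 ^ W * ((I j).filter fun p => f j p (neg b) = false).card)
      (by
        intro j
        have h := h1 j
        rw [Finset.card_univ, one_mul] at h
        have hw := hPt j
        set y := ((univ : Finset Q).filter fun b => Fintype.card (Pt j) ≤
          8 * 2 ^ W * ((univ : Finset (Pt j)).filter fun p => c j p (neg b) = false).card).card
        have h' : Fintype.card (Pt j) * (2 * q * y + 1) ≤ Fintype.card (Pt j) * Fintype.card Q := by
          calc Fintype.card (Pt j) * (2 * q * y + 1)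
              = 2 * q * Fintype.card (Pt j) * y + Fintype.card (Pt j) := by ring
            _ ≤ _ := h
        exact Nat.le_of_mul_le_mul_left h' hw)
      (by
        intro j
        have h := h2 j
        rw [zero_mul, add_zero] at h
        have hw := hPt j
        set y := ((univ : Finset Q).filter fun b => Fintype.card (Pt j) ≤
          8 * 2 ^ W * ((I j).filter fun p => f j p (neg b) = false).card).card
        have hI : (I j).card ≤ Fintype.card (Pt j) := Finset.card_le_univ _
        have h' : Fintype.card (Pt j) * (2 * q * y) ≤ Fintype.card (Pt j) * Fintype.card Q := by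
          calc Fintype.card (Pt j) * (2 * q * y)
              = 2 * q * Fintype.card (Pt j) * y := by ring
            _ ≤ (I j).card * Fintype.card Q := h
            _ ≤ _ := Nat.mul_le_mul_right _ hI
        exact Nat.le_of_mul_le_mul_left h' hw)
    refine ⟨b, fun j => ⟨?_, ?_⟩⟩
    · have h := (hb j).1
      rw [Finset.mem_filter] at h
      by_contra hcon
      exact h ⟨Finset.mem_univ _, not_lt.1 hcon⟩
    · have h := (hb j).2
      rw [Finset.mem_filter] at h
      by_contra hcon
      exact h ⟨Finset.mem_univ _, not_lt.1 hcon⟩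
  have hw : ∀ j, (0 : ℝ) < Fintype.card (Pt j) := fun j => by exact_mod_cast hPt j
  have h2W : (0 : ℝ) < 2 ^ W := by positivity
  have hupos : ∀ j, (0 : ℝ) < (Fintype.card (Pt j) : ℝ) / 2 ^ W := fun j => div_pos (hw j) h2W
  have hθu : ∀ j, (θ j + 1 / 2 ^ W) * (Fintype.card (Pt j) : ℝ) =
      θ j * (Fintype.card (Pt j) : ℝ) + (Fintype.card (Pt j) : ℝ) / 2 ^ W := fun j => by ring
  have hb1 : ∀ j, 8 * (((univ : Finset (Pt j)).filter fun p => c j p (neg b) = false).card : ℝ) <
      (Fintype.card (Pt j) : ℝ) / 2 ^ W := by
    intro j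
    have h := (hb j).1
    have h' : (8 : ℝ) * 2 ^ W *
        (((univ : Finset (Pt j)).filter fun p => c j p (neg b) = false).card : ℝ) <
        Fintype.card (Pt j) := by
      exact_mod_cast h
    rw [lt_div_iff₀ h2W]
    linarith
  have hb2 : ∀ j, 8 * (((I j).filter fun p => f j p (neg b) = false).card : ℝ) <
      (Fintype.card (Pt j) : ℝ) / 2 ^ W := by
    intro j
    have h := (hb j).2
    have h' : (8 : ℝ) * 2 ^ W * (((I j).filter fun p => f j p (neg b) = false).card : ℝ) <
        Fintype.card (Pt j) := by
      exact_mod_cast h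
    rw [lt_div_iff₀ h2W]
    linarith
  have hgt : ∀ j, cnt (g j) top = cnt (f j) top := by
    intro j
    unfold cnt
    congr 1
    apply Finset.filter_congr
    intro p _
    rw [hcg j p top (hct j p)]
  have hgp : ∀ j a, sm j a → cnt (g j) (pos a) = cnt (f j) (pos a) := by
    intro j a hsm
    unfold cnt
    congr 1
    apply Finset.filter_congr
    intro p _
    rw [hcg j p (pos a) (hcp j a hsm p)]
  have hfmono : ∀ j x, cnt (f j) x ≤ cnt (f j) top := by
    intro j x
    apply Finset.card_le_card
    intro p hp
    rw [Finset.mem_filter] at hp ⊢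
    exact ⟨hp.1, hfm j p x hp.2⟩
  have hgf : ∀ j, cnt (g j) (neg b) ≤ cnt (f j) (neg b) +
      ((univ : Finset (Pt j)).filter fun p => c j p (neg b) = false).card := by
    intro j
    unfold cnt
    refine le_trans (Finset.card_le_card ?_) (Finset.card_union_le _ _)
    intro p hp
    rw [Finset.mem_union, Finset.mem_filter, Finset.mem_filter]
    by_cases hcc : c j p (neg b) = true
    · left
      refine ⟨Finset.mem_univ _, ?_⟩
      rw [hcg j p (neg b) hcc]
      exact (Finset.mem_filter.1 hp).2
    · right
      exact ⟨Finset.mem_univ _, by simpa using hcc⟩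
  have hfg : ∀ j, cnt (f j) (neg b) ≤ cnt (g j) (neg b) +
      ((univ : Finset (Pt j)).filter fun p => c j p (neg b) = false).card := by
    intro j
    unfold cnt
    refine le_trans (Finset.card_le_card ?_) (Finset.card_union_le _ _)
    intro p hp
    rw [Finset.mem_union, Finset.mem_filter, Finset.mem_filter]
    by_cases hcc : c j p (neg b) = true
    · left
      refine ⟨Finset.mem_univ _, ?_⟩
      rw [← hcg j p (neg b) hcc]
      exact (Finset.mem_filter.1 hp).2
    · right
      exact ⟨Finset.mem_univ _, by simpa using hcc⟩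
  -- (2)
  by_cases hcase : ∀ (j : Fin q) (a : P), sm j a → A j (pos a) → A j (neg b)
  · have hall : ∀ a, a ∈ L := by
      intro a
      rw [hL, Finset.mem_filter]
      refine ⟨Finset.mem_univ _, ?_⟩
      by_cases hsm : ∀ j, sm j a
      · obtain ⟨j, hj⟩ : ∃ j, ¬ (A j (pos a) ↔ A j (neg b)) := by
          by_contra hcon
          push Not at hcon
          have : (fun j => A j (pos a)) = fun j => A j (neg b) :=
            funext fun j => propext (hcon j)
          exact hDn b (this ▸ hDp a)
        have hAp : ¬ A j (pos a) := fun h => hj ⟨fun _ => hcase j a (hsm j) h, fun _ => h⟩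
        have hAn : A j (neg b) := by
          by_contra h
          exact hj ⟨fun h' => absurd h' hAp, fun h' => absurd h' h⟩
        refine ⟨j, Or.inr ⟨?_, fun h => absurd h hAp⟩⟩
        by_contra hAt
        have h1 := (hA j top).2 hAt
        have h2 := (hA j (neg b)).1 hAn
        rw [hθu] at h2
        have h3 : (cnt (g j) (neg b) : ℝ) ≤ cnt (f j) (neg b) +
            (((univ : Finset (Pt j)).filter fun p => c j p (neg b) = false).card : ℝ) := by
          exact_mod_cast hgf j
        have h4 : (cnt (f j) (neg b) : ℝ) ≤ cnt (f j) top := by exact_mod_cast hfmono j _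
        have h5 := hb1 j
        have h6 := hupos j
        rw [hgt] at h1
        linarith
      · push Not at hsm
        obtain ⟨j, hj⟩ := hsm
        exact ⟨j, Or.inl hj⟩
    have hLu : L = univ := Finset.eq_univ_iff_forall.2 hall
    rw [hLu, Finset.card_univ]
    omega
  -- (3)
  push Not at hcase
  obtain ⟨j, a₀, hsm₀, hAp₀, hAn⟩ := hcase
  set J : Finset (Pt j) := (univ : Finset (Pt j)).filter fun p => p ∉ I j with hJ
  set S : P → ℕ := fun a => (J.filter fun p => f j p (pos a) = true).card with hS
  set M : ℕ := (J.filter fun p => f j p top = true).card with hM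
  have hSM : ∀ a, S a ≤ M := by
    intro a
    apply Finset.card_le_card
    intro p hp
    rw [Finset.mem_filter] at hp ⊢
    exact ⟨hp.1, hfm j p _ hp.2⟩
  have hsum : 12 * ∑ a : P, S a ≤ M * Fintype.card P := by
    have e1 : ∑ a : P, S a =
        ∑ p ∈ J.filter (fun p => f j p top = true),
          ((univ : Finset P).filter fun a => f j p (pos a) = true).card := by
      have e2 : ∀ a, S a = ∑ p ∈ J.filter (fun p => f j p top = true),
          if f j p (pos a) = true then 1 else 0 := by
        intro a
        rw [← Finset.card_filter, Finset.filter_filter]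
        change (J.filter fun p => f j p (pos a) = true).card = _
        congr 1
        apply Finset.filter_congr
        intro p _
        exact ⟨fun h => ⟨hfm j p _ h, h⟩, fun h => h.2⟩
      rw [Finset.sum_congr rfl fun a _ => e2 a, Finset.sum_comm]
      exact Finset.sum_congr rfl fun p _ => (Finset.card_filter _ _).symm
    rw [e1, Finset.mul_sum]
    calc ∑ p ∈ J.filter (fun p => f j p top = true),
          12 * ((univ : Finset P).filter fun a => f j p (pos a) = true).card
        ≤ ∑ _p ∈ J.filter (fun p => f j p top = true), Fintype.card P := by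
          refine Finset.sum_le_sum fun p hp => ?_
          have hp1 : p ∈ J := (Finset.mem_filter.1 hp).1
          have hp2 : p ∉ I j := (Finset.mem_filter.1 hp1).2
          rcases hf j p with h | h
          · exact absurd (Finset.mem_filter.2 ⟨Finset.mem_univ p, h⟩) hp2
          · exact h
      _ = M * Fintype.card P := by rw [Finset.sum_const, smul_eq_mul]
  have hbad : 3 * ((univ : Finset P).filter fun a => M < 4 * S a).card ≤ Fintype.card P := by
    by_cases hM0 : M = 0
    · have he : ((univ : Finset P).filter fun a => M < 4 * S a) = ∅ := by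
        rw [Finset.filter_eq_empty_iff]
        intro a _ h
        have := hSM a
        omega
      rw [he, Finset.card_empty, mul_zero]
      exact Nat.zero_le _
    · have hMp : 0 < M := Nat.pos_of_ne_zero hM0
      set y := ((univ : Finset P).filter fun a => M < 4 * S a).card with hy
      have h1 : M * y ≤ 4 * ∑ a : P, S a := by
        calc M * y = ∑ _a ∈ (univ : Finset P).filter (fun a => M < 4 * S a), M := by
              rw [Finset.sum_const, smul_eq_mul, Nat.mul_comm]
          _ ≤ ∑ a ∈ (univ : Finset P).filter (fun a => M < 4 * S a), 4 * S a :=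
              Finset.sum_le_sum fun a ha => (Finset.mem_filter.1 ha).2.le
          _ ≤ ∑ a : P, 4 * S a := Finset.sum_le_sum_of_subset (Finset.filter_subset _ _)
          _ = _ := by rw [← Finset.mul_sum]
      have h2 : M * (3 * y) ≤ M * Fintype.card P := by
        calc M * (3 * y) = 3 * (M * y) := by ring
          _ ≤ 3 * (4 * ∑ a : P, S a) := Nat.mul_le_mul_left _ h1
          _ = 12 * ∑ a : P, S a := by ring
          _ ≤ _ := hsum
      exact Nat.le_of_mul_le_mul_left h2 hMp
  have hAn' := (hA j (neg b)).2 hAn
  have hAtop : A j top := by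
    by_contra hAt
    have h1 := (hA j top).2 hAt
    have h2 := (hA j (pos a₀)).1 hAp₀
    rw [hθu] at h2
    have h4 : (cnt (f j) (pos a₀) : ℝ) ≤ cnt (f j) top := by exact_mod_cast hfmono j _
    have h6 := hupos j
    rw [hgt] at h1
    rw [hgp j a₀ hsm₀] at h2
    linarith
  have hI : (I j).card ≤ cnt (f j) (neg b) +
      ((I j).filter fun p => f j p (neg b) = false).card := by
    unfold cnt
    refine le_trans (Finset.card_le_card ?_) (Finset.card_union_le _ _)
    intro p hp
    by_cases hff : f j p (neg b) = true
    · exact Finset.mem_union.2 (Or.inl (Finset.mem_filter.2 ⟨Finset.mem_univ _, hff⟩))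
    · exact Finset.mem_union.2 (Or.inr (Finset.mem_filter.2 ⟨hp, by simpa using hff⟩))
  have hgood : ∀ a, 4 * S a ≤ M → a ∈ L := by
    intro a ha
    rw [hL, Finset.mem_filter]
    refine ⟨Finset.mem_univ _, j, ?_⟩
    by_cases hsm : sm j a
    swap
    · exact Or.inl hsm
    refine Or.inr ⟨hAtop, fun hAp => ?_⟩
    have h2 := (hA j (pos a)).1 hAp
    rw [hθu] at h2
    have hpa : cnt (f j) (pos a) ≤ ((I j).filter fun p => f j p (pos a) = true).card + S a := by
      unfold cnt
      refine le_trans (Finset.card_le_card ?_) (Finset.card_union_le _ _)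
      intro p hp
      by_cases hpI : p ∈ I j
      · exact Finset.mem_union.2 (Or.inl (Finset.mem_filter.2 ⟨hpI, (Finset.mem_filter.1 hp).2⟩))
      · exact Finset.mem_union.2 (Or.inr (Finset.mem_filter.2
          ⟨Finset.mem_filter.2 ⟨Finset.mem_univ _, hpI⟩, (Finset.mem_filter.1 hp).2⟩))
    have hIa : ((I j).filter fun p => f j p (pos a) = true).card ≤ (I j).card :=
      Finset.card_filter_le _ _
    have htop : ((I j).filter fun p => f j p (pos a) = true).card + M ≤ cnt (f j) top := by
      unfold cnt
      rw [hM, ← Finset.card_union_of_disjoint]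
      · apply Finset.card_le_card
        intro p hp
        rcases Finset.mem_union.1 hp with hp | hp
        · exact Finset.mem_filter.2 ⟨Finset.mem_univ _, hfm j p _ (Finset.mem_filter.1 hp).2⟩
        · exact Finset.mem_filter.2 ⟨Finset.mem_univ _, (Finset.mem_filter.1 hp).2⟩
      · rw [Finset.disjoint_left]
        intro p hp hp'
        exact (Finset.mem_filter.1 (Finset.mem_filter.1 hp').1).2 (Finset.mem_filter.1 hp).1
    have r1 : ((I j).card : ℝ) ≤ cnt (f j) (neg b) +
        (((I j).filter fun p => f j p (neg b) = false).card : ℝ) := by exact_mod_cast hI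
    have r2 : (cnt (f j) (neg b) : ℝ) ≤ cnt (g j) (neg b) +
        (((univ : Finset (Pt j)).filter fun p => c j p (neg b) = false).card : ℝ) := by
      exact_mod_cast hfg j
    have r3 : (cnt (f j) (pos a) : ℝ) ≤
        (((I j).filter fun p => f j p (pos a) = true).card : ℝ) + S a := by
      exact_mod_cast hpa
    have r4 : (((I j).filter fun p => f j p (pos a) = true).card : ℝ) ≤ (I j).card := by
      exact_mod_cast hIa
    have r5 : (((I j).filter fun p => f j p (pos a) = true).card : ℝ) + M ≤ cnt (f j) top := by
      exact_mod_cast htop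
    have r6 : (4 : ℝ) * S a ≤ M := by exact_mod_cast ha
    have r7 := hb1 j
    have r8 := hb2 j
    have r9 := hupos j
    rw [hgt, hgp j a hsm]
    rw [hgp j a hsm] at h2
    linarith
  have hsub : (univ : Finset P) ⊆ L ∪ ((univ : Finset P).filter fun a => M < 4 * S a) := by
    intro a _
    rw [Finset.mem_union]
    by_cases ha : 4 * S a ≤ M
    · exact Or.inl (hgood a ha)
    · exact Or.inr (Finset.mem_filter.2 ⟨Finset.mem_univ _, not_le.1 ha⟩)
  have h3 := (Finset.card_le_card hsub).trans (Finset.card_union_le _ _)
  rw [Finset.card_univ] at h3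
  omega

end Pool.Agent.NPQ
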