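import Pool.Agent.NPQ.Stm3

/-!
# Module NMS: the parameters
-/

set_option autoImplicit false

namespace Pool.Agent.NPQ

open Finset

theorem NMS_thm : Stmt_NMS := by
  intro ε hε hε1
  have h1 : Filter.Tendsto (fun v : ℕ => (v : ℝ) ^ (ε / 40)) Filter.atTop Filter.atTop :=
    (tendsto_rpow_atTop (by positivity)).comp tendsto_natCast_atTop_atTop
  have h2 : ∀ᶠ v : ℕ in Filter.atTop, ‖Real.log (v : ℝ)‖ ≤ 1 / 2 * ‖(v : ℝ) ^ (ε / 40)‖ :=
    tendsto_natCast_atTop_atTop.eventually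
      ((isLittleO_log_rpow_atTop (by positivity : 0 < ε / 40)).bound (by norm_num : (0 : ℝ) < 1 / 2))
  have h3 := (h1.eventually_ge_atTop 100).and (h2.and (Filter.eventually_ge_atTop 2))
  obtain ⟨v₀, hv₀⟩ := Filter.eventually_atTop.1 h3
  refine ⟨v₀, fun v hv k q W G hk hq1 hqW hG => ?_⟩
  obtain ⟨hy, hlog, hv2⟩ := hv₀ v hv
  have hv0 : (0 : ℝ) < v := by
    have : (2 : ℝ) ≤ v := by exact_mod_cast hv2
    linarith
  have hv1 : (1 : ℝ) ≤ v := by
    have : (2 : ℝ) ≤ v := by exact_mod_cast hv2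
    linarith
  set y : ℝ := (v : ℝ) ^ (ε / 40) with hydef
  have hpow : ∀ j : ℕ, (v : ℝ) ^ (j * ε / 40) = y ^ j := by
    intro j
    rw [hydef, ← Real.rpow_natCast, ← Real.rpow_mul hv0.le]
    congr 1
    ring
  have e4 : (v : ℝ) ^ (ε / 10) = y ^ 4 := by
    rw [← hpow 4]; congr 1; push_cast; ring
  have e10 : (v : ℝ) ^ (ε / 4) = y ^ 10 := by
    rw [← hpow 10]; congr 1; push_cast; ring
  set P : ℝ := (v : ℝ) ^ (1 - ε) with hP
  have hP1 : 1 ≤ P := Real.one_le_rpow hv1 (by linarith)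
  have eP : ∀ j : ℕ, (v : ℝ) ^ (1 - ε + j * ε / 40) = P * y ^ j := by
    intro j
    rw [Real.rpow_add hv0, hpow j]
  have ev : (v : ℝ) = P * y ^ 40 := by
    rw [← eP 40]
    have : 1 - ε + ((40 : ℕ) : ℝ) * ε / 40 = 1 := by push_cast; ring
    rw [this, Real.rpow_one]
  have hlog2 : Real.logb 2 v ≤ y := by
    have h4 : Real.log v ≤ 1 / 2 * y := by
      have := hlog
      rw [Real.norm_of_nonneg (Real.log_nonneg hv1), Real.norm_of_nonneg (by linarith)] at this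
      exact this
    rw [Real.logb, div_le_iff₀ (Real.log_pos (by norm_num))]
    have h5 := Real.log_two_gt_d9
    nlinarith
  have hy0 : (0 : ℝ) < y := by linarith
  -- powers of y
  have hy4 : (100 : ℝ) ^ 4 ≤ y ^ 4 := pow_le_pow_left₀ (by norm_num) hy 4
  have hy5 : y ^ 5 = y ^ 4 * y := by ring
  -- k
  have hk1 : (k : ℝ) ≤ y ^ 10 := by
    rw [hk, ← e10]
    exact Nat.floor_le (by positivity)
  have hk2 : y ^ 10 < k + 1 := by
    rw [hk, ← e10]
    exact Nat.lt_floor_add_one _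
  set h : ℕ := ⌊y ^ 5 / 4⌋₊ with hh
  have hh1 : (h : ℝ) ≤ y ^ 5 / 4 := Nat.floor_le (by positivity)
  have hh2 : y ^ 5 / 4 < h + 1 := Nat.lt_floor_add_one _
  set b : ℕ := ⌊P * y ^ 30⌋₊ with hb
  have hb1 : (b : ℝ) ≤ P * y ^ 30 := Nat.floor_le (by positivity)
  have hb2 : P * y ^ 30 < b + 1 := Nat.lt_floor_add_one _
  set p : ℕ := ⌊P * y ^ 20⌋₊ with hp
  have hp1 : (p : ℝ) ≤ P * y ^ 20 := Nat.floor_le (by positivity)
  have hp2 : P * y ^ 20 < p + 1 := Nat.lt_floor_add_one _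
  have hy20 : y ^ 20 = y ^ 6 * y ^ 14 := by ring
  have hy14 : (100 : ℝ) ≤ y ^ 14 := hy.trans (le_self_pow₀ (by linarith) (by norm_num))
  have h2hp : 2 * (h : ℝ) * p ≤ v := by
    rw [ev]
    calc 2 * (h : ℝ) * p ≤ 2 * (y ^ 5 / 4) * (P * y ^ 20) := by gcongr
      _ = P * y ^ 25 * (1 / 2) := by ring
      _ ≤ P * y ^ 25 * y ^ 15 := by
        apply mul_le_mul_of_nonneg_left _ (by positivity)
        have : (1 : ℝ) ≤ y ^ 15 := one_le_pow₀ (by linarith)
        linarith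
      _ = P * y ^ 40 := by ring
  have hbig : 7 + P + (y ^ 4 + 1) + 4 * h * (y + 1) < p := by
    have h4 : 4 * (h : ℝ) * (y + 1) ≤ y ^ 5 * (y + 1) := by
      have : 4 * (h : ℝ) ≤ y ^ 5 := by linarith
      exact mul_le_mul_of_nonneg_right this (by linarith)
    have h5 : y ^ 5 * (y + 1) ≤ 2 * y ^ 6 := by
      have : y ^ 5 * (y + 1) = y ^ 6 + y ^ 5 := by ring
      have h6 : y ^ 5 ≤ y ^ 6 := pow_le_pow_right₀ (by linarith) (by norm_num)
      linarith
    have h6 : y ^ 4 ≤ y ^ 6 := pow_le_pow_right₀ (by linarith) (by norm_num)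
    have h7 : P * (y ^ 6 * 100) ≤ P * y ^ 20 := by
      rw [hy20]
      gcongr
    have h8 : y ^ 6 ≤ P * y ^ 6 := le_mul_of_one_le_left (by positivity) hP1
    have h9 : P ≤ P * y ^ 6 := le_mul_of_one_le_right (by linarith) (one_le_pow₀ (by linarith))
    have h10 : (1 : ℝ) ≤ P * y ^ 6 := hP1.trans h9
    linarith
  refine ⟨h, p, b, ?_, ?_, ?_, ?_, ?_, ?_, ?_, ?_⟩
  · have : (k : ℝ) * b ≤ v := by
      rw [ev]
      calc (k : ℝ) * b ≤ y ^ 10 * (P * y ^ 30) := by gcongr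
        _ = P * y ^ 40 := by ring
    exact_mod_cast this
  · have : (1 : ℝ) ≤ y ^ 5 / 4 := by
      rw [hy5]
      nlinarith
    exact Nat.le_floor (by exact_mod_cast this)
  · have h4 : (2 * (h : ℝ)) * (2 * h) + 2 ≤ k + 1 := by
      have h5 : 2 * (h : ℝ) ≤ y ^ 5 / 2 := by linarith
      have h6 : (2 * (h : ℝ)) * (2 * h) ≤ y ^ 5 / 2 * (y ^ 5 / 2) := by gcongr
      have h7 : y ^ 5 / 2 * (y ^ 5 / 2) = y ^ 10 / 4 := by ring
      have h8 : (100 : ℝ) ≤ y ^ 10 := hy.trans (le_self_pow₀ (by linarith) (by norm_num))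
      linarith
    have h5 : 2 * h * (2 * h) + 1 ≤ k := by
      have : ((2 * h * (2 * h) + 1 : ℕ) : ℝ) ≤ k := by
        push_cast
        linarith
      exact_mod_cast this
    have h6 : 2 * h * (2 * h - 1) ≤ 2 * h * (2 * h) := Nat.mul_le_mul_left _ (Nat.sub_le _ _)
    omega
  · have : (3 : ℝ) < p + 1 := by
      have h8 : (100 : ℝ) ≤ y ^ 20 := hy.trans (le_self_pow₀ (by linarith) (by norm_num))
      have hPy : y ^ 20 ≤ P * y ^ 20 := le_mul_of_one_le_left (by positivity) hP1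
      linarith
    have : (2 : ℝ) < p := by linarith
    have h9 : 2 < p := by exact_mod_cast this
    omega
  · have h4 : (4 * (p * (2 * h)) : ℝ) < b + 1 := by
      calc (4 * (p * (2 * h)) : ℝ) = 8 * (p * h) := by ring
        _ ≤ 8 * (P * y ^ 20 * (y ^ 5 / 4)) := by gcongr
        _ = P * y ^ 25 * 2 := by ring
        _ ≤ P * y ^ 25 * y ^ 5 := by
          apply mul_le_mul_of_nonneg_left _ (by positivity)
          have : (100 : ℝ) ≤ y ^ 5 := hy.trans (le_self_pow₀ (by linarith) (by norm_num))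
          linarith
        _ = P * y ^ 30 := by ring
        _ < b + 1 := hb2
    have h5 : 4 * (p * (2 * h)) < b + 1 := by exact_mod_cast h4
    omega
  · -- `24 (G + 1) ≤ 2 ^ (2 h)`
    have hG1 : ((G : ℝ) + 1) ≤ (2 : ℝ) ^ (y ^ 4 + 1) := by
      rw [e4] at hG
      have h4 : (1 : ℝ) ≤ (2 : ℝ) ^ (y ^ 4) := Real.one_le_rpow (by norm_num) (by positivity)
      rw [Real.rpow_add (by norm_num), Real.rpow_one]
      linarith
    have h4 : (24 : ℝ) * ((G : ℝ) + 1) ≤ (2 : ℝ) ^ (2 * h) := by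
      have h5 : (24 : ℝ) ≤ (2 : ℝ) ^ (5 : ℝ) := by
        have : (2 : ℝ) ^ (5 : ℝ) = 32 := by
          rw [show (5 : ℝ) = ((5 : ℕ) : ℝ) by norm_num, Real.rpow_natCast]
          norm_num
        rw [this]
        norm_num
      calc (24 : ℝ) * ((G : ℝ) + 1) ≤ (2 : ℝ) ^ (5 : ℝ) * (2 : ℝ) ^ (y ^ 4 + 1) := by
            apply mul_le_mul h5 hG1 (by positivity) (by positivity)
        _ = (2 : ℝ) ^ (5 + (y ^ 4 + 1)) := (Real.rpow_add (by norm_num) _ _).symm
        _ ≤ (2 : ℝ) ^ (((2 * h : ℕ)) : ℝ) := by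
            apply Real.rpow_le_rpow_of_exponent_le (by norm_num)
            push_cast
            have h6 : (100 : ℝ) * y ^ 4 ≤ y ^ 5 := by
              rw [hy5]
              nlinarith
            have h7 : (100 : ℝ) ≤ y ^ 4 := hy.trans (le_self_pow₀ (by linarith) (by norm_num))
            linarith
        _ = (2 : ℝ) ^ (2 * h) := Real.rpow_natCast _ _
    exact_mod_cast h4
  · -- `48 (2 h p) ^ 2 ≤ b ^ 2`
    have h4 : (7 * (2 * h * p) : ℝ) < b + 1 := by
      calc (7 * (2 * h * p) : ℝ) = 14 * (p * h) := by ring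
        _ ≤ 14 * (P * y ^ 20 * (y ^ 5 / 4)) := by gcongr
        _ = P * y ^ 25 * (7 / 2) := by ring
        _ ≤ P * y ^ 25 * y ^ 5 := by
          apply mul_le_mul_of_nonneg_left _ (by positivity)
          have : (100 : ℝ) ≤ y ^ 5 := hy.trans (le_self_pow₀ (by linarith) (by norm_num))
          linarith
        _ = P * y ^ 30 := by ring
        _ < b + 1 := hb2
    have h5 : 7 * (2 * h * p) < b + 1 := by exact_mod_cast h4
    have h6 : 7 * (2 * h * p) ≤ b := by omega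
    calc 48 * (2 * h * p) ^ 2 ≤ 49 * (2 * h * p) ^ 2 := Nat.mul_le_mul_right _ (by norm_num)
      _ = (7 * (2 * h * p)) ^ 2 := by ring
      _ ≤ b ^ 2 := Nat.pow_le_pow_left h6 2
  · -- the last inequality
    have hG1 : ((G : ℝ) + 1) ≤ (2 : ℝ) ^ (y ^ 4 + 1) := by
      rw [e4] at hG
      have h4 : (1 : ℝ) ≤ (2 : ℝ) ^ (y ^ 4) := Real.one_le_rpow (by norm_num) (by positivity)
      rw [Real.rpow_add (by norm_num), Real.rpow_one]
      linarith
    have h4 : 2 * h * p ≤ v := by exact_mod_cast h2hp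
    have h4' : p * (2 * h) ≤ v := by
      rw [mul_comm]
      exact h4
    have h5 : v ≤ 2 ^ Nat.clog 2 v := Nat.le_pow_clog (by norm_num) v
    have h6 : ((Nat.clog 2 v : ℕ) : ℝ) ≤ y + 1 := by
      have h7 : Nat.clog 2 v ≤ Nat.log 2 v + 1 := Nat.clog_le_of_le_pow
        (Nat.lt_pow_succ_log_self (by norm_num) v).le
      have h8 : ((Nat.log 2 v : ℕ) : ℝ) ≤ Real.logb 2 v := by
        have := Real.natLog_le_logb v 2
        exact_mod_cast this
      have h9 : ((Nat.clog 2 v : ℕ) : ℝ) ≤ ((Nat.log 2 v + 1 : ℕ) : ℝ) := by exact_mod_cast h7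
      push_cast at h9
      linarith
    have h7 : (p * (2 * h)) ^ (4 * h) ≤ 2 ^ (Nat.clog 2 v * (4 * h)) := by
      calc (p * (2 * h)) ^ (4 * h) ≤ (2 ^ Nat.clog 2 v) ^ (4 * h) :=
            Nat.pow_le_pow_left (h4'.trans h5) _
        _ = 2 ^ (Nat.clog 2 v * (4 * h)) := (pow_mul 2 _ _).symm
    have h8 : (((p * (2 * h)) ^ (4 * h) : ℕ) : ℝ) ≤
        (2 : ℝ) ^ (((Nat.clog 2 v * (4 * h) : ℕ)) : ℝ) := by
      rw [Real.rpow_natCast]
      exact_mod_cast h7
    have h9 : (128 : ℝ) = (2 : ℝ) ^ (7 : ℝ) := by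
      rw [show (7 : ℝ) = ((7 : ℕ) : ℝ) by norm_num, Real.rpow_natCast]
      norm_num
    have h10 : ((32 * q * 2 ^ W * ((G + 1) * (4 * (p * (2 * h)) ^ (4 * h))) : ℕ) : ℝ) <
        ((2 ^ p : ℕ) : ℝ) := by
      calc ((32 * q * 2 ^ W * ((G + 1) * (4 * (p * (2 * h)) ^ (4 * h))) : ℕ) : ℝ)
          = 128 * ((q : ℝ) * 2 ^ W) * ((G : ℝ) + 1) * (((p * (2 * h)) ^ (4 * h) : ℕ) : ℝ) := by
            push_cast
            ring
        _ ≤ (2 : ℝ) ^ (7 : ℝ) * (2 : ℝ) ^ P * (2 : ℝ) ^ (y ^ 4 + 1) *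
            (2 : ℝ) ^ (((Nat.clog 2 v * (4 * h) : ℕ)) : ℝ) := by
            rw [h9]
            gcongr
        _ = (2 : ℝ) ^ (7 + P + (y ^ 4 + 1) + ((Nat.clog 2 v * (4 * h) : ℕ) : ℝ)) := by
            rw [Real.rpow_add (by norm_num) (7 + P + (y ^ 4 + 1)),
              Real.rpow_add (by norm_num) (7 + P) (y ^ 4 + 1), Real.rpow_add (by norm_num) 7 P]
        _ < (2 : ℝ) ^ (p : ℝ) := by
            apply Real.rpow_lt_rpow_of_exponent_lt (by norm_num)
            push_cast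
            have h11 : ((Nat.clog 2 v : ℕ) : ℝ) * (4 * h) ≤ (y + 1) * (4 * h) :=
              mul_le_mul_of_nonneg_right h6 (by positivity)
            linarith
        _ = ((2 ^ p : ℕ) : ℝ) := by
            rw [Real.rpow_natCast]
            push_cast
            rfl
    exact_mod_cast h10

end Pool.Agent.NPQ
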