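import Pool.Agent.NPQ.MAIN3
import Pool.Agent.NPQ.DI1
import Pool.Agent.NPQ.LEV
import Pool.Agent.NPQ.CHN
import Pool.Agent.NPQ.GUE
import Pool.Agent.NPQ.PTR
import Pool.Agent.NPQ.STS
import Pool.Agent.NPQ.CMS
import Pool.Agent.NPQ.NMS

/-!
# The lower bound for nonadaptive queries: final form
-/

set_option autoImplicit false

namespace Pool.Agent.NPQ

open Finset Pool.Agent.NegLim Pool.Agent.NLM Pool.Agent.NEG72 Pool.Agent.NPP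

/-- **The lower bound.** -/
theorem lower3 (ε : ℝ) (hε : 0 < ε) (hε1 : ε ≤ 1) :
    ∃ v₀ : ℕ, ∀ v ≥ v₀, ∀ (k m q W : ℕ) (s t : Fin q → ℕ)
      (C : (j : Fin q) → NCirc (Fin m × Edge v) (s j) (t j))
      (A : Fin q → (Fin m × Edge v → Bool) → Bool) (D : NCirc (Fin m × Edge v) 0 q),
      k = ⌊(v : ℝ) ^ (ε / 4)⌋₊ → 1 ≤ q → (q : ℝ) * 2 ^ W ≤ (2 : ℝ) ^ ((v : ℝ) ^ (1 - ε)) →
      (∀ j, (C j).NotsFree) → D.NotsFree →
      2 * ((W + 3) * (∑ j, 2 ^ (s j + (C j).nots)) + 2 ^ D.nots) ≤ m →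
      (∀ j, (s j + t j ≤ W ∧ ∀ z, A j z = true ↔ Maj (C j) z) ∨
        ∃ θ : ℝ, Gap (C j) θ (1 / 2 ^ W) fun z => A j z = true) →
      (∀ z, AllClq m v k z ↔ outp D z (fun i => i.elim0) (fun j => A j z) = true) →
      (2 : ℝ) ^ ((v : ℝ) ^ (ε / 10)) ≤ D.gates.length ∨
        ∃ j, (2 : ℝ) ^ ((v : ℝ) ^ (ε / 10)) ≤ (C j).gates.length :=
  lower_of3 LEV_thm DI1_thm CHN_thm GUE_thm PTR_thm STS_thm CMS_thm NMS_thm ε hε hε1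

end Pool.Agent.NPQ
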