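import Pool.Agent.NPQ.Stm4

/-!
# Project NPQ, fourth version: the bound of the weighted sum (module WBD)
-/

set_option autoImplicit false

namespace Pool.Agent.NPQ

open Finset

namespace WBDM

/-- the sum over the rounds -/
theorem sum_rounds (q : ℕ) (hq : 0 < q) (f : ℕ → ℕ) (c : ℕ) :
    ∑ l ∈ range (c * q), f (l / q) = ∑ i ∈ range c, q * f i := by
  induction c with
  | zero => simp
  | succ c ih =>
    rw [Nat.succ_mul, sum_range_add, ih, sum_range_succ]
    congr 1
    have h : ∀ x ∈ range q, f ((c * q + x) / q) = f c := by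
      intro x hx
      rw [mem_range] at hx
      rw [Nat.add_comm, Nat.add_mul_div_right _ _ hq, Nat.div_eq_of_lt hx, Nat.zero_add]
    rw [sum_congr rfl h, sum_const, card_range, smul_eq_mul]

end WBDM

open WBDM in
/-- Module WBD. -/
theorem WBD_thm : Stmt_WBD := by
  intro n q c B R N L hq hn hN hL
  obtain ⟨x, hx⟩ : ∃ x, x = q * (B + 1) := ⟨_, rfl⟩
  have h1 : wt c q B N L ≤ ∑ l : Fin n, (x + 1) ^ (c - 1 - (l : ℕ) / q) * ((B + 1) * R) := by
    unfold wt
    refine sum_le_sum fun l _ => Nat.mul_le_mul ?_ ?_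
    · refine Nat.pow_le_pow_left ?_ _
      rw [hx]
      nlinarith
    · have h2 : (B + 1) * (N l + 1) ≤ (B + 1) * R := Nat.mul_le_mul_left _ (hN l)
      have h3 := hL l
      nlinarith
  have h2 : ∑ l : Fin n, (x + 1) ^ (c - 1 - (l : ℕ) / q) * ((B + 1) * R) ≤
      ∑ l ∈ range (c * q), (x + 1) ^ (c - 1 - l / q) * ((B + 1) * R) := by
    rw [Fin.sum_univ_eq_sum_range (fun l => (x + 1) ^ (c - 1 - l / q) * ((B + 1) * R)) n]
    exact sum_le_sum_of_subset (range_subset_range.2 hn)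
  have h3 := sum_rounds q hq (fun i => (x + 1) ^ (c - 1 - i) * ((B + 1) * R)) c
  have h4 : ∑ i ∈ range c, q * ((x + 1) ^ (c - 1 - i) * ((B + 1) * R)) =
      (∑ i ∈ range c, (x + 1) ^ i) * x * R := by
    rw [← sum_range_reflect (fun i => (x + 1) ^ i) c, sum_mul, sum_mul]
    refine sum_congr rfl fun i _ => ?_
    rw [hx]
    ring
  have h5 := geom_sum_mul_add x c
  have h6 : (1 + q * (B + 1)) ^ c * R = (∑ i ∈ range c, (x + 1) ^ i) * x * R + R := by
    rw [← hx, Nat.add_comm 1 x, ← h5]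
    ring
  rw [h6]
  have h7 := h1.trans (h2.trans (h3.trans h4).le)
  omega

end Pool.Agent.NPQ
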