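import Pool.Agent.NPQ.Stm4

/-!
# Project NPQ, module WGT: lexicographic weights
-/

set_option autoImplicit false

namespace Pool.Agent.NPQ

open Finset

namespace WGTM

theorem sum_rounds (q : ℕ) (hq : 0 < q) (f : ℕ → ℕ) (c : ℕ) :
    ∑ l ∈ range (c * q), f (l / q) = ∑ i ∈ range c, q * f i := by
  induction c with
  | zero => simp
  | succ c ih =>
    rw [Nat.succ_mul, Finset.sum_range_add, ih, Finset.sum_range_succ]
    have h : ∑ x ∈ range q, f ((c * q + x) / q) = ∑ _x ∈ range q, f c := by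
      refine Finset.sum_congr rfl ?_
      intro x hx
      have hx' : x < q := Finset.mem_range.1 hx
      have e : (c * q + x) / q = c := by
        rw [Nat.add_comm, Nat.add_mul_div_right _ _ hq, Nat.div_eq_of_lt hx', Nat.zero_add]
      rw [e]
    rw [h, Finset.sum_const, Finset.card_range, smul_eq_mul]

theorem sum_fin_le (n q c : ℕ) (hq : 0 < q) (h : n ≤ c * q) (f : ℕ → ℕ) :
    ∑ l : Fin n, f ((l : ℕ) / q) ≤ ∑ i ∈ range c, q * f i := by
  rw [← sum_rounds q hq f c, Fin.sum_univ_eq_sum_range (fun l => f (l / q)) n]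
  refine Finset.sum_le_sum_of_subset ?_
  intro x hx
  exact Finset.mem_range.2 (lt_of_lt_of_le (Finset.mem_range.1 hx) h)

theorem geo (q B i₀ c : ℕ) (h : i₀ + 1 ≤ c) :
    (∑ i ∈ range c, q * (if i₀ < i then B * (1 + q * B) ^ (c - 1 - i) else 0)) + 1 =
      (1 + q * B) ^ (c - 1 - i₀) := by
  induction c, h using Nat.le_induction with
  | base =>
    have h0 : ∀ i ∈ range (i₀ + 1),
        q * (if i₀ < i then B * (1 + q * B) ^ (i₀ + 1 - 1 - i) else 0) = 0 := by
      intro i hi
      have hi' : i < i₀ + 1 := Finset.mem_range.1 hi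
      rw [if_neg (by omega), Nat.mul_zero]
    rw [Finset.sum_eq_zero h0]
    have e : i₀ + 1 - 1 - i₀ = 0 := by omega
    rw [e, pow_zero, Nat.zero_add]
  | succ c hc ih =>
    rw [Finset.sum_range_succ]
    have h1 : ∑ i ∈ range c, q * (if i₀ < i then B * (1 + q * B) ^ (c + 1 - 1 - i) else 0) =
        (1 + q * B) *
          ∑ i ∈ range c, q * (if i₀ < i then B * (1 + q * B) ^ (c - 1 - i) else 0) := by
      rw [Finset.mul_sum]
      refine Finset.sum_congr rfl ?_
      intro i hi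
      have hi' : i < c := Finset.mem_range.1 hi
      by_cases h2 : i₀ < i
      · have e : c + 1 - 1 - i = (c - 1 - i) + 1 := by omega
        rw [if_pos h2, if_pos h2, e, pow_succ]
        ring
      · rw [if_neg h2, if_neg h2]
        simp
    have e1 : c + 1 - 1 - c = 0 := by omega
    have e2 : c + 1 - 1 - i₀ = (c - 1 - i₀) + 1 := by omega
    rw [h1, if_pos (by omega : i₀ < c), e1, e2, pow_zero, pow_succ, ← ih]
    ring

theorem tail_le (n q c B i₀ : ℕ) (hq : 0 < q) (h : n ≤ c * q) (hi : i₀ + 1 ≤ c) :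
    (∑ l : Fin n, (if i₀ < (l : ℕ) / q then B * (1 + q * B) ^ (c - 1 - (l : ℕ) / q) else 0)) + 1 ≤
      (1 + q * B) ^ (c - 1 - i₀) := by
  rw [← geo q B i₀ c hi]
  exact Nat.add_le_add_right
    (sum_fin_le n q c hq h (fun i => if i₀ < i then B * (1 + q * B) ^ (c - 1 - i) else 0)) 1

/-- the answers of the earlier rounds are equal -/
theorem early (n q : ℕ) (N N' L L' : Fin n → ℕ) (a a' : Fin n → Bool) (hq : 0 < q)
    (h : ∀ l, N l = N' l → hist q l a = hist q l a' → L l ≤ L' l ∧ (L l = L' l → a l = a' l))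
    (i₀ : ℕ) (h0 : ∀ l : Fin n, (l : ℕ) / q < i₀ → N l = N' l ∧ L l = L' l) :
    ∀ k : ℕ, ∀ l : Fin n, (l : ℕ) = k → (l : ℕ) / q < i₀ → a l = a' l := by
  intro k
  induction k using Nat.strong_induction_on with
  | _ k ih =>
    intro l hl hl0
    obtain ⟨e1, e2⟩ := h0 l hl0
    have hh : hist q l a = hist q l a' := by
      funext i
      unfold hist
      by_cases hi : (i : ℕ) < (l : ℕ) / q * q
      · rw [if_pos hi, if_pos hi]
        have h1 : (l : ℕ) / q * q ≤ (l : ℕ) := Nat.div_mul_le_self _ _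
        have h2 : (i : ℕ) / q < (l : ℕ) / q := (Nat.div_lt_iff_lt_mul hq).2 hi
        exact ih (i : ℕ) (by omega) i rfl (by omega)
      · rw [if_neg hi, if_neg hi]
    exact (h l e1 hh).2 e2

theorem hist_eq (n q : ℕ) (a a' : Fin n → Bool) (hq : 0 < q) (i₀ : ℕ)
    (h0 : ∀ l : Fin n, (l : ℕ) / q < i₀ → a l = a' l) (l : Fin n) (hl : (l : ℕ) / q ≤ i₀) :
    hist q l a = hist q l a' := by
  funext i
  unfold hist
  by_cases hi : (i : ℕ) < (l : ℕ) / q * q
  · rw [if_pos hi, if_pos hi]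
    have h2 : (i : ℕ) / q < (l : ℕ) / q := (Nat.div_lt_iff_lt_mul hq).2 hi
    exact h0 i (by omega)
  · rw [if_neg hi, if_neg hi]

/-- the strict increase -/
theorem strict (n q c B : ℕ) (N N' L L' : Fin n → ℕ) (a a' : Fin n → Bool) (hq : 0 < q)
    (hn : n ≤ c * q) (hL : ∀ l, L l ≤ B) (hN : ∀ l, N l ≤ N' l)
    (h : ∀ l, N l = N' l → hist q l a = hist q l a' → L l ≤ L' l ∧ (L l = L' l → a l = a' l))
    (hex : ∃ l, N l ≠ N' l ∨ L l ≠ L' l) :
    wt c q B N L + 1 ≤ wt c q B N' L' := by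
  classical
  have hex2 : ∃ i : ℕ, ∃ l : Fin n, (l : ℕ) / q = i ∧ (N l ≠ N' l ∨ L l ≠ L' l) := by
    obtain ⟨l, hl⟩ := hex
    exact ⟨(l : ℕ) / q, l, rfl, hl⟩
  obtain ⟨l₀, hl₀, hd⟩ := Nat.find_spec hex2
  have hmin : ∀ l : Fin n, (l : ℕ) / q < Nat.find hex2 → N l = N' l ∧ L l = L' l := by
    intro l hl
    have h1 := Nat.find_min hex2 hl
    by_contra hcon
    apply h1
    refine ⟨l, rfl, ?_⟩
    by_cases hNl : N l = N' l
    · right
      intro hLl
      exact hcon ⟨hNl, hLl⟩
    · left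
      exact hNl
  generalize Nat.find hex2 = i₀ at hl₀ hmin
  have hea : ∀ l : Fin n, (l : ℕ) / q < i₀ → a l = a' l := fun l hl =>
    early n q N N' L L' a a' hq h i₀ hmin (l : ℕ) l rfl hl
  have hi₀ : i₀ + 1 ≤ c := by
    rw [← hl₀]
    have h1 : (l₀ : ℕ) < c * q := lt_of_lt_of_le l₀.2 hn
    exact (Nat.div_lt_iff_lt_mul hq).2 h1
  have htail := tail_le n q c B i₀ hq hn hi₀
  -- the comparison of the terms
  have hterm : ∀ l : Fin n,
      (1 + q * B) ^ (c - 1 - (l : ℕ) / q) * ((B + 1) * N l + L l) +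
        (if l = l₀ then (1 + q * B) ^ (c - 1 - i₀) else 0) ≤
      (1 + q * B) ^ (c - 1 - (l : ℕ) / q) * ((B + 1) * N' l + L' l) +
        (if i₀ < (l : ℕ) / q then B * (1 + q * B) ^ (c - 1 - (l : ℕ) / q) else 0) := by
    intro l
    by_cases hlt : i₀ < (l : ℕ) / q
    · have hne : l ≠ l₀ := by
        intro e
        rw [e, hl₀] at hlt
        exact lt_irrefl _ hlt
      rw [if_neg hne, if_pos hlt, Nat.add_zero, Nat.mul_comm B, ← Nat.mul_add]
      refine Nat.mul_le_mul_left _ ?_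
      have h1 : (B + 1) * N l ≤ (B + 1) * N' l := Nat.mul_le_mul_left _ (hN l)
      have h2 := hL l
      omega
    · have hle : (l : ℕ) / q ≤ i₀ := Nat.le_of_not_lt hlt
      have hh := hist_eq n q a a' hq i₀ hea l hle
      rw [if_neg hlt, Nat.add_zero]
      -- the unweighted comparison
      have hu : (B + 1) * N l + L l ≤ (B + 1) * N' l + L' l ∧
          ((N l ≠ N' l ∨ L l ≠ L' l) → (B + 1) * N l + L l + 1 ≤ (B + 1) * N' l + L' l) := by
        by_cases hNl : N l = N' l
        · have h3 := (h l hNl hh).1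
          rw [hNl]
          refine ⟨by omega, ?_⟩
          rintro (h4 | h4)
          · exact absurd rfl h4
          · omega
        · have h3 : N l + 1 ≤ N' l := by
            have := hN l
            omega
          have h4 : (B + 1) * (N l + 1) ≤ (B + 1) * N' l := Nat.mul_le_mul_left _ h3
          have h5 := hL l
          rw [Nat.mul_add, Nat.mul_one] at h4
          refine ⟨by omega, fun _ => by omega⟩
      by_cases hl : l = l₀
      · rw [if_pos hl]
        have h6 := hu.2 (by rw [hl]; exact hd)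
        have h7 := Nat.mul_le_mul_left ((1 + q * B) ^ (c - 1 - (l : ℕ) / q)) h6
        have h8 : (l : ℕ) / q = i₀ := by rw [hl]; exact hl₀
        rw [Nat.mul_add, Nat.mul_one, h8] at h7
        rw [h8]
        exact h7
      · rw [if_neg hl, Nat.add_zero]
        exact Nat.mul_le_mul_left _ hu.1
  have hsum := Finset.sum_le_sum (fun l (_ : l ∈ (univ : Finset (Fin n))) => hterm l)
  rw [Finset.sum_add_distrib, Finset.sum_add_distrib, Finset.sum_ite_eq' univ l₀,
    if_pos (Finset.mem_univ _)] at hsum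
  unfold wt
  omega

end WGTM

theorem WGT_thm : Stmt_WGT := by
  intro n q c B N N' L L' a a' hq hn hL _ hN h
  by_cases hex : ∃ l, N l ≠ N' l ∨ L l ≠ L' l
  · have h1 := WGTM.strict n q c B N N' L L' a a' hq hn hL hN h hex
    exact ⟨by omega, fun _ => h1⟩
  · have hN2 : N = N' := by
      funext l
      by_contra hcon
      exact hex ⟨l, Or.inl hcon⟩
    have hL2 : L = L' := by
      funext l
      by_contra hcon
      exact hex ⟨l, Or.inr hcon⟩
    refine ⟨by rw [hN2, hL2], ?_⟩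
    rintro ⟨l, hl | hl⟩
    · exact absurd ⟨l, Or.inl hl⟩ hex
    · exact absurd ⟨l, Or.inr hl.2⟩ hex

end Pool.Agent.NPQ
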