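import Pool.Agent.NPQ.Stm5
import Pool.Agent.NPQ.WBD

/-!
# Project NPQ, fifth version: the bound of the weighted sum (module WBV)
-/

set_option autoImplicit false

namespace Pool.Agent.NPQ

open Finset

namespace WBVM

theorem res_add (q B : ℕ) (j : ℕ) : res q B j + B = B * (q + 1) ^ j := by
  induction j with
  | zero => simp [res]
  | succ j ih =>
    have h : res q B (j + 1) = res q B j + q * (B + res q B j) := rfl
    rw [h, pow_succ, ← mul_assoc, ← ih]
    ring

theorem sum_res (q B : ℕ) (c : ℕ) :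
    ∑ j ∈ range c, q * res q B j + c * q * B = res q B c := by
  induction c with
  | zero => simp [res]
  | succ c ih =>
    have h : res q B (c + 1) = res q B c + q * (B + res q B c) := rfl
    rw [h, sum_range_succ, ← ih]
    ring

theorem bern (q c : ℕ) : c * q + 1 ≤ (q + 1) ^ c := by
  induction c with
  | zero => simp
  | succ c ih =>
    calc (c + 1) * q + 1 ≤ (c * q + 1) * (q + 1) := by nlinarith [Nat.zero_le (c * q * q)]
      _ ≤ (q + 1) ^ c * (q + 1) := Nat.mul_le_mul_right _ ih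
      _ = (q + 1) ^ (c + 1) := (pow_succ _ _).symm

theorem key (q c B : ℕ) (hc : 1 ≤ c) :
    c * q * (B + 1) + 2 * ∑ j ∈ range c, q * res q B j ≤ (B + 1) * (2 * (q + 1) ^ c - q - 2) := by
  have h1 := sum_res q B c
  have h2 := res_add q B c
  have h3 := bern q c
  have h4 : q ≤ c * q := Nat.le_mul_of_pos_left q hc
  obtain ⟨S, hS⟩ : ∃ S, S = ∑ j ∈ range c, q * res q B j := ⟨_, rfl⟩
  obtain ⟨X, hX⟩ : ∃ X, X = (q + 1) ^ c := ⟨_, rfl⟩
  obtain ⟨P, hP⟩ : ∃ P, P = c * q := ⟨_, rfl⟩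
  obtain ⟨y, hy⟩ : ∃ y, y = 2 * X - q - 2 := ⟨_, rfl⟩
  rw [← hS, ← hX, ← hP, ← hy]
  rw [← hS, ← hP] at h1
  rw [← hX] at h2
  rw [← hX, ← hP] at h3
  rw [← hP] at h4
  have hy' : y + q + 2 = 2 * X := by omega
  have h5 : q * (B + 1) ≤ P * (B + 1) := Nat.mul_le_mul_right _ h4
  have h6 : (B + 1) * y + (B + 1) * (q + 2) = (B + 1) * (2 * X) := by
    rw [← hy']
    ring
  have h7 : S + P * B + B = B * X := by rw [h1, h2]
  nlinarith

end WBVM

open WBVM in
/-- Module WBV. -/
theorem WBV_thm : Stmt_WBV := by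
  intro n q c B R N L a hq hn hN hL
  rcases Nat.eq_zero_or_pos n with h0 | h0
  · subst h0
    have : wtA c q B N L a = 0 := by
      unfold wtA
      exact Fin.sum_univ_zero _
    rw [this, Nat.zero_add]
    exact Nat.le_mul_of_pos_left R (by omega)
  have hc : 1 ≤ c := by
    rcases Nat.eq_zero_or_pos c with h | h
    · rw [h, Nat.zero_mul] at hn
      omega
    · exact h
  have h1 : wtA c q B N L a ≤
      ∑ l : Fin n, (B + 1 + 2 * res q B (c - 1 - (l : ℕ) / q)) * R := by
    unfold wtA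
    refine sum_le_sum fun l _ => ?_
    obtain ⟨u, hu⟩ : ∃ u, u = res q B (c - 1 - (l : ℕ) / q) := ⟨_, rfl⟩
    rw [← hu]
    have h2 : (B + 1 + 2 * u) * (N l + 1) ≤ (B + 1 + 2 * u) * R := Nat.mul_le_mul_left _ (hN l)
    have h3 := hL l
    have h4 : (if a l = true then u else 0) ≤ u := by
      split_ifs
      · exact le_rfl
      · exact Nat.zero_le _
    have h5 : (B + 1 + 2 * u) * (N l + 1) = (B + 1 + 2 * u) * N l + (B + 1 + 2 * u) := by ring
    omega
  have h2 : ∑ l : Fin n, (B + 1 + 2 * res q B (c - 1 - (l : ℕ) / q)) * R ≤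
      ∑ l ∈ range (c * q), (B + 1 + 2 * res q B (c - 1 - l / q)) * R := by
    rw [Fin.sum_univ_eq_sum_range (fun l => (B + 1 + 2 * res q B (c - 1 - l / q)) * R) n]
    exact sum_le_sum_of_subset (range_subset_range.2 hn)
  have h3 := WBDM.sum_rounds q hq (fun i => (B + 1 + 2 * res q B (c - 1 - i)) * R) c
  have h4 : ∑ i ∈ range c, q * ((B + 1 + 2 * res q B (c - 1 - i)) * R) =
      (c * q * (B + 1) + 2 * ∑ j ∈ range c, q * res q B j) * R := by
    rw [sum_range_reflect (fun i => q * ((B + 1 + 2 * res q B i) * R)) c]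
    have h5 : ∀ i ∈ range c, q * ((B + 1 + 2 * res q B i) * R) =
        q * (B + 1) * R + 2 * (q * res q B i) * R := fun i _ => by ring
    rw [sum_congr rfl h5, sum_add_distrib, sum_const, card_range, smul_eq_mul, ← sum_mul, ← mul_sum]
    ring
  have h5 := h1.trans (h2.trans (h3.trans h4).le)
  have h6 := Nat.mul_le_mul_right R (key q c B hc)
  have h7 : (1 + (B + 1) * (2 * (q + 1) ^ c - q - 2)) * R =
      (B + 1) * (2 * (q + 1) ^ c - q - 2) * R + R := by ring
  rw [h7]
  exact Nat.add_le_add_right (h5.trans h6) R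

end Pool.Agent.NPQ
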