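import Pool.Agent.NPQ.Stm5
import Pool.Agent.NPQ.WGT

/-!
# Project NPQ, module WGV: the better weights
-/

set_option autoImplicit false

namespace Pool.Agent.NPQ

open Finset

namespace WGVM

theorem res_sum (q B k : ℕ) : ∑ x ∈ range k, q * (B + res q B x) = res q B k := by
  induction k with
  | zero => simp [res]
  | succ k ih =>
    rw [Finset.sum_range_succ, ih]
    rfl

theorem tail (n q c B i : ℕ) (hq : 0 < q) (hn : n ≤ c * q) (hi : i + 1 ≤ c) :
    ∑ l : Fin n, (if i < (l : ℕ) / q then B + res q B (c - 1 - (l : ℕ) / q) else 0) ≤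
      res q B (c - 1 - i) := by
  refine (WGTM.sum_fin_le n q c hq hn
    (fun j => if i < j then B + res q B (c - 1 - j) else 0)).trans (le_of_eq ?_)
  obtain ⟨k, rfl⟩ : ∃ k, c = (i + 1) + k := ⟨c - (i + 1), by omega⟩
  rw [Finset.sum_range_add]
  have h1 : ∑ x ∈ range (i + 1),
      q * (if i < x then B + res q B (i + 1 + k - 1 - x) else 0) = 0 := by
    refine Finset.sum_eq_zero ?_
    intro x hx
    have hx' : x < i + 1 := Finset.mem_range.1 hx
    rw [if_neg (by omega), Nat.mul_zero]
  rw [h1, Nat.zero_add]
  have h2 : ∀ x ∈ range k,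
      q * (if i < i + 1 + x then B + res q B (i + 1 + k - 1 - (i + 1 + x)) else 0) =
        (fun y => q * (B + res q B y)) (k - 1 - x) := by
    intro x hx
    have hx' : x < k := Finset.mem_range.1 hx
    have e : i + 1 + k - 1 - (i + 1 + x) = k - 1 - x := by omega
    rw [if_pos (by omega), e]
  rw [Finset.sum_congr rfl h2, Finset.sum_range_reflect (fun y => q * (B + res q B y)) k, res_sum]
  have e : i + 1 + k - 1 - i = k := by omega
  rw [e]

/-- the term of one query -/
def tm (c q B : ℕ) {n : ℕ} (N L : Fin n → ℕ) (a : Fin n → Bool) (l : Fin n) : ℕ :=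
  (B + 1 + 2 * res q B (c - 1 - (l : ℕ) / q)) * N l + L l +
    (if a l = true then res q B (c - 1 - (l : ℕ) / q) else 0)

/-- the rounds from `i` on -/
def Tl (c q B i : ℕ) {n : ℕ} (N L : Fin n → ℕ) (a : Fin n → Bool) : ℕ :=
  ∑ l : Fin n, (if i ≤ (l : ℕ) / q then tm c q B N L a l else 0)

theorem term_le (u B x x' y y' : ℕ) (b b' : Bool) (hy : y ≤ B) (hx : x ≤ x')
    (h : x = x' → y ≤ y' ∧ (y = y' → b = b') ∧ (b = true → b' = true)) :
    (B + 1 + 2 * u) * x + y + (if b = true then u else 0) ≤
        (B + 1 + 2 * u) * x' + y' + (if b' = true then u else 0) ∧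
      ((x ≠ x' ∨ b ≠ b') → (B + 1 + 2 * u) * x + y + (if b = true then u else 0) + (1 + u) ≤
        (B + 1 + 2 * u) * x' + y' + (if b' = true then u else 0)) ∧
      (x = x' → y ≠ y' → (B + 1 + 2 * u) * x + y + (if b = true then u else 0) + 1 ≤
        (B + 1 + 2 * u) * x' + y' + (if b' = true then u else 0)) := by
  by_cases hxx : x = x'
  · obtain ⟨h1, h2, h3⟩ := h hxx
    subst hxx
    generalize (B + 1 + 2 * u) * x = p
    cases b <;> cases b'
    · refine ⟨by simp; omega, ?_, ?_⟩
      · rintro (h4 | h4)
        · exact absurd rfl h4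
        · exact absurd rfl h4
      · intro _ h5
        simp
        omega
    · have h6 : y ≠ y' := by
        intro e
        exact absurd (h2 e) (by decide)
      refine ⟨by simp; omega, fun _ => by simp; omega, fun _ _ => by simp; omega⟩
    · exact absurd (h3 rfl) (by decide)
    · refine ⟨by simp; omega, ?_, ?_⟩
      · rintro (h4 | h4)
        · exact absurd rfl h4
        · exact absurd rfl h4
      · intro _ h5
        simp
        omega
  · have h1 : x + 1 ≤ x' := by omega
    have h2 : (B + 1 + 2 * u) * (x + 1) ≤ (B + 1 + 2 * u) * x' := Nat.mul_le_mul_left _ h1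
    rw [Nat.mul_add, Nat.mul_one] at h2
    generalize (B + 1 + 2 * u) * x = p at h2 ⊢
    generalize (B + 1 + 2 * u) * x' = p' at h2 ⊢
    have h3 : (if b = true then u else 0) ≤ u := by
      split_ifs
      · exact le_rfl
      · exact Nat.zero_le _
    generalize (if b = true then u else 0) = r at h3 ⊢
    generalize (if b' = true then u else 0) = r'
    refine ⟨by omega, fun _ => by omega, fun h4 => absurd h4 hxx⟩

theorem main (n q c B : ℕ) (N N' L L' : Fin n → ℕ) (a a' : Fin n → Bool) (hq : 0 < q)
    (hn : n ≤ c * q) (hL : ∀ l, L l ≤ B) (hN : ∀ l, N l ≤ N' l)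
    (h : ∀ l, N l = N' l → hist q l a = hist q l a' →
      L l ≤ L' l ∧ (L l = L' l → a l = a' l) ∧ (a l = true → a' l = true)) :
    ∀ k i : ℕ, i + k = c → (∀ l : Fin n, (l : ℕ) / q < i → a l = a' l) →
      Tl c q B i N L a ≤ Tl c q B i N' L' a' ∧
      ((∃ l : Fin n, i ≤ (l : ℕ) / q ∧
        (N l ≠ N' l ∨ (hist q l a = hist q l a' ∧ L l ≠ L' l))) →
        Tl c q B i N L a + 1 ≤ Tl c q B i N' L' a') := by
  intro k
  induction k with
  | zero =>
    intro i hi _
    have hlt : ∀ l : Fin n, ¬ i ≤ (l : ℕ) / q := by
      intro l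
      have h1 : (l : ℕ) < c * q := lt_of_lt_of_le l.2 hn
      have h2 : (l : ℕ) / q < c := (Nat.div_lt_iff_lt_mul hq).2 h1
      omega
    have h0 : ∀ (M K : Fin n → ℕ) (d : Fin n → Bool), Tl c q B i M K d = 0 := by
      intro M K d
      unfold Tl
      refine Finset.sum_eq_zero ?_
      intro l _
      rw [if_neg (hlt l)]
    rw [h0, h0]
    refine ⟨le_rfl, ?_⟩
    rintro ⟨l, hl, _⟩
    exact absurd hl (hlt l)
  | succ k ih =>
    intro i hi hea
    have hic : i + 1 ≤ c := by omega
    -- the comparison of the terms of the round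
    have hround : ∀ l : Fin n, (l : ℕ) / q = i →
        tm c q B N L a l ≤ tm c q B N' L' a' l ∧
        ((N l ≠ N' l ∨ a l ≠ a' l) →
          tm c q B N L a l + (1 + res q B (c - 1 - i)) ≤ tm c q B N' L' a' l) ∧
        (N l = N' l → L l ≠ L' l → tm c q B N L a l + 1 ≤ tm c q B N' L' a' l) := by
      intro l hl
      have hh := WGTM.hist_eq n q a a' hq i hea l (le_of_eq hl)
      have h1 := term_le (res q B (c - 1 - i)) B (N l) (N' l) (L l) (L' l) (a l) (a' l) (hL l)
        (hN l) (fun e => h l e hh)
      unfold tm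
      rw [hl]
      exact h1
    by_cases hex : ∃ l₀ : Fin n, (l₀ : ℕ) / q = i ∧ (N l₀ ≠ N' l₀ ∨ a l₀ ≠ a' l₀)
    · obtain ⟨l₀, hl₀, hd⟩ := hex
      have htail := tail n q c B i hq hn hic
      have hterm : ∀ l : Fin n,
          (if i ≤ (l : ℕ) / q then tm c q B N L a l else 0) +
            (if l = l₀ then 1 + res q B (c - 1 - i) else 0) ≤
          (if i ≤ (l : ℕ) / q then tm c q B N' L' a' l else 0) +
            (if i < (l : ℕ) / q then B + res q B (c - 1 - (l : ℕ) / q) else 0) := by
        intro l
        by_cases hlt : i < (l : ℕ) / q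
        · have hne : l ≠ l₀ := by
            intro e
            rw [e, hl₀] at hlt
            exact lt_irrefl _ hlt
          rw [if_neg hne, if_pos hlt, if_pos hlt.le, if_pos hlt.le, Nat.add_zero]
          unfold tm
          have h1 := Nat.mul_le_mul_left (B + 1 + 2 * res q B (c - 1 - (l : ℕ) / q)) (hN l)
          have h2 := hL l
          have h3 : (if a l = true then res q B (c - 1 - (l : ℕ) / q) else 0) ≤
              res q B (c - 1 - (l : ℕ) / q) := by
            split_ifs
            · exact le_rfl
            · exact Nat.zero_le _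
          omega
        · rw [if_neg hlt, Nat.add_zero]
          by_cases hle : i ≤ (l : ℕ) / q
          · have hli : (l : ℕ) / q = i := by omega
            rw [if_pos hle, if_pos hle]
            by_cases hl : l = l₀
            · rw [if_pos hl]
              exact (hround l hli).2.1 (by rw [hl]; exact hd)
            · rw [if_neg hl, Nat.add_zero]
              exact (hround l hli).1
          · have hne : l ≠ l₀ := by
              intro e
              apply hle
              rw [e, hl₀]
            rw [if_neg hle, if_neg hle, if_neg hne]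
      have hsum := Finset.sum_le_sum (fun l (_ : l ∈ (univ : Finset (Fin n))) => hterm l)
      rw [Finset.sum_add_distrib, Finset.sum_add_distrib, Finset.sum_ite_eq' univ l₀,
        if_pos (Finset.mem_univ _)] at hsum
      have key : Tl c q B i N L a + 1 ≤ Tl c q B i N' L' a' := by
        unfold Tl
        omega
      exact ⟨by omega, fun _ => key⟩
    · have hNe : ∀ l : Fin n, (l : ℕ) / q = i → N l = N' l := by
        intro l hl
        by_contra hcon
        exact hex ⟨l, hl, Or.inl hcon⟩
      have hae : ∀ l : Fin n, (l : ℕ) / q = i → a l = a' l := by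
        intro l hl
        by_contra hcon
        exact hex ⟨l, hl, Or.inr hcon⟩
      obtain ⟨ih1, ih2⟩ := ih (i + 1) (by omega) (by
        intro l hl
        by_cases hli : (l : ℕ) / q = i
        · exact hae l hli
        · exact hea l (by omega))
      have hsplit : ∀ (M K : Fin n → ℕ) (d : Fin n → Bool), Tl c q B i M K d =
          Tl c q B (i + 1) M K d + ∑ l : Fin n, (if (l : ℕ) / q = i then tm c q B M K d l else 0) := by
        intro M K d
        unfold Tl
        rw [← Finset.sum_add_distrib]
        refine Finset.sum_congr rfl ?_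
        intro l _
        by_cases h1 : (l : ℕ) / q = i
        · rw [if_pos (by omega), if_neg (by omega), if_pos h1, Nat.zero_add]
        · by_cases h2 : i ≤ (l : ℕ) / q
          · rw [if_pos h2, if_pos (by omega), if_neg h1, Nat.add_zero]
          · rw [if_neg h2, if_neg (by omega), if_neg h1]
      rw [hsplit N L a, hsplit N' L' a']
      have hr : ∀ l : Fin n, (if (l : ℕ) / q = i then tm c q B N L a l else 0) ≤
          (if (l : ℕ) / q = i then tm c q B N' L' a' l else 0) := by
        intro l
        by_cases h1 : (l : ℕ) / q = i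
        · rw [if_pos h1, if_pos h1]
          exact (hround l h1).1
        · rw [if_neg h1, if_neg h1]
      have hR := Finset.sum_le_sum (fun l (_ : l ∈ (univ : Finset (Fin n))) => hr l)
      refine ⟨Nat.add_le_add ih1 hR, ?_⟩
      rintro ⟨l, hl, hw⟩
      by_cases hli : (l : ℕ) / q = i
      · have hLl : L l ≠ L' l := by
          rcases hw with hw | hw
          · exact absurd (hNe l hli) hw
          · exact hw.2
        have hlt : ∑ l : Fin n, (if (l : ℕ) / q = i then tm c q B N L a l else 0) <
            ∑ l : Fin n, (if (l : ℕ) / q = i then tm c q B N' L' a' l else 0) := by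
          refine Finset.sum_lt_sum (fun l _ => hr l) ⟨l, Finset.mem_univ _, ?_⟩
          rw [if_pos hli, if_pos hli]
          have h1 := (hround l hli).2.2 (hNe l hli) hLl
          omega
        omega
      · have h1 := ih2 ⟨l, by omega, hw⟩
        omega

end WGVM

theorem WGV_thm : Stmt_WGV := by
  intro n q c B N N' L L' a a' hq hn hL _ hN h
  have h1 := WGVM.main n q c B N N' L L' a a' hq hn hL hN h c 0 (by omega)
    (fun l hl => absurd hl (Nat.not_lt_zero _))
  have e : ∀ (M K : Fin n → ℕ) (d : Fin n → Bool), WGVM.Tl c q B 0 M K d = wtA c q B M K d := by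
    intro M K d
    unfold WGVM.Tl wtA WGVM.tm
    refine Finset.sum_congr rfl ?_
    intro l _
    rw [if_pos (Nat.zero_le _)]
  rw [e, e] at h1
  refine ⟨h1.1, ?_⟩
  rintro ⟨l, hl⟩
  exact h1.2 ⟨l, Nat.zero_le _, hl⟩

end Pool.Agent.NPQ
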