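import Pool.Agent.NPQ.MAIN5
import Pool.Agent.NPQ.DI1
import Pool.Agent.NPQ.LEV
import Pool.Agent.NPQ.CHN
import Pool.Agent.NPQ.GUE
import Pool.Agent.NPQ.MOH
import Pool.Agent.NPQ.WGV
import Pool.Agent.NPQ.WBV
import Pool.Agent.NPQ.STT
import Pool.Agent.NPQ.CMV
import Pool.Agent.NPQ.NMS

/-!
# The lower bound for queries in rounds: final form
-/

set_option autoImplicit false

namespace Pool.Agent.NPQ

open Finset Pool.Agent.NegLim Pool.Agent.NLM Pool.Agent.NEG72 Pool.Agent.NPP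

/-- **The lower bound.** -/
theorem lower5 (ε : ℝ) (hε : 0 < ε) (hε1 : ε ≤ 1) :
    ∃ v₀ : ℕ, ∀ v ≥ v₀, ∀ (k m n q c W : ℕ) (s t : Fin n → ℕ)
      (C : (l : Fin n) → NCirc (Fin m × Edge v) (s l) (n + t l))
      (D : NCirc (Fin m × Edge v) 0 n) (a : (Fin m × Edge v → Bool) → Fin n → Bool),
      k = ⌊(v : ℝ) ^ (ε / 4)⌋₊ → 1 ≤ n → 1 ≤ q → n ≤ c * q →
      (n : ℝ) * 2 ^ W ≤ (2 : ℝ) ^ ((v : ℝ) ^ (1 - ε)) →
      (∀ l, (C l).NotsFree) → D.NotsFree →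
      (∀ l, 2 * steps c q W * 2 ^ (s l + (C l).nots) ≤ m) →
      2 * steps c q W * 2 ^ D.nots ≤ m →
      (∀ l, Right q W (C l) l a) →
      (∀ z, AllClq m v k z ↔ outp D z (fun i => i.elim0) (a z) = true) →
      (2 : ℝ) ^ ((v : ℝ) ^ (ε / 10)) ≤ D.gates.length ∨
        ∃ l, (2 : ℝ) ^ ((v : ℝ) ^ (ε / 10)) ≤ (C l).gates.length :=
  lower_of5 LEV_thm DI1_thm CHN_thm GUE_thm MOH_thm WGV_thm WBV_thm STT_thm CMV_thm NMS_thm ε hε hε1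

end Pool.Agent.NPQ
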