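import Pool.Agent.NPQ.Stm6

/-!
# SIM: simulation by a circuit without NOT gates which knows the number of the ones
-/

set_option autoImplicit false

namespace Pool.Agent.NPQ

open Finset Pool.Agent.NegLim Pool.Agent.NLM Pool.Agent.NEG72 Pool.Agent.NPP

namespace SIMM

/-- The number of the ones as a count in the list of all bits. -/
theorem countP_ones {E : Type} [Fintype E] (x : E → Bool) :
    ((univ : Finset E).toList).countP (fun e => x e) = ones x := by
  classical
  unfold ones
  rw [Finset.card_def, Finset.filter_val, ← Multiset.countP_eq_card_filter,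
    ← Finset.coe_toList, Multiset.coe_countP]
  congr 1
  funext e
  cases x e <;> rfl

end SIMM

theorem SIM_thm : Stmt_SIM := by
  intro E _ n t φ D
  classical
  set N := Fintype.card E with hNdef
  set l : List E := (univ : Finset E).toList with hl
  have hlen : l.length = N := by rw [hl, Finset.length_toList, Finset.card_univ]
  have hmem : ∀ e, e ∈ l := fun e => by simp [hl]
  have hW : ∀ x : E → Bool, l.countP (fun e => x e) ≤ N := by
    intro x
    rw [← hlen]
    exact List.countP_le_length
  have hWe : ∀ (x : E → Bool) (e : E), l.countP (fun e => x e) =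
      (l.erase e).countP (fun e => x e) + (x e).toNat := by
    intro x e
    rw [(List.perm_cons_erase (hmem e)).countP_eq, List.countP_cons]
    cases x e <;> simp
  have hones : ∀ x : E → Bool, l.countP (fun e => x e) = ones x := fun x => SIMM.countP_ones x
  set S : Set (Fn E 0 (n + t)) :=
    {f | ∃ e ∈ l, f ∈ {f : Fn E 0 (n + t) | ∃ a, f = thr (l.erase e) a}} with hS
  have h0 : Makes (∅ : Set (Fn E 0 (n + t))) (N * (N * (2 * (N + 1)))) S := by
    have h2 := Makes.list (S := (∅ : Set (Fn E 0 (n + t)))) (K := N * (2 * (N + 1)))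
      (T := fun e => {f : Fn E 0 (n + t) | ∃ a, f = thr (l.erase e) a}) l (by
        intro e _
        have h3 : (l.erase e).length ≤ N := by
          rw [← hlen]
          exact List.length_erase_le
        exact (makes_thr_all (∅ : Set (Fn E 0 (n + t))) (l.erase e)).le
          (Nat.mul_le_mul h3 (Nat.mul_le_mul_left 2 (by omega))))
    rw [hlen] at h2
    exact h2
  set neg : E → Fn E 0 (n + t) := fun e x u w => (List.range (N + 1)).any fun c =>
    decide (φ (fun i => w (Fin.castAdd t i)) = c) && thr (l.erase e) c x u w with hneg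
  have mneg : ∀ e, Makes S ((N + 1) * 2) {neg e} := by
    intro e
    have := Makes.any (S := S) (K := 1) (F := fun c x u w =>
      decide (φ (fun i => w (Fin.castAdd t i)) = c) && thr (l.erase e) c x u w)
      (List.range (N + 1)) (by
        intro c _
        refine Makes.and (K := 0) (K' := 0) ?_ ?_
        · exact Makes.wit S fun _ w => decide (φ (fun i => w (Fin.castAdd t i)) = c)
        · apply Makes.of_mem
          intro f hf
          rw [Set.mem_singleton_iff.1 hf]
          exact ⟨e, hmem e, c, rfl⟩)
    rw [List.length_range] at this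
    exact this
  have hnegok : ∀ (x : E → Bool) (u : Fin 0 → Bool) (w : Fin (n + t) → Bool),
      φ (fun i => w (Fin.castAdd t i)) = ones x → ∀ e, neg e x u w = !(x e) := by
    intro x u w h e
    have h2 := hWe x e
    have h3 := hW x
    rw [← hones x] at h
    rw [hneg]
    simp only [thr_eq]
    rw [Bool.eq_iff_iff, List.any_eq_true]
    simp only [Bool.and_eq_true, decide_eq_true_eq, Bool.not_eq_true']
    constructor
    · rintro ⟨c, _, h4, h5⟩
      cases hx : x e with
      | false => rfl
      | true =>
        rw [hx] at h2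
        simp only [Bool.toNat_true] at h2
        omega
    · intro hx
      rw [hx] at h2
      simp only [Bool.toNat_false, add_zero] at h2
      exact ⟨_, List.mem_range.2 (by omega), rfl, by omega⟩
  set NS : Set (Fn E 0 (n + t)) := {f | ∃ e ∈ l, f ∈ ({neg e} : Set (Fn E 0 (n + t)))} with hNS
  have mNS : Makes S (N * ((N + 1) * 2)) NS := by
    have := Makes.list (S := S) (K := (N + 1) * 2)
      (T := fun e => ({neg e} : Set (Fn E 0 (n + t)))) l (fun e _ => mneg e)
    rw [hlen] at this
    exact this
  obtain ⟨P, Q, r1, r2⟩ := rail (S ∪ NS) neg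
    (fun e => Or.inr ⟨e, hmem e, rfl⟩)
    (fun x _ w => φ (fun i => w (Fin.castAdd t i)) = ones x) hnegok (up n D).gates
  obtain ⟨Pa, Qa, a1, -, a3⟩ := r2 (up n D).out
  have b2 := (mNS.trans r1).trans (a1.base (by rw [Set.union_assoc]))
  obtain ⟨M, m1, m2, m3⟩ := (h0.trans (b2.base Set.subset_union_right)) [] (by
    intro f hf
    exact absurd hf (Set.notMem_empty f))
  have hres : Av (M ++ []) Pa := m3 _ (Or.inr (Or.inr rfl))
  obtain ⟨C, c1, c2, c3, -⟩ := conv (m2 _ Prg.nil)
  obtain ⟨a, ha⟩ := conv_wire hres
  refine ⟨⟨C, a⟩, c2, ?_, fun x u d w hd => ?_⟩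
  · show C.length ≤ _
    rw [c1, List.append_nil]
    rw [length_up] at m1
    refine m1.trans ?_
    nlinarith [Nat.zero_le (N ^ 2), Nat.zero_le (N ^ 3)]
  · have hu : u = Fin.elim0 := funext fun i => i.elim0
    have hW1 : (fun i => (Fin.append d w) (Fin.castAdd t i)) = d :=
      funext fun i => Fin.append_left d w i
    have hW2 : (fun i => (Fin.append d w) (Fin.natAdd n i)) = w :=
      funext fun i => Fin.append_right d w i
    have h1 := (a3 x u (Fin.append d w) (by rw [hW1]; exact hd)).1
    have h2 : outp (up n D) x Fin.elim0 (Fin.append d w) = outp D x Fin.elim0 w := by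
      rw [outp_up, hW2]
    show a.val x u (Fin.append d w) (vals C x u (Fin.append d w)) = _
    rw [c3, ha, h1]
    have h3 : (up n D).out.val x Fin.elim0 (Fin.append d w)
        (vals (up n D).gates x Fin.elim0 (Fin.append d w)) = outp D x Fin.elim0 w := h2
    rw [h3, hu]

end Pool.Agent.NPQ
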