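import Pool.Agent.NPQ.Stm6

/-!
# Project NPQ, module SRC: digits (helper22)
-/

set_option autoImplicit false

namespace Pool.Agent.NPQ

open Finset

namespace SRCM

theorem sum_rounds2 (q : ℕ) (hq : 0 < q) (g : ℕ → ℕ → ℕ) (c : ℕ) :
    ∑ l ∈ range (c * q), g (l / q) (l % q) = ∑ i ∈ range c, ∑ j ∈ range q, g i j := by
  induction c with
  | zero => simp
  | succ c ih =>
    rw [Nat.succ_mul, Finset.sum_range_add, ih, Finset.sum_range_succ]
    congr 1
    refine Finset.sum_congr rfl ?_
    intro x hx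
    have hx' : x < q := Finset.mem_range.1 hx
    have e : (c * q + x) / q = c := by
      rw [Nat.add_comm, Nat.add_mul_div_right _ _ hq, Nat.div_eq_of_lt hx', Nat.zero_add]
    have e2 : (c * q + x) % q = x := by
      rw [Nat.add_comm, Nat.add_mul_mod_self_right, Nat.mod_eq_of_lt hx']
    rw [e, e2]

theorem inner (q d M : ℕ) (h : d ≤ q) :
    ∑ j ∈ range q, (if j < d then M else 0) = d * M := by
  obtain ⟨r, rfl⟩ : ∃ r, q = d + r := ⟨q - d, by omega⟩
  rw [Finset.sum_range_add]
  have h1 : ∑ x ∈ range d, (if x < d then M else 0) = ∑ _x ∈ range d, M :=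
    Finset.sum_congr rfl fun x hx => if_pos (Finset.mem_range.1 hx)
  have h2 : ∑ x ∈ range r, (if d + x < d then M else 0) = 0 :=
    Finset.sum_eq_zero fun x _ => if_neg (by omega)
  rw [h1, h2, Finset.sum_const, Finset.card_range, smul_eq_mul, Nat.add_zero]

/-- the value of the first `j` digits -/
theorem digits (c q S : ℕ) (hS : S < (q + 1) ^ c) (j : ℕ) (hj : j ≤ c) :
    ∑ i ∈ range j, S / (q + 1) ^ (c - 1 - i) % (q + 1) * (q + 1) ^ (c - 1 - i) =
      S / (q + 1) ^ (c - j) * (q + 1) ^ (c - j) := by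
  induction j with
  | zero =>
    rw [Nat.sub_zero, Nat.div_eq_of_lt hS]
    simp
  | succ j ih =>
    rw [Finset.sum_range_succ, ih (by omega)]
    have e1 : c - j = (c - 1 - j) + 1 := by omega
    have e2 : c - (j + 1) = c - 1 - j := by omega
    rw [e1, e2, pow_succ, ← Nat.div_div_eq_div_mul]
    have h := Nat.div_add_mod (S / (q + 1) ^ (c - 1 - j)) (q + 1)
    calc _ = ((q + 1) * (S / (q + 1) ^ (c - 1 - j) / (q + 1)) +
          S / (q + 1) ^ (c - 1 - j) % (q + 1)) * (q + 1) ^ (c - 1 - j) := by ring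
      _ = _ := by rw [h]

/-- the sum over the rounds before `j` -/
theorem partial_sum (c q S : ℕ) (hq : 0 < q) (hS : S < (q + 1) ^ c) (j : ℕ) (hj : j ≤ c) :
    ∑ l ∈ range (j * q), (if l % q < S / (q + 1) ^ (c - 1 - l / q) % (q + 1) then
      (q + 1) ^ (c - 1 - l / q) else 0) = S / (q + 1) ^ (c - j) * (q + 1) ^ (c - j) := by
  rw [sum_rounds2 q hq (fun i r => if r < S / (q + 1) ^ (c - 1 - i) % (q + 1) then
      (q + 1) ^ (c - 1 - i) else 0) j, ← digits c q S hS j hj]
  refine Finset.sum_congr rfl fun i _ => ?_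
  refine inner q _ _ ?_
  have h1 : 0 < q + 1 := Nat.succ_pos q
  have h2 := Nat.mod_lt (S / (q + 1) ^ (c - 1 - i)) h1
  exact Nat.le_of_lt_succ h2

theorem cut (n n' : ℕ) (h : n' ≤ n) (f : ℕ → ℕ) :
    ∑ i ∈ range n, (if i < n' then f i else 0) = ∑ i ∈ range n', f i := by
  obtain ⟨r, rfl⟩ : ∃ r, n = n' + r := ⟨n - n', by omega⟩
  rw [Finset.sum_range_add]
  have h2 : ∑ x ∈ range r, (if n' + x < n' then f (n' + x) else 0) = 0 :=
    Finset.sum_eq_zero fun x _ => if_neg (by omega)
  rw [h2, Nat.add_zero]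
  exact Finset.sum_congr rfl fun i hi => if_pos (Finset.mem_range.1 hi)

end SRCM

open SRCM in
theorem SRC_thm : Stmt_SRC := by
  intro c q S hq hS
  refine ⟨?_, ?_⟩
  · have h := partial_sum c q S hq hS c le_rfl
    rw [Nat.sub_self, pow_zero, Nat.div_one, Nat.mul_one] at h
    refine Eq.trans ?_ h
    rw [← Fin.sum_univ_eq_sum_range (fun l =>
      if l % q < S / (q + 1) ^ (c - 1 - l / q) % (q + 1) then
        (q + 1) ^ (c - 1 - l / q) else 0) (c * q)]
    unfold rdv
    refine Finset.sum_congr rfl fun l _ => ?_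
    unfold dig
    simp only [decide_eq_true_eq]
  · intro l
    have hl : (l : ℕ) / q < c := (Nat.div_lt_iff_lt_mul hq).2 l.2
    have hV : rdv c q (hist q l (dig c q S)) =
        S / (q + 1) ^ (c - (l : ℕ) / q) * (q + 1) ^ (c - (l : ℕ) / q) := by
      rw [← partial_sum c q S hq hS _ hl.le]
      have h1 : rdv c q (hist q l (dig c q S)) = ∑ i ∈ range (c * q),
          (if i < (l : ℕ) / q * q then (if i % q < S / (q + 1) ^ (c - 1 - i / q) % (q + 1) then
            (q + 1) ^ (c - 1 - i / q) else 0) else 0) := by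
        rw [← Fin.sum_univ_eq_sum_range (fun i =>
          (if i < (l : ℕ) / q * q then (if i % q < S / (q + 1) ^ (c - 1 - i / q) % (q + 1) then
            (q + 1) ^ (c - 1 - i / q) else 0) else 0)) (c * q)]
        unfold rdv
        refine Finset.sum_congr rfl fun i _ => ?_
        unfold hist dig
        by_cases hi : (i : ℕ) < (l : ℕ) / q * q
        · rw [if_pos hi, if_pos hi]
          simp only [decide_eq_true_eq]
        · rw [if_neg hi, if_neg hi]
          simp
      have hle : (l : ℕ) / q * q ≤ c * q := Nat.mul_le_mul_right q hl.le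
      rw [h1]
      exact cut (c * q) ((l : ℕ) / q * q) hle _
    rw [hV]
    have hM : 0 < (q + 1) ^ (c - 1 - (l : ℕ) / q) := Nat.pow_pos (Nat.succ_pos q)
    obtain ⟨M, hMe⟩ : ∃ M, M = (q + 1) ^ (c - 1 - (l : ℕ) / q) := ⟨_, rfl⟩
    have e1 : (q + 1) ^ (c - (l : ℕ) / q) = M * (q + 1) := by
      rw [hMe, ← pow_succ]
      congr 1
      omega
    have hd : dig c q S l = true ↔ (l : ℕ) % q < S / M % (q + 1) := by
      unfold dig
      rw [hMe]
      simp only [decide_eq_true_eq]
    rw [hd, e1, ← hMe]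
    rw [← hMe] at hM
    have h1 : S = S / (M * (q + 1)) * (M * (q + 1)) + S / M % (q + 1) * M + S % M := by
      have h2 := Nat.div_add_mod (S / M) (q + 1)
      have h3 := Nat.div_add_mod S M
      rw [Nat.div_div_eq_div_mul] at h2
      calc S = M * (S / M) + S % M := h3.symm
        _ = M * ((q + 1) * (S / (M * (q + 1))) + S / M % (q + 1)) + S % M := by rw [h2]
        _ = _ := by ring
    have h4 := Nat.mod_lt S hM
    generalize S / (M * (q + 1)) * (M * (q + 1)) = V at h1 ⊢
    generalize S / M % (q + 1) = d at h1 ⊢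
    generalize S % M = e at h1 h4
    generalize (l : ℕ) % q = r
    constructor
    · intro hrd
      have h5 : (r + 1) * M ≤ d * M := Nat.mul_le_mul_right M hrd
      omega
    · intro h5
      by_contra hcon
      have h6 : (d + 1) * M ≤ (r + 1) * M := Nat.mul_le_mul_right M (by omega)
      rw [Nat.succ_mul d M] at h6
      omega

end Pool.Agent.NPQ
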