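import Pool.Agent.NPQ.Stmts
import Pool.Agent.NPP.LOW2

/-!
# The lower bound for the Boolean closure
-/

set_option autoImplicit false

namespace Pool.Agent.NPQ

open Finset Pool.Agent.NegLim Pool.Agent.NLM Pool.Agent.NEG72 Pool.Agent.NPP

/-- The PP mode with few witness bits has a gap. -/
theorem gap_of_maj {E : Type} {s t W : ℕ} (C : NCirc E s t) (A : (E → Bool) → Prop)
    (hW : s + t ≤ W) (h : ∀ z, A z ↔ Maj C z) : ∃ θ : ℝ, Gap C θ (1 / 2 ^ W) A := by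
  refine ⟨_, gap_of_thr C A (2 ^ (s + t) / 2) hW fun z => ?_⟩
  rw [h z]
  show 2 ^ (s + t) / 2 < acc C z ↔ 2 ^ (s + t) < 2 * acc C z
  have h3 : 2 ^ (s + t) = 1 ∨ 2 ^ (s + t) % 2 = 0 := by
    rcases Nat.eq_zero_or_pos (s + t) with h4 | h4
    · left
      rw [h4, pow_zero]
    · right
      obtain ⟨n, hn⟩ : ∃ n, s + t = n + 1 := ⟨s + t - 1, by omega⟩
      rw [hn, pow_succ]
      omega
  omega

/-- **The lower bound**, from the modules. -/
theorem lower_of (hTRQ : Stmt_TRQ) (hBLQ : Stmt_BLQ) (hDI1 : Stmt_DI1) (hSTQ : Stmt_STQ)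
    (hLEV : Stmt_LEV) (hCHN : Stmt_CHN) (hCMQ : Stmt_CMQ) (hNMQ : Stmt_NMQ) (ε : ℝ) (hε : 0 < ε)
    (hε1 : ε ≤ 1) : ∃ v₀ : ℕ, ∀ v ≥ v₀, ∀ (k m q W : ℕ) (s t : Fin q → ℕ)
      (C : (j : Fin q) → NCirc (Fin m × Edge v) (s j) (t j))
      (A : Fin q → (Fin m × Edge v → Bool) → Prop) (D : (Fin q → Prop) → Prop),
      k = ⌊(v : ℝ) ^ (ε / 4)⌋₊ → 1 ≤ q → (q : ℝ) * ((W : ℝ) + 1) ^ 2 ≤ (v : ℝ) ^ (2 - 2 * ε) →
      (∀ j, (C j).NotsFree) → (∀ j, 2 * q ^ 2 * 2 ^ (s j + (C j).nots) * (W + 2) ≤ m) →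
      (∀ j, (s j + t j ≤ W ∧ ∀ z, A j z ↔ Maj (C j) z) ∨
        ∃ θ : ℝ, Gap (C j) θ (1 / 2 ^ W) (A j)) →
      (∀ z, AllClq m v k z ↔ D fun j => A j z) →
      ∃ j, (2 : ℝ) ^ ((v : ℝ) ^ (ε / 10)) ≤ (C j).gates.length := by
  classical
  obtain ⟨v₀, hv₀⟩ := hNMQ ε hε hε1
  refine ⟨v₀, fun v hv k m q W s t C A D hk hq hW hN hm hA hF => ?_⟩
  by_contra hcon
  push Not at hcon
  have hne : (univ : Finset (Fin q)).Nonempty := ⟨⟨0, hq⟩, mem_univ _⟩
  obtain ⟨j₀, -, hj₀⟩ := Finset.exists_max_image univ (fun j => (C j).gates.length) hne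
  obtain ⟨h, p, b, a1, a2, a3, a4, a5, a6, a7, a8, a9⟩ :=
    hv₀ v hv k q W (C j₀).gates.length hk hq hW (hcon j₀)
  set G := (C j₀).gates.length with hG
  have hgap : ∀ j, ∃ θ : ℝ, Gap (C j) θ (1 / 2 ^ W) (A j) := by
    intro j
    rcases hA j with ⟨h1, h2⟩ | h1
    · exact gap_of_maj (C j) (A j) h1 h2
    · exact h1
  choose θ hθ using hgap
  set n := 2 * q * (W + 2) with hn
  have hmn : (∑ j, 2 ^ (s j + (C j).nots)) * n ≤ m := by
    have h1 : ∑ j : Fin q, 2 ^ (s j + (C j).nots) * (2 * q ^ 2 * (W + 2)) ≤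
        ∑ _j : Fin q, m := by
      apply Finset.sum_le_sum
      intro j _
      refine le_trans (le_of_eq ?_) (hm j)
      ring
    rw [← Finset.sum_mul, Finset.sum_const, Finset.card_univ, Fintype.card_fin,
      smul_eq_mul] at h1
    have h2 : q * ((∑ j, 2 ^ (s j + (C j).nots)) * n) ≤ q * m := by
      refine le_trans (le_of_eq ?_) h1
      rw [hn]
      ring
    exact Nat.le_of_mul_le_mul_left h2 hq
  obtain ⟨Z, f, c, hZ, hf, hc, hc1, hfc⟩ := hBLQ hTRQ m v k q n s t C a1 hq hN hmn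
  have hmono : ∀ (j : Fin q) (F : (Fin n × Edge v → Bool) → Bool),
      MonSize F ((C j).gates.length + 1) → MonSize F (G + 1) := by
    rintro j F ⟨L, h1, h2, h3⟩
    exact ⟨L, h1, h2.trans (Nat.succ_le_succ (hj₀ j (mem_univ _))), h3⟩
  have hcard : ∀ j : Fin q,
      ((Fintype.card ((Fin (s j) → Bool) × (Fin (t j) → Bool)) : ℕ) : ℝ) =
        2 ^ (s j + t j) := by
    intro j
    rw [Fintype.card_prod, Fintype.card_fun, Fintype.card_fun, Fintype.card_bool,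
      Fintype.card_fin, Fintype.card_fin, ← pow_add]
    push_cast
    rfl
  have hcnt : ∀ (j : Fin q) (z : Fin n × Edge v → Bool),
      cnt (fun (p : (Fin (s j) → Bool) × (Fin (t j) → Bool)) z =>
        outp (C j) (Z z) p.1 p.2) z = acc (C j) (Z z) := by
    intro j z
    rfl
  have hfin := hCMQ hDI1 hSTQ hLEV hCHN n v k b h p (G + 1) q W a2
    (fun j => (Fin (s j) → Bool) × (Fin (t j) → Bool)) f c
    (fun j p z => outp (C j) (Z z) p.1 p.2) (fun j z => A j (Z z)) D θ hq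
    (fun j => Fintype.card_pos) a3 a4 a5 a6 a7 a8 a9 (fun j p => hmono j _ (hf j p))
    (fun j p => hmono j _ (hc j p)) hc1 (fun z j p hz => hfc z j p hz)
    (by
      intro j z
      rw [hcard, hcnt]
      exact hθ j (Z z))
    (by
      intro z
      rw [← hZ z]
      exact hF (Z z))
  rw [hn] at hfin
  have h3 : 0 < q * (W + 2) := by positivity
  have h4 : 2 * (2 * q * (W + 2)) = 4 * (q * (W + 2)) := by ring
  omega

end Pool.Agent.NPQ
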