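import Pool.Agent.NPQ.Stm2
import Pool.Agent.NPP.LOW2

/-!
# The lower bound for the Boolean closure, second version
-/

set_option autoImplicit false

namespace Pool.Agent.NPQ

open Finset Pool.Agent.NegLim Pool.Agent.NLM Pool.Agent.NEG72 Pool.Agent.NPP

namespace MAIN2M

/-- The PP mode with few witness bits has a gap. -/
theorem gap_of_maj {E : Type} {s t W : ℕ} (C : NCirc E s t) (A : (E → Bool) → Prop)
    (hW : s + t ≤ W) (h : ∀ z, A z ↔ Maj C z) : ∃ θ : ℝ, Gap C θ (1 / 2 ^ W) A := by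
  refine ⟨_, gap_of_thr C A (2 ^ (s + t) / 2) hW fun z => ?_⟩
  rw [h z]
  show 2 ^ (s + t) / 2 < acc C z ↔ 2 ^ (s + t) < 2 * acc C z
  have h3 : 2 ^ (s + t) = 1 ∨ 2 ^ (s + t) % 2 = 0 := by
    rcases Nat.eq_zero_or_pos (s + t) with h4 | h4
    · left
      rw [h4, pow_zero]
    · right
      obtain ⟨n, hn⟩ : ∃ n, s + t = n + 1 := ⟨s + t - 1, by omega⟩
      rw [hn, pow_succ]
      omega
  omega

/-- The threshold is at least minus the gap. -/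
theorem gap_max {E : Type} {s t : ℕ} {C : NCirc E s t} {A : (E → Bool) → Prop} {θ γ : ℝ}
    (h : Gap C θ γ A) : Gap C (max θ (-γ)) γ A := by
  intro x
  have h0 : (0 : ℝ) ≤ 2 ^ (s + t) := by positivity
  refine ⟨fun hA => ?_, fun hA => ?_⟩
  · rcases le_total θ (-γ) with h1 | h1
    · rw [max_eq_right h1, neg_add_cancel, zero_mul]
      exact Nat.cast_nonneg _
    · rw [max_eq_left h1]
      exact (h x).1 hA
  · exact ((h x).2 hA).trans (mul_le_mul_of_nonneg_right (le_max_left _ _) h0)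

end MAIN2M

open MAIN2M in
/-- **The lower bound**, from the modules. -/
theorem lower_of2 (hLEV : Stmt_LEV) (hDI1 : Stmt_DI1) (hCHN : Stmt_CHN) (hGUE : Stmt_GUE)
    (hPTR : Stmt_PTR) (hSTR : Stmt_STR) (hCMR : Stmt_CMR) (hNMR : Stmt_NMR) (ε : ℝ) (hε : 0 < ε)
    (hε1 : ε ≤ 1) : ∃ v₀ : ℕ, ∀ v ≥ v₀, ∀ (k m q W : ℕ) (s t : Fin q → ℕ)
      (C : (j : Fin q) → NCirc (Fin m × Edge v) (s j) (t j))
      (A : Fin q → (Fin m × Edge v → Bool) → Prop) (D : (Fin q → Prop) → Prop),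
      k = ⌊(v : ℝ) ^ (ε / 4)⌋₊ → 1 ≤ q → (q : ℝ) * 2 ^ W ≤ (2 : ℝ) ^ ((v : ℝ) ^ (1 - ε)) →
      (∀ j, (C j).NotsFree) → 2 * (W + 3) * ∑ j, 2 ^ (s j + (C j).nots) ≤ m →
      (∀ j, (s j + t j ≤ W ∧ ∀ z, A j z ↔ Maj (C j) z) ∨
        ∃ θ : ℝ, Gap (C j) θ (1 / 2 ^ W) (A j)) →
      (∀ z, AllClq m v k z ↔ D fun j => A j z) →
      ∃ j, (2 : ℝ) ^ ((v : ℝ) ^ (ε / 10)) ≤ (C j).gates.length := by
  classical
  obtain ⟨v₀, hv₀⟩ := hNMR ε hε hε1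
  refine ⟨v₀, fun v hv k m q W s t C A D hk hq hW hN hm hA hF => ?_⟩
  by_contra hcon
  push Not at hcon
  have hne : (univ : Finset (Fin q)).Nonempty := ⟨⟨0, hq⟩, mem_univ _⟩
  obtain ⟨j₀, -, hj₀⟩ := Finset.exists_max_image univ (fun j => (C j).gates.length) hne
  obtain ⟨h, p, b, a2, a3, a4, a5, a6, a7, a8, a9⟩ :=
    hv₀ v hv k q W (C j₀).gates.length hk hq hW (hcon j₀)
  have hgap : ∀ j, ∃ θ : ℝ, -(1 / 2 ^ W) ≤ θ ∧ Gap (C j) θ (1 / 2 ^ W) (A j) := by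
    intro j
    have h1 : ∃ θ : ℝ, Gap (C j) θ (1 / 2 ^ W) (A j) := by
      rcases hA j with ⟨h1, h2⟩ | h1
      · exact gap_of_maj (C j) (A j) h1 h2
      · exact h1
    obtain ⟨θ, hθ⟩ := h1
    exact ⟨_, le_max_right _ _, gap_max hθ⟩
  choose θ hθ1 hθ2 using hgap
  have hfin := hCMR hLEV hDI1 hCHN hGUE hPTR hSTR m v k b h p ((C j₀).gates.length + 1) q W a2 s t
    C A D θ hq a3 a4 a5 a6 a7 a8 a9 hN
    (fun j => Nat.succ_le_succ (hj₀ j (mem_univ _))) hθ1 hθ2 hF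
  have h3 : 0 < (W + 3) * ∑ j, 2 ^ (s j + (C j).nots) := by
    apply Nat.mul_pos (by omega)
    exact Finset.sum_pos (fun j _ => by positivity) hne
  have h4 : 2 * (W + 3) * ∑ j, 2 ^ (s j + (C j).nots) =
      2 * ((W + 3) * ∑ j, 2 ^ (s j + (C j).nots)) := by ring
  omega

end Pool.Agent.NPQ
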