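import Pool.Agent.NPQ.Stm3
import Pool.Agent.NPQ.MAIN2

/-!
# The lower bound for nonadaptive queries
-/

set_option autoImplicit false

namespace Pool.Agent.NPQ

open Finset Pool.Agent.NegLim Pool.Agent.NLM Pool.Agent.NEG72 Pool.Agent.NPP

open MAIN2M in
/-- **The lower bound**, from the modules. -/
theorem lower_of3 (hLEV : Stmt_LEV) (hDI1 : Stmt_DI1) (hCHN : Stmt_CHN) (hGUE : Stmt_GUE)
    (hPTR : Stmt_PTR) (hSTS : Stmt_STS) (hCMS : Stmt_CMS) (hNMS : Stmt_NMS) (ε : ℝ) (hε : 0 < ε)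
    (hε1 : ε ≤ 1) : ∃ v₀ : ℕ, ∀ v ≥ v₀, ∀ (k m q W : ℕ) (s t : Fin q → ℕ)
      (C : (j : Fin q) → NCirc (Fin m × Edge v) (s j) (t j))
      (A : Fin q → (Fin m × Edge v → Bool) → Bool) (D : NCirc (Fin m × Edge v) 0 q),
      k = ⌊(v : ℝ) ^ (ε / 4)⌋₊ → 1 ≤ q → (q : ℝ) * 2 ^ W ≤ (2 : ℝ) ^ ((v : ℝ) ^ (1 - ε)) →
      (∀ j, (C j).NotsFree) → D.NotsFree →
      2 * ((W + 3) * (∑ j, 2 ^ (s j + (C j).nots)) + 2 ^ D.nots) ≤ m →
      (∀ j, (s j + t j ≤ W ∧ ∀ z, A j z = true ↔ Maj (C j) z) ∨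
        ∃ θ : ℝ, Gap (C j) θ (1 / 2 ^ W) fun z => A j z = true) →
      (∀ z, AllClq m v k z ↔ outp D z (fun i => i.elim0) (fun j => A j z) = true) →
      (2 : ℝ) ^ ((v : ℝ) ^ (ε / 10)) ≤ D.gates.length ∨
        ∃ j, (2 : ℝ) ^ ((v : ℝ) ^ (ε / 10)) ≤ (C j).gates.length := by
  classical
  obtain ⟨v₀, hv₀⟩ := hNMS ε hε hε1
  refine ⟨v₀, fun v hv k m q W s t C A D hk hq hW hN hND hm hA hF => ?_⟩
  by_contra hcon
  push Not at hcon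
  obtain ⟨hcD, hcC⟩ := hcon
  have hne : (univ : Finset (Fin q)).Nonempty := ⟨⟨0, hq⟩, mem_univ _⟩
  obtain ⟨j₀, -, hj₀⟩ := Finset.exists_max_image univ (fun j => (C j).gates.length) hne
  set G : ℕ := max D.gates.length (C j₀).gates.length with hG
  have hGlt : (G : ℝ) < (2 : ℝ) ^ ((v : ℝ) ^ (ε / 10)) := by
    rw [hG, Nat.cast_max]
    exact max_lt hcD (hcC j₀)
  obtain ⟨h, p, b, a2, a3, a4, a5, a6, a7, a8, a9⟩ := hv₀ v hv k q W G hk hq hW hGlt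
  have hgap : ∀ j, ∃ θ : ℝ, -(1 / 2 ^ W) ≤ θ ∧
      Gap (C j) θ (1 / 2 ^ W) fun z => A j z = true := by
    intro j
    have h1 : ∃ θ : ℝ, Gap (C j) θ (1 / 2 ^ W) fun z => A j z = true := by
      rcases hA j with ⟨h1, h2⟩ | h1
      · exact gap_of_maj (C j) (fun z => A j z = true) h1 h2
      · exact h1
    obtain ⟨θ, hθ⟩ := h1
    exact ⟨_, le_max_right _ _, gap_max hθ⟩
  choose θ hθ1 hθ2 using hgap
  have hfin := hCMS hLEV hDI1 hCHN hGUE hPTR hSTS m v k b h p (G + 1) q W a2 s t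
    C A D θ hq a3 a4 a5 a6 a7 a8 a9 hN
    (fun j => Nat.succ_le_succ ((hj₀ j (mem_univ _)).trans (le_max_right _ _))) hND
    (Nat.succ_le_succ (le_max_left _ _)) hθ1 hθ2 hF
  have h3 : 0 < 2 ^ D.nots := by positivity
  omega

end Pool.Agent.NPQ
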