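import Pool.Agent.NPQ.Stm4
import Pool.Agent.NPQ.MAIN2

/-!
# The lower bound for queries in rounds
-/

set_option autoImplicit false

namespace Pool.Agent.NPQ

open Finset Pool.Agent.NegLim Pool.Agent.NLM Pool.Agent.NEG72 Pool.Agent.NPP

/-- The answers `a x l` of the query number `l` are right: in the PP mode (and the circuit has at most `W`
witness bits), or with the gap `1 / 2 ^ W`. The first `n` of the last witness bits of the circuit are not
random, they are the answers of the earlier rounds. -/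
def Right (q W : ℕ) {E : Type} {s t n : ℕ} (C : NCirc E s (n + t)) (l : Fin n)
    (a : (E → Bool) → Fin n → Bool) : Prop :=
  (s + t ≤ W ∧ ∀ x, a x l = true ↔ 2 ^ (s + t) < 2 * accH C (hist q l (a x)) x) ∨
    ∃ θ : (Fin n → Bool) → ℝ, GapH q W C l a θ

namespace MAIN4M

/-- The PP mode with few witness bits has a gap. -/
theorem gap_of_pp {q W : ℕ} {E : Type} {s t n : ℕ} {C : NCirc E s (n + t)} {l : Fin n}
    {a : (E → Bool) → Fin n → Bool} (hW : s + t ≤ W)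
    (h : ∀ x, a x l = true ↔ 2 ^ (s + t) < 2 * accH C (hist q l (a x)) x) :
    ∃ θ : (Fin n → Bool) → ℝ, GapH q W C l a θ := by
  have h2 : (0 : ℝ) < 2 ^ (s + t) := by positivity
  refine ⟨fun _ => ((2 ^ (s + t) / 2 : ℕ) : ℝ) / 2 ^ (s + t), fun x => ⟨fun hA => ?_, fun hA => ?_⟩⟩
  · have h3 : 2 ^ (s + t) / 2 + 1 ≤ accH C (hist q l (a x)) x := by
      have := (h x).1 hA
      omega
    have h4 : (((2 ^ (s + t) / 2 : ℕ) : ℝ)) + 1 ≤ accH C (hist q l (a x)) x := by exact_mod_cast h3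
    have h5 : (1 : ℝ) / 2 ^ W * 2 ^ (s + t) ≤ 1 := by
      rw [div_mul_eq_mul_div, one_mul, div_le_one (by positivity)]
      exact pow_le_pow_right₀ (by norm_num) hW
    rw [add_mul, div_mul_cancel₀ _ h2.ne']
    linarith
  · have h3 : accH C (hist q l (a x)) x ≤ 2 ^ (s + t) / 2 := by
      have h4 : ¬ 2 ^ (s + t) < 2 * accH C (hist q l (a x)) x := fun h5 => by
        have h6 := (h x).2 h5
        rw [hA] at h6
        cases h6
      omega
    rw [div_mul_cancel₀ _ h2.ne']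
    exact_mod_cast h3

/-- The threshold is at least minus the gap. -/
theorem gapH_max {q W : ℕ} {E : Type} {s t n : ℕ} {C : NCirc E s (n + t)} {l : Fin n}
    {a : (E → Bool) → Fin n → Bool} {θ : (Fin n → Bool) → ℝ} (h : GapH q W C l a θ) :
    GapH q W C l a fun d => max (θ d) (-(1 / 2 ^ W)) := by
  intro x
  have h0 : (0 : ℝ) ≤ 2 ^ (s + t) := by positivity
  refine ⟨fun hA => ?_, fun hA => ?_⟩
  · rcases le_total (θ (hist q l (a x))) (-(1 / 2 ^ W)) with h1 | h1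
    · simp only [max_eq_right h1, neg_add_cancel, zero_mul]
      exact Nat.cast_nonneg _
    · simp only [max_eq_left h1]
      exact (h x).1 hA
  · exact ((h x).2 hA).trans (mul_le_mul_of_nonneg_right (le_max_left _ _) h0)

end MAIN4M

open MAIN4M in
/-- **The lower bound**, from the modules. -/
theorem lower_of4 (hLEV : Stmt_LEV) (hDI1 : Stmt_DI1) (hCHN : Stmt_CHN) (hGUE : Stmt_GUE)
    (hMOH : Stmt_MOH) (hWGT : Stmt_WGT) (hWBD : Stmt_WBD) (hSTT : Stmt_STT) (hCMT : Stmt_CMT)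
    (hNMS : Stmt_NMS) (ε : ℝ) (hε : 0 < ε) (hε1 : ε ≤ 1) :
    ∃ v₀ : ℕ, ∀ v ≥ v₀, ∀ (k m n q c W : ℕ) (s t : Fin n → ℕ)
      (C : (l : Fin n) → NCirc (Fin m × Edge v) (s l) (n + t l))
      (D : NCirc (Fin m × Edge v) 0 n) (a : (Fin m × Edge v → Bool) → Fin n → Bool),
      k = ⌊(v : ℝ) ^ (ε / 4)⌋₊ → 1 ≤ n → 1 ≤ q → n ≤ c * q →
      (n : ℝ) * 2 ^ W ≤ (2 : ℝ) ^ ((v : ℝ) ^ (1 - ε)) →
      (∀ l, (C l).NotsFree) → D.NotsFree →
      (∀ l, 2 * (1 + q * (W + 3)) ^ c * 2 ^ (s l + (C l).nots) ≤ m) →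
      2 * (1 + q * (W + 3)) ^ c * 2 ^ D.nots ≤ m →
      (∀ l, Right q W (C l) l a) →
      (∀ z, AllClq m v k z ↔ outp D z (fun i => i.elim0) (a z) = true) →
      (2 : ℝ) ^ ((v : ℝ) ^ (ε / 10)) ≤ D.gates.length ∨
        ∃ l, (2 : ℝ) ^ ((v : ℝ) ^ (ε / 10)) ≤ (C l).gates.length := by
  classical
  obtain ⟨v₀, hv₀⟩ := hNMS ε hε hε1
  refine ⟨v₀, fun v hv k m n q c W s t C D a hk hn hq hc hW hN hND hm hmD hA hF => ?_⟩
  by_contra hcon
  push Not at hcon
  obtain ⟨hcD, hcC⟩ := hcon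
  have hne : (univ : Finset (Fin n)).Nonempty := ⟨⟨0, hn⟩, mem_univ _⟩
  obtain ⟨j₀, -, hj₀⟩ := Finset.exists_max_image univ (fun j => (C j).gates.length) hne
  set G : ℕ := max D.gates.length (C j₀).gates.length with hG
  have hGlt : (G : ℝ) < (2 : ℝ) ^ ((v : ℝ) ^ (ε / 10)) := by
    rw [hG, Nat.cast_max]
    exact max_lt hcD (hcC j₀)
  obtain ⟨h, p, b, a2, a3, a4, a5, a6, a7, a8, a9⟩ := hv₀ v hv k n W G hk hn hW hGlt
  have hgap : ∀ l, ∃ θ : (Fin n → Bool) → ℝ, (∀ d, -(1 / 2 ^ W) ≤ θ d) ∧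
      GapH q W (C l) l a θ := by
    intro l
    have h1 : ∃ θ : (Fin n → Bool) → ℝ, GapH q W (C l) l a θ := by
      rcases hA l with ⟨h1, h2⟩ | h1
      · exact gap_of_pp h1 h2
      · exact h1
    obtain ⟨θ, hθ⟩ := h1
    exact ⟨_, fun d => le_max_right _ _, gapH_max hθ⟩
  choose θ hθ1 hθ2 using hgap
  set K : ℕ := (1 + q * (W + 3)) ^ c with hK
  have hK0 : 0 < K := by rw [hK]; positivity
  have h2K : 0 < 2 * K := by omega
  have hR : ∀ x : ℕ, 2 * K * x ≤ m → x ≤ m / (2 * K) := fun x hx =>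
    (Nat.le_div_iff_mul_le h2K).2 (by rw [mul_comm]; exact hx)
  have hfin := hCMT hLEV hDI1 hCHN hGUE hMOH hWGT hWBD hSTT m v k b h p (G + 1) n q c W
    (m / (2 * K)) a2 s t C D a θ hn hq hc a3 a4 a5 a6 a7 a8 a9 hN
    (fun j => Nat.succ_le_succ ((hj₀ j (mem_univ _)).trans (le_max_right _ _)))
    (fun l => hR _ (hm l)) hND (Nat.succ_le_succ (le_max_left _ _)) (hR _ hmD) hθ1 hθ2 hF
  have h3 : 2 * K * (m / (2 * K)) ≤ m := Nat.mul_div_le m (2 * K)
  have h4 : 3 * (K * (m / (2 * K))) * 2 = 3 * (2 * K * (m / (2 * K))) := by ring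
  have h5 : 0 < 2 * K * 2 ^ D.nots := Nat.mul_pos h2K (by positivity)
  rw [← hK] at hfin
  omega

end Pool.Agent.NPQ
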