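import Pool.Agent.NPQ.Stm5
import Pool.Agent.NPQ.MAIN4

/-!
# The lower bound for queries in rounds, with better weights
-/

set_option autoImplicit false

namespace Pool.Agent.NPQ

open Finset Pool.Agent.NegLim Pool.Agent.NLM Pool.Agent.NEG72 Pool.Agent.NPP

open MAIN4M in
/-- **The lower bound**, from the modules. -/
theorem lower_of5 (hLEV : Stmt_LEV) (hDI1 : Stmt_DI1) (hCHN : Stmt_CHN) (hGUE : Stmt_GUE)
    (hMOH : Stmt_MOH) (hWGV : Stmt_WGV) (hWBV : Stmt_WBV) (hSTT : Stmt_STT) (hCMV : Stmt_CMV)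
    (hNMS : Stmt_NMS) (ε : ℝ) (hε : 0 < ε) (hε1 : ε ≤ 1) :
    ∃ v₀ : ℕ, ∀ v ≥ v₀, ∀ (k m n q c W : ℕ) (s t : Fin n → ℕ)
      (C : (l : Fin n) → NCirc (Fin m × Edge v) (s l) (n + t l))
      (D : NCirc (Fin m × Edge v) 0 n) (a : (Fin m × Edge v → Bool) → Fin n → Bool),
      k = ⌊(v : ℝ) ^ (ε / 4)⌋₊ → 1 ≤ n → 1 ≤ q → n ≤ c * q →
      (n : ℝ) * 2 ^ W ≤ (2 : ℝ) ^ ((v : ℝ) ^ (1 - ε)) →
      (∀ l, (C l).NotsFree) → D.NotsFree →
      (∀ l, 2 * steps c q W * 2 ^ (s l + (C l).nots) ≤ m) →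
      2 * steps c q W * 2 ^ D.nots ≤ m →
      (∀ l, Right q W (C l) l a) →
      (∀ z, AllClq m v k z ↔ outp D z (fun i => i.elim0) (a z) = true) →
      (2 : ℝ) ^ ((v : ℝ) ^ (ε / 10)) ≤ D.gates.length ∨
        ∃ l, (2 : ℝ) ^ ((v : ℝ) ^ (ε / 10)) ≤ (C l).gates.length := by
  classical
  obtain ⟨v₀, hv₀⟩ := hNMS ε hε hε1
  refine ⟨v₀, fun v hv k m n q c W s t C D a hk hn hq hc hW hN hND hm hmD hA hF => ?_⟩
  by_contra hcon
  push Not at hcon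
  obtain ⟨hcD, hcC⟩ := hcon
  have hne : (univ : Finset (Fin n)).Nonempty := ⟨⟨0, hn⟩, mem_univ _⟩
  obtain ⟨j₀, -, hj₀⟩ := Finset.exists_max_image univ (fun j => (C j).gates.length) hne
  set G : ℕ := max D.gates.length (C j₀).gates.length with hG
  have hGlt : (G : ℝ) < (2 : ℝ) ^ ((v : ℝ) ^ (ε / 10)) := by
    rw [hG, Nat.cast_max]
    exact max_lt hcD (hcC j₀)
  obtain ⟨h, p, b, a2, a3, a4, a5, a6, a7, a8, a9⟩ := hv₀ v hv k n W G hk hn hW hGlt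
  have hgap : ∀ l, ∃ θ : (Fin n → Bool) → ℝ, (∀ d, -(1 / 2 ^ W) ≤ θ d) ∧
      GapH q W (C l) l a θ := by
    intro l
    have h1 : ∃ θ : (Fin n → Bool) → ℝ, GapH q W (C l) l a θ := by
      rcases hA l with ⟨h1, h2⟩ | h1
      · exact gap_of_pp h1 h2
      · exact h1
    obtain ⟨θ, hθ⟩ := h1
    exact ⟨_, fun d => le_max_right _ _, gapH_max hθ⟩
  choose θ hθ1 hθ2 using hgap
  set K : ℕ := steps c q W with hK
  have hK0 : 0 < K := by
    rw [hK]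
    unfold steps
    omega
  have h2K : 0 < 2 * K := by omega
  have hR : ∀ x : ℕ, 2 * K * x ≤ m → x ≤ m / (2 * K) := fun x hx =>
    (Nat.le_div_iff_mul_le h2K).2 (by rw [mul_comm]; exact hx)
  have hfin := hCMV hLEV hDI1 hCHN hGUE hMOH hWGV hWBV hSTT m v k b h p (G + 1) n q c W
    (m / (2 * K)) a2 s t C D a θ hn hq hc a3 a4 a5 a6 a7 a8 a9 hN
    (fun j => Nat.succ_le_succ ((hj₀ j (mem_univ _)).trans (le_max_right _ _)))
    (fun l => hR _ (hm l)) hND (Nat.succ_le_succ (le_max_left _ _)) (hR _ hmD) hθ1 hθ2 hF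
  have h3 : 2 * K * (m / (2 * K)) ≤ m := Nat.mul_div_le m (2 * K)
  have h4 : 3 * (K * (m / (2 * K))) * 2 = 3 * (2 * K * (m / (2 * K))) := by ring
  have h5 : 0 < 2 * K * 2 ^ D.nots := Nat.mul_pos h2K (by positivity)
  rw [← hK] at hfin
  omega

end Pool.Agent.NPQ
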