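import Pool.Agent.NPQ.Stmts

/-!
# The parameters (module NMQ of NPQ, MP_153864_lc)
-/

set_option autoImplicit false

namespace Pool.Agent.NPQ

theorem NMQ_thm : Stmt_NMQ := by
  intro ε hε hε1
  have h1 : Filter.Tendsto (fun v : ℕ => (v : ℝ) ^ (ε / 40)) Filter.atTop Filter.atTop :=
    (tendsto_rpow_atTop (by positivity)).comp tendsto_natCast_atTop_atTop
  have h2 : ∀ᶠ v : ℕ in Filter.atTop, ‖Real.log (v : ℝ)‖ ≤ 1 / 2 * ‖(v : ℝ) ^ (ε / 40)‖ :=
    tendsto_natCast_atTop_atTop.eventually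
      ((isLittleO_log_rpow_atTop (by positivity : 0 < ε / 40)).bound (by norm_num : (0 : ℝ) < 1 / 2))
  have h3 := (h1.eventually_ge_atTop 100).and (h2.and (Filter.eventually_ge_atTop 2))
  obtain ⟨v₀, hv₀⟩ := Filter.eventually_atTop.1 h3
  refine ⟨v₀, fun v hv k q W G hk hq1 hqW hG => ?_⟩
  obtain ⟨hy, hlog, hv2⟩ := hv₀ v hv
  have hv0 : (0 : ℝ) < v := by
    have : (2 : ℝ) ≤ v := by exact_mod_cast hv2
    linarith
  have hv1 : (1 : ℝ) ≤ v := by
    have : (2 : ℝ) ≤ v := by exact_mod_cast hv2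
    linarith
  set y : ℝ := (v : ℝ) ^ (ε / 40) with hydef
  have hpow : ∀ j : ℕ, (v : ℝ) ^ (j * ε / 40) = y ^ j := by
    intro j
    rw [hydef, ← Real.rpow_natCast, ← Real.rpow_mul hv0.le]
    congr 1
    ring
  have e4 : (v : ℝ) ^ (ε / 10) = y ^ 4 := by
    rw [← hpow 4]; congr 1; push_cast; ring
  have e10 : (v : ℝ) ^ (ε / 4) = y ^ 10 := by
    rw [← hpow 10]; congr 1; push_cast; ring
  set P : ℝ := (v : ℝ) ^ (1 - ε) with hP
  have hP1 : 1 ≤ P := Real.one_le_rpow hv1 (by linarith)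
  have eP2 : (v : ℝ) ^ (2 - 2 * ε) = P ^ 2 := by
    rw [hP, ← Real.rpow_natCast, ← Real.rpow_mul hv0.le]
    congr 1
    push_cast
    ring
  have eP : ∀ j : ℕ, (v : ℝ) ^ (1 - ε + j * ε / 40) = P * y ^ j := by
    intro j
    rw [Real.rpow_add hv0, hpow j]
  have ev : (v : ℝ) = P * y ^ 40 := by
    rw [← eP 40]
    have : 1 - ε + ((40 : ℕ) : ℝ) * ε / 40 = 1 := by push_cast; ring
    rw [this, Real.rpow_one]
  have hlog2 : Real.logb 2 v ≤ y := by
    have h4 : Real.log v ≤ 1 / 2 * y := by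
      have := hlog
      rw [Real.norm_of_nonneg (Real.log_nonneg hv1), Real.norm_of_nonneg (by linarith)] at this
      exact this
    rw [Real.logb, div_le_iff₀ (Real.log_pos (by norm_num))]
    have h5 := Real.log_two_gt_d9
    nlinarith
  have hy0 : (0 : ℝ) < y := by linarith
  have hy1 : (1 : ℝ) ≤ y := by linarith
  -- the square root of q
  have hq1' : (1 : ℝ) ≤ q := by exact_mod_cast hq1
  set σ : ℝ := Real.sqrt q with hσ
  have hσ2 : σ ^ 2 = q := Real.sq_sqrt (by linarith)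
  have hσ1 : 1 ≤ σ := Real.one_le_sqrt.2 hq1'
  have hσ0 : 0 < σ := by linarith
  have hW0 : (0 : ℝ) ≤ W := Nat.cast_nonneg _
  have hσW : σ * (W + 1) ≤ P := by
    apply le_of_sq_le_sq _ (by linarith)
    rw [mul_pow, hσ2, ← eP2]
    exact hqW
  set R : ℝ := P / σ with hR
  have hσR : σ * R = P := by rw [hR]; field_simp
  have hRW : (W : ℝ) + 1 ≤ R := by
    rw [hR, le_div_iff₀ hσ0, mul_comm]
    exact hσW
  have hR1 : 1 ≤ R := by linarith
  have hRP : R ≤ P := by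
    rw [← hσR]
    exact le_mul_of_one_le_left (by linarith) hσ1
  have hqR : (q : ℝ) * R ^ 2 = P ^ 2 := by
    rw [← hσ2, ← mul_pow, hσR]
  have hqP : (q : ℝ) ≤ P ^ 2 := by
    rw [← hqR]
    exact le_mul_of_one_le_right (by linarith) (one_le_pow₀ hR1)
  -- powers of y
  have hy4 : (100 : ℝ) ^ 4 ≤ y ^ 4 := pow_le_pow_left₀ (by norm_num) hy 4
  have hy5 : y ^ 5 = y ^ 4 * y := by ring
  -- k
  have hk1 : (k : ℝ) ≤ y ^ 10 := by
    rw [hk, ← e10]
    exact Nat.floor_le (by positivity)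
  have hk2 : y ^ 10 < k + 1 := by
    rw [hk, ← e10]
    exact Nat.lt_floor_add_one _
  set h : ℕ := ⌊y ^ 5 / 4⌋₊ with hh
  have hh1 : (h : ℝ) ≤ y ^ 5 / 4 := Nat.floor_le (by positivity)
  have hh2 : y ^ 5 / 4 < h + 1 := Nat.lt_floor_add_one _
  set b : ℕ := ⌊P * y ^ 30⌋₊ with hb
  have hb1 : (b : ℝ) ≤ P * y ^ 30 := Nat.floor_le (by positivity)
  have hb2 : P * y ^ 30 < b + 1 := Nat.lt_floor_add_one _
  set p : ℕ := ⌊R * y ^ 20⌋₊ with hp
  have hp1 : (p : ℝ) ≤ R * y ^ 20 := Nat.floor_le (by positivity)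
  have hp2 : R * y ^ 20 < p + 1 := Nat.lt_floor_add_one _
  have hp3 : (p : ℝ) ≤ P * y ^ 20 := hp1.trans (by gcongr)
  set g : ℕ := ⌈y ^ 4⌉₊ with hg
  have hg1 : y ^ 4 ≤ g := Nat.le_ceil _
  have hg2 : (g : ℝ) < y ^ 4 + 1 := Nat.ceil_lt_add_one (by positivity)
  have hGg : G + 1 ≤ 2 ^ g := by
    have h4 : (G : ℝ) < (2 : ℝ) ^ g := by
      rw [← Real.rpow_natCast]
      refine hG.trans_le ?_
      rw [e4]
      exact Real.rpow_le_rpow_of_exponent_le (by norm_num) hg1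
    have h5 : G < 2 ^ g := by exact_mod_cast h4
    exact h5
  set c : ℕ := Nat.clog 2 v with hc
  have hvc : v ≤ 2 ^ c := Nat.le_pow_clog (by norm_num) v
  have hc1 : (c : ℝ) ≤ y + 1 := by
    have h7 : Nat.clog 2 v ≤ Nat.log 2 v + 1 := Nat.clog_le_of_le_pow
      (Nat.lt_pow_succ_log_self (by norm_num) v).le
    have h8 : ((Nat.log 2 v : ℕ) : ℝ) ≤ Real.logb 2 v := by
      have := Real.natLog_le_logb v 2
      exact_mod_cast this
    have h9 : ((Nat.clog 2 v : ℕ) : ℝ) ≤ ((Nat.log 2 v + 1 : ℕ) : ℝ) := by exact_mod_cast h7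
    push_cast at h9
    linarith
  have hqc : q ≤ 2 ^ (2 * c) := by
    have h4 : (q : ℝ) ≤ (v : ℝ) ^ 2 := by
      refine hqP.trans (pow_le_pow_left₀ (by linarith) ?_ 2)
      rw [ev]
      exact le_mul_of_one_le_right (by linarith) (one_le_pow₀ hy1)
    have h5 : q ≤ v ^ 2 := by exact_mod_cast h4
    calc q ≤ v ^ 2 := h5
      _ ≤ (2 ^ c) ^ 2 := Nat.pow_le_pow_left hvc 2
      _ = 2 ^ (2 * c) := by rw [← pow_mul, mul_comm]
  have hy14 : (100 : ℝ) ≤ y ^ 14 := hy.trans (le_self_pow₀ (by linarith) (by norm_num))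
  have h2hpR : 2 * (h : ℝ) * p ≤ R * y ^ 25 / 2 := by
    calc 2 * (h : ℝ) * p ≤ 2 * (y ^ 5 / 4) * (R * y ^ 20) := by gcongr
      _ = R * y ^ 25 / 2 := by ring
  have h2hp : 2 * (h : ℝ) * p ≤ v := by
    rw [ev]
    calc 2 * (h : ℝ) * p ≤ 2 * (y ^ 5 / 4) * (P * y ^ 20) := by gcongr
      _ = P * y ^ 25 * (1 / 2) := by ring
      _ ≤ P * y ^ 25 * y ^ 15 := by
        apply mul_le_mul_of_nonneg_left _ (by positivity)
        have : (1 : ℝ) ≤ y ^ 15 := one_le_pow₀ (by linarith)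
        linarith
      _ = P * y ^ 40 := by ring
  refine ⟨h, p, b, ?_, ?_, ?_, ?_, ?_, ?_, ?_, ?_, ?_⟩
  · have : (k : ℝ) ≤ v := by
      rw [ev]
      calc (k : ℝ) ≤ y ^ 10 := hk1
        _ ≤ y ^ 40 := pow_le_pow_right₀ (by linarith) (by norm_num)
        _ ≤ P * y ^ 40 := le_mul_of_one_le_left (by positivity) hP1
    exact_mod_cast this
  · have : (k : ℝ) * b ≤ v := by
      rw [ev]
      calc (k : ℝ) * b ≤ y ^ 10 * (P * y ^ 30) := by gcongr
        _ = P * y ^ 40 := by ring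
    exact_mod_cast this
  · have : (1 : ℝ) ≤ y ^ 5 / 4 := by
      rw [hy5]
      nlinarith
    exact Nat.le_floor (by exact_mod_cast this)
  · have h4 : (2 * (h : ℝ)) * (2 * h) + 2 ≤ k + 1 := by
      have h5 : 2 * (h : ℝ) ≤ y ^ 5 / 2 := by linarith
      have h6 : (2 * (h : ℝ)) * (2 * h) ≤ y ^ 5 / 2 * (y ^ 5 / 2) := by gcongr
      have h7 : y ^ 5 / 2 * (y ^ 5 / 2) = y ^ 10 / 4 := by ring
      have h8 : (100 : ℝ) ≤ y ^ 10 := hy.trans (le_self_pow₀ (by linarith) (by norm_num))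
      linarith
    have h5 : 2 * h * (2 * h) + 1 ≤ k := by
      have : ((2 * h * (2 * h) + 1 : ℕ) : ℝ) ≤ k := by
        push_cast
        linarith
      exact_mod_cast this
    have h6 : 2 * h * (2 * h - 1) ≤ 2 * h * (2 * h) := Nat.mul_le_mul_left _ (Nat.sub_le _ _)
    omega
  · have h8 : (100 : ℝ) ≤ y ^ 20 := hy.trans (le_self_pow₀ (by linarith) (by norm_num))
    have h9 : y ^ 20 ≤ R * y ^ 20 := le_mul_of_one_le_left (by positivity) hR1
    have h10 : (2 : ℝ) < p := by linarith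
    have h11 : 2 < p := by exact_mod_cast h10
    omega
  · have h4 : (4 * (p * (2 * h)) : ℝ) < b + 1 := by
      calc (4 * (p * (2 * h)) : ℝ) = 8 * (p * h) := by ring
        _ ≤ 8 * (P * y ^ 20 * (y ^ 5 / 4)) := by gcongr
        _ = P * y ^ 25 * 2 := by ring
        _ ≤ P * y ^ 25 * y ^ 5 := by
          apply mul_le_mul_of_nonneg_left _ (by positivity)
          have : (100 : ℝ) ≤ y ^ 5 := hy.trans (le_self_pow₀ (by linarith) (by norm_num))
          linarith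
        _ = P * y ^ 30 := by ring
        _ < b + 1 := hb2
    have h5 : 4 * (p * (2 * h)) < b + 1 := by exact_mod_cast h4
    omega
  · -- 24 q (G + 1) ≤ 2 ^ (2 h)
    have h4 : 5 + 2 * c + g ≤ 2 * h := by
      have h5 : ((5 + 2 * c + g : ℕ) : ℝ) ≤ ((2 * h : ℕ) : ℝ) := by
        push_cast
        have h6 : (100 : ℝ) * y ^ 4 ≤ y ^ 5 := by
          rw [hy5]
          nlinarith
        have h7 : y ≤ y ^ 4 := le_self_pow₀ (by linarith) (by norm_num)
        linarith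
      exact_mod_cast h5
    calc 24 * q * (G + 1) ≤ 2 ^ 5 * 2 ^ (2 * c) * 2 ^ g := by
          gcongr
          norm_num
      _ = 2 ^ (5 + 2 * c + g) := by rw [← pow_add, ← pow_add]
      _ ≤ 2 ^ (2 * h) := Nat.pow_le_pow_right (by norm_num) h4
  · -- 48 q (2 h p) ^ 2 ≤ b ^ 2
    have h4 : (48 : ℝ) * q * (2 * h * p) ^ 2 ≤ (b : ℝ) ^ 2 := by
      have h5 : (48 : ℝ) * q * (2 * h * p) ^ 2 ≤ 48 * q * (R * y ^ 25 / 2) ^ 2 := by
        gcongr
      have h6 : (48 : ℝ) * q * (R * y ^ 25 / 2) ^ 2 = (P * y ^ 25) ^ 2 * 12 := by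
        have : (48 : ℝ) * q * (R * y ^ 25 / 2) ^ 2 = (q * R ^ 2) * (y ^ 25) ^ 2 * 12 := by ring
        rw [this, hqR]
        ring
      have h7 : (P * y ^ 25) * 4 ≤ b := by
        have h8 : P * y ^ 25 * 5 ≤ P * y ^ 30 := by
          have h9 : P * y ^ 30 = P * y ^ 25 * y ^ 5 := by ring
          rw [h9]
          apply mul_le_mul_of_nonneg_left _ (by positivity)
          have : (100 : ℝ) ≤ y ^ 5 := hy.trans (le_self_pow₀ (by linarith) (by norm_num))
          linarith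
        have h9 : 1 ≤ P * y ^ 25 := by
          have h10 : (1 : ℝ) ≤ y ^ 25 := one_le_pow₀ hy1
          nlinarith
        linarith
      have h8 : ((P * y ^ 25) * 4) ^ 2 ≤ (b : ℝ) ^ 2 := pow_le_pow_left₀ (by positivity) h7 2
      have h9 : (0 : ℝ) ≤ (P * y ^ 25) ^ 2 := sq_nonneg _
      calc (48 : ℝ) * q * (2 * h * p) ^ 2 ≤ (P * y ^ 25) ^ 2 * 12 := h5.trans h6.le
        _ ≤ (P * y ^ 25) ^ 2 * 16 := by linarith
        _ = ((P * y ^ 25) * 4) ^ 2 := by ring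
        _ ≤ (b : ℝ) ^ 2 := h8
    exact_mod_cast h4
  · -- the power
    have h4 : 2 * h * p ≤ v := by exact_mod_cast h2hp
    have h5 : (p * (2 * h)) ^ (4 * h) ≤ 2 ^ (c * (4 * h)) := by
      rw [pow_mul 2 c (4 * h), mul_comm p (2 * h)]
      exact Nat.pow_le_pow_left (h4.trans hvc) _
    have h6 : 6 + 2 * c + W + g + c * (4 * h) < p := by
      have h7 : ((6 + 2 * c + W + g + c * (4 * h) : ℕ) : ℝ) < (p : ℝ) := by
        push_cast
        have h8 : (c : ℝ) * (4 * h) ≤ (y + 1) * y ^ 5 := by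
          have : 4 * (h : ℝ) ≤ y ^ 5 := by linarith
          exact mul_le_mul hc1 this (by positivity) (by linarith)
        have h9 : (y + 1) * y ^ 5 ≤ 2 * y ^ 6 := by
          have e : (y + 1) * y ^ 5 = y ^ 6 + y ^ 5 := by ring
          have : y ^ 5 ≤ y ^ 6 := pow_le_pow_right₀ hy1 (by norm_num)
          linarith
        have h10 : y ^ 4 ≤ y ^ 6 := pow_le_pow_right₀ hy1 (by norm_num)
        have h11 : y ≤ y ^ 6 := le_self_pow₀ hy1 (by norm_num)
        have h12 : (100 : ℝ) ≤ y ^ 6 := hy.trans h11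
        have h13 : y ^ 6 * 100 ≤ y ^ 20 := by
          have e : y ^ 20 = y ^ 6 * y ^ 14 := by ring
          rw [e]
          exact mul_le_mul_of_nonneg_left hy14 (by positivity)
        have h14 : (W : ℝ) + y ^ 20 ≤ R * y ^ 20 := by
          have h15 : ((W : ℝ) + 1) * y ^ 20 ≤ R * y ^ 20 :=
            mul_le_mul_of_nonneg_right hRW (by positivity)
          have h16 : (1 : ℝ) ≤ y ^ 20 := one_le_pow₀ hy1
          have h17 : (W : ℝ) ≤ W * y ^ 20 := le_mul_of_one_le_right hW0 h16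
          linarith
        linarith
      exact_mod_cast h7
    calc 16 * q * 2 ^ W * ((G + 1) * (4 * (p * (2 * h)) ^ (4 * h)))
        ≤ 2 ^ 4 * 2 ^ (2 * c) * 2 ^ W * (2 ^ g * (2 ^ 2 * 2 ^ (c * (4 * h)))) := by
          gcongr <;> norm_num
      _ = 2 ^ (6 + 2 * c + W + g + c * (4 * h)) := by
          simp only [pow_add]
          ring
      _ < 2 ^ p := Nat.pow_lt_pow_right (by norm_num) h6

end Pool.Agent.NPQ
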