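import Pool.Agent.NPQ.Stmts

set_option autoImplicit false

namespace Pool.Agent.NPQ

open Finset Pool.Agent.NegLim Pool.Agent.NLM Pool.Agent.NEG72 Pool.Agent.NPP

namespace STQM

/-- Double counting. -/
theorem dc {α β : Type} [Fintype β] (S : Finset α) (bad : α → β → Bool) (q K w e N : ℕ)
    (h : ∀ p ∈ S, 2 * q * K * ((univ : Finset β).filter fun b => bad p b = true).card + e ≤ N) :
    2 * q * w * ((univ : Finset β).filter fun b =>
        w ≤ K * (S.filter fun p => bad p b = true).card).card + e * S.card ≤ S.card * N := by
  have h1 : 2 * q * w * ((univ : Finset β).filter fun b =>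
      w ≤ K * (S.filter fun p => bad p b = true).card).card ≤
      ∑ p ∈ S, 2 * q * K * ((univ : Finset β).filter fun b => bad p b = true).card := by
    have e1 : ∑ p ∈ S, 2 * q * K * ((univ : Finset β).filter fun b => bad p b = true).card =
        ∑ b : β, 2 * q * K * (S.filter fun p => bad p b = true).card := by
      rw [← Finset.mul_sum, ← Finset.mul_sum]
      congr 1
      simp only [Finset.card_filter]
      exact Finset.sum_comm
    rw [e1]
    calc 2 * q * w * ((univ : Finset β).filter fun b =>
          w ≤ K * (S.filter fun p => bad p b = true).card).card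
        = ∑ b ∈ (univ : Finset β).filter (fun b =>
          w ≤ K * (S.filter fun p => bad p b = true).card), 2 * q * w := by
          rw [Finset.sum_const, smul_eq_mul, Nat.mul_comm]
      _ ≤ ∑ b ∈ (univ : Finset β).filter (fun b =>
          w ≤ K * (S.filter fun p => bad p b = true).card),
            2 * q * K * (S.filter fun p => bad p b = true).card := by
          refine Finset.sum_le_sum fun b hb => ?_
          have hb' := (Finset.mem_filter.1 hb).2
          calc 2 * q * w ≤ 2 * q * (K * (S.filter fun p => bad p b = true).card) :=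
                Nat.mul_le_mul_left _ hb'
            _ = 2 * q * K * (S.filter fun p => bad p b = true).card := by ring
      _ ≤ _ := Finset.sum_le_sum_of_subset (Finset.filter_subset _ _)
  have h2 : ∑ p ∈ S, (2 * q * K * ((univ : Finset β).filter fun b => bad p b = true).card + e) ≤
      ∑ _p ∈ S, N := Finset.sum_le_sum h
  rw [Finset.sum_add_distrib, Finset.sum_const, Finset.sum_const, smul_eq_mul, smul_eq_mul] at h2
  calc 2 * q * w * ((univ : Finset β).filter fun b =>
        w ≤ K * (S.filter fun p => bad p b = true).card).card + e * S.card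
      ≤ (∑ p ∈ S, 2 * q * K * ((univ : Finset β).filter fun b => bad p b = true).card) +
        e * S.card := Nat.add_le_add_right h1 _
    _ ≤ S.card * N := by rw [Nat.mul_comm e]; exact h2

/-- The union bound, strict in the first family. -/
theorem ub {β : Type} [Fintype β] (q : ℕ) (hq : 0 < q) (B1 B2 : Fin q → Finset β)
    (h1 : ∀ j, 2 * q * (B1 j).card < Fintype.card β) (h2 : ∀ j, 2 * q * (B2 j).card ≤ Fintype.card β) :
    ∃ b : β, ∀ j, b ∉ B1 j ∧ b ∉ B2 j := by
  classical
  by_contra hcon
  push Not at hcon
  have hsub : (univ : Finset β) ⊆ (univ : Finset (Fin q)).biUnion fun j => B1 j ∪ B2 j := by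
    intro b _
    obtain ⟨j, hj⟩ := hcon b
    rw [Finset.mem_biUnion]
    refine ⟨j, Finset.mem_univ _, ?_⟩
    rw [Finset.mem_union]
    by_cases hb : b ∈ B1 j
    · exact Or.inl hb
    · exact Or.inr (hj hb)
  have hc : Fintype.card β ≤ ∑ j : Fin q, ((B1 j).card + (B2 j).card) := by
    calc Fintype.card β = (univ : Finset β).card := Finset.card_univ.symm
      _ ≤ ((univ : Finset (Fin q)).biUnion fun j => B1 j ∪ B2 j).card := Finset.card_le_card hsub
      _ ≤ ∑ j : Fin q, (B1 j ∪ B2 j).card := Finset.card_biUnion_le
      _ ≤ _ := Finset.sum_le_sum fun j _ => Finset.card_union_le _ _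
  have hs : ∑ j : Fin q, (2 * q * (B1 j).card + 2 * q * (B2 j).card) <
      ∑ _j : Fin q, (Fintype.card β + Fintype.card β) := by
    have : Nonempty (Fin q) := ⟨⟨0, hq⟩⟩
    exact Finset.sum_lt_sum_of_nonempty Finset.univ_nonempty
      fun j _ => Nat.add_lt_add_of_lt_of_le (h1 j) (h2 j)
  have he : ∑ j : Fin q, (2 * q * (B1 j).card + 2 * q * (B2 j).card) =
      2 * q * ∑ j : Fin q, ((B1 j).card + (B2 j).card) := by
    rw [Finset.mul_sum]
    exact Finset.sum_congr rfl fun j _ => by ring
  rw [he, Finset.sum_const, Finset.card_univ, Fintype.card_fin, smul_eq_mul] at hs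
  have h3 : 2 * q * Fintype.card β ≤ 2 * q * ∑ j : Fin q, ((B1 j).card + (B2 j).card) :=
    Nat.mul_le_mul_left _ hc
  have h4 : q * (Fintype.card β + Fintype.card β) = 2 * q * Fintype.card β := by ring
  omega

/-- The union bound for two thirds. -/
theorem ut {α : Type} [Fintype α] (q : ℕ) (hq : 0 < q) (B : Fin q → Finset α) (G : Finset α)
    (h : ∀ j, 3 * q * (B j).card ≤ Fintype.card α) (hG : ∀ a, (∀ j, a ∉ B j) → a ∈ G) :
    2 * Fintype.card α ≤ 3 * G.card := by
  classical
  have hsub : (univ : Finset α) ⊆ G ∪ (univ : Finset (Fin q)).biUnion B := by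
    intro a _
    rw [Finset.mem_union, Finset.mem_biUnion]
    by_cases ha : ∀ j, a ∉ B j
    · exact Or.inl (hG a ha)
    · push Not at ha
      obtain ⟨j, hj⟩ := ha
      exact Or.inr ⟨j, Finset.mem_univ _, hj⟩
  have hc : Fintype.card α ≤ G.card + ∑ j : Fin q, (B j).card := by
    calc Fintype.card α = (univ : Finset α).card := Finset.card_univ.symm
      _ ≤ (G ∪ (univ : Finset (Fin q)).biUnion B).card := Finset.card_le_card hsub
      _ ≤ G.card + ((univ : Finset (Fin q)).biUnion B).card := Finset.card_union_le _ _
      _ ≤ _ := Nat.add_le_add_left Finset.card_biUnion_le _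
  have hs : ∑ j : Fin q, 3 * q * (B j).card ≤ ∑ _j : Fin q, Fintype.card α :=
    Finset.sum_le_sum fun j _ => h j
  rw [← Finset.mul_sum, Finset.sum_const, Finset.card_univ, Fintype.card_fin, smul_eq_mul] at hs
  have h5 : 3 * (∑ j : Fin q, (B j).card) ≤ Fintype.card α := by
    have h6 : q * (3 * ∑ j : Fin q, (B j).card) ≤ q * Fintype.card α := by
      calc q * (3 * ∑ j : Fin q, (B j).card) = 3 * q * ∑ j : Fin q, (B j).card := by ring
        _ ≤ _ := hs
    exact Nat.le_of_mul_le_mul_left h6 hq
  omega

end STQM

open Classical in
theorem STQ_thm : Stmt_STQ := by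
  intro q W X P Q _ _ Pt _ top pos neg f c g A D θ hq hPt hQ hfm hcp hct hcg hf hc hA hDp hDn
  -- the points of type 1
  let I : (j : Fin q) → Finset (Pt j) := fun j => (univ : Finset (Pt j)).filter fun p =>
    16 * q * 2 ^ W * ((univ : Finset Q).filter fun b => f j p (neg b) = false).card <
      Fintype.card Q
  -- (1)
  obtain ⟨b, hb⟩ : ∃ b : Q, ∀ j : Fin q,
      8 * 2 ^ W * ((univ : Finset (Pt j)).filter fun p => c j p (neg b) = false).card <
        Fintype.card (Pt j) ∧
      8 * 2 ^ W * ((I j).filter fun p => f j p (neg b) = false).card < Fintype.card (Pt j) := by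
    have h1 := fun j : Fin q => STQM.dc (univ : Finset (Pt j)) (fun p (b : Q) => !(c j p (neg b)))
      q (8 * 2 ^ W) (Fintype.card (Pt j)) 1 (Fintype.card Q) (by
        intro p _
        have h := hc j p
        simp only [Bool.not_eq_true']
        have e : 2 * q * (8 * 2 ^ W) = 16 * q * 2 ^ W := by ring
        rw [e]
        omega)
    have h2 := fun j : Fin q => STQM.dc (I j) (fun p (b : Q) => !(f j p (neg b)))
      q (8 * 2 ^ W) (Fintype.card (Pt j)) 0 (Fintype.card Q) (by
        intro p hp
        have h := (Finset.mem_filter.1 hp).2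
        simp only [Bool.not_eq_true']
        have e : 2 * q * (8 * 2 ^ W) = 16 * q * 2 ^ W := by ring
        rw [e]
        omega)
    simp only [Bool.not_eq_true'] at h1 h2
    obtain ⟨b, hb⟩ := STQM.ub q hq
      (fun j => (univ : Finset Q).filter fun b => Fintype.card (Pt j) ≤
        8 * 2 ^ W * ((univ : Finset (Pt j)).filter fun p => c j p (neg b) = false).card)
      (fun j => (univ : Finset Q).filter fun b => Fintype.card (Pt j) ≤
        8 * 2 ^ W * ((I j).filter fun p => f j p (neg b) = false).card)
      (by
        intro j
        have h := h1 j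
        rw [Finset.card_univ, one_mul] at h
        have hw := hPt j
        set y := ((univ : Finset Q).filter fun b => Fintype.card (Pt j) ≤
          8 * 2 ^ W * ((univ : Finset (Pt j)).filter fun p => c j p (neg b) = false).card).card
        have h' : Fintype.card (Pt j) * (2 * q * y + 1) ≤ Fintype.card (Pt j) * Fintype.card Q := by
          calc Fintype.card (Pt j) * (2 * q * y + 1)
              = 2 * q * Fintype.card (Pt j) * y + Fintype.card (Pt j) := by ring
            _ ≤ _ := h
        exact Nat.le_of_mul_le_mul_left h' hw)
      (by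
        intro j
        have h := h2 j
        rw [zero_mul, add_zero] at h
        have hw := hPt j
        set y := ((univ : Finset Q).filter fun b => Fintype.card (Pt j) ≤
          8 * 2 ^ W * ((I j).filter fun p => f j p (neg b) = false).card).card
        have hI : (I j).card ≤ Fintype.card (Pt j) := Finset.card_le_univ _
        have h' : Fintype.card (Pt j) * (2 * q * y) ≤ Fintype.card (Pt j) * Fintype.card Q := by
          calc Fintype.card (Pt j) * (2 * q * y)
              = 2 * q * Fintype.card (Pt j) * y := by ring
            _ ≤ (I j).card * Fintype.card Q := h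
            _ ≤ _ := Nat.mul_le_mul_right _ hI
        exact Nat.le_of_mul_le_mul_left h' hw)
    refine ⟨b, fun j => ⟨?_, ?_⟩⟩
    · have h := (hb j).1
      rw [Finset.mem_filter] at h
      by_contra hcon
      exact h ⟨Finset.mem_univ _, not_lt.1 hcon⟩
    · have h := (hb j).2
      rw [Finset.mem_filter] at h
      by_contra hcon
      exact h ⟨Finset.mem_univ _, not_lt.1 hcon⟩
  -- (2)
  let J : (j : Fin q) → Finset (Pt j) := fun j => (univ : Finset (Pt j)).filter fun p => p ∉ I j
  let S : (j : Fin q) → P → ℕ := fun j a => ((J j).filter fun p => f j p (pos a) = true).card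
  let M : Fin q → ℕ := fun j => ((J j).filter fun p => f j p top = true).card
  refine STQM.ut q hq (fun j => (univ : Finset P).filter fun a => M j < 4 * S j a) _ ?_ ?_
  · intro j
    have hSM : ∀ a, S j a ≤ M j := by
      intro a
      apply Finset.card_le_card
      intro p hp
      rw [Finset.mem_filter] at hp ⊢
      exact ⟨hp.1, hfm j p _ hp.2⟩
    have hsum : 12 * q * ∑ a : P, S j a ≤ M j * Fintype.card P := by
      have e1 : ∑ a : P, S j a =
          ∑ p ∈ (J j).filter (fun p => f j p top = true),
            ((univ : Finset P).filter fun a => f j p (pos a) = true).card := by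
        have e2 : ∀ a, S j a = ∑ p ∈ (J j).filter (fun p => f j p top = true),
            if f j p (pos a) = true then 1 else 0 := by
          intro a
          rw [← Finset.card_filter, Finset.filter_filter]
          change ((J j).filter fun p => f j p (pos a) = true).card = _
          congr 1
          apply Finset.filter_congr
          intro p _
          exact ⟨fun h => ⟨hfm j p _ h, h⟩, fun h => h.2⟩
        rw [Finset.sum_congr rfl fun a _ => e2 a, Finset.sum_comm]
        exact Finset.sum_congr rfl fun p _ => (Finset.card_filter _ _).symm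
      rw [e1, Finset.mul_sum]
      calc ∑ p ∈ (J j).filter (fun p => f j p top = true),
            12 * q * ((univ : Finset P).filter fun a => f j p (pos a) = true).card
          ≤ ∑ _p ∈ (J j).filter (fun p => f j p top = true), Fintype.card P := by
            refine Finset.sum_le_sum fun p hp => ?_
            have hp1 : p ∈ J j := (Finset.mem_filter.1 hp).1
            have hp2 : p ∉ I j := (Finset.mem_filter.1 hp1).2
            rcases hf j p with h | h
            · exact absurd (Finset.mem_filter.2 ⟨Finset.mem_univ p, h⟩) hp2
            · exact h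
        _ = M j * Fintype.card P := by rw [Finset.sum_const, smul_eq_mul]
    by_cases hM : M j = 0
    · have he : ((univ : Finset P).filter fun a => M j < 4 * S j a) = ∅ := by
        rw [Finset.filter_eq_empty_iff]
        intro a _ h
        have := hSM a
        omega
      change 3 * q * ((univ : Finset P).filter fun a => M j < 4 * S j a).card ≤ _
      rw [he, Finset.card_empty, mul_zero]
      exact Nat.zero_le _
    · have hMp : 0 < M j := Nat.pos_of_ne_zero hM
      change 3 * q * ((univ : Finset P).filter fun a => M j < 4 * S j a).card ≤ _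
      set y := ((univ : Finset P).filter fun a => M j < 4 * S j a).card with hy
      have h1 : M j * y ≤ 4 * ∑ a : P, S j a := by
        calc M j * y = ∑ _a ∈ (univ : Finset P).filter (fun a => M j < 4 * S j a), M j := by
              rw [Finset.sum_const, smul_eq_mul, Nat.mul_comm]
          _ ≤ ∑ a ∈ (univ : Finset P).filter (fun a => M j < 4 * S j a), 4 * S j a :=
              Finset.sum_le_sum fun a ha => (Finset.mem_filter.1 ha).2.le
          _ ≤ ∑ a : P, 4 * S j a := Finset.sum_le_sum_of_subset (Finset.filter_subset _ _)
          _ = _ := by rw [← Finset.mul_sum]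
      have h2 : M j * (3 * q * y) ≤ M j * Fintype.card P := by
        calc M j * (3 * q * y) = 3 * q * (M j * y) := by ring
          _ ≤ 3 * q * (4 * ∑ a : P, S j a) := Nat.mul_le_mul_left _ h1
          _ = 12 * q * ∑ a : P, S j a := by ring
          _ ≤ _ := hsum
      exact Nat.le_of_mul_le_mul_left h2 hMp
  · -- (3)
    intro a ha
    rw [Finset.mem_filter]
    refine ⟨Finset.mem_univ _, ?_⟩
    have hS : ∀ j, 4 * S j a ≤ M j := by
      intro j
      have h := ha j
      rw [Finset.mem_filter] at h
      by_contra hcon
      exact h ⟨Finset.mem_univ _, not_le.1 hcon⟩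
    obtain ⟨j, hj⟩ : ∃ j, ¬ (A j (pos a) ↔ A j (neg b)) := by
      by_contra hcon
      push Not at hcon
      have : (fun j => A j (pos a)) = fun j => A j (neg b) := funext fun j => propext (hcon j)
      exact hDn b (this ▸ hDp a)
    have hw : (0 : ℝ) < Fintype.card (Pt j) := by exact_mod_cast hPt j
    have h2W : (0 : ℝ) < 2 ^ W := by positivity
    set w : ℝ := (Fintype.card (Pt j) : ℝ) with hwdef
    set u : ℝ := w / 2 ^ W with hu
    have hupos : 0 < u := div_pos hw h2W
    have hθu : (θ j + 1 / 2 ^ W) * w = θ j * w + u := by rw [hu]; ring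
    -- the small numbers
    have hb1 : 8 * (((univ : Finset (Pt j)).filter fun p => c j p (neg b) = false).card : ℝ) < u := by
      have h := (hb j).1
      have h' : (8 : ℝ) * 2 ^ W *
          (((univ : Finset (Pt j)).filter fun p => c j p (neg b) = false).card : ℝ) < w := by
        rw [hwdef]
        exact_mod_cast h
      rw [hu, lt_div_iff₀ h2W]
      linarith
    have hb2 : 8 * (((I j).filter fun p => f j p (neg b) = false).card : ℝ) < u := by
      have h := (hb j).2
      have h' : (8 : ℝ) * 2 ^ W * (((I j).filter fun p => f j p (neg b) = false).card : ℝ) < w := by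
        rw [hwdef]
        exact_mod_cast h
      rw [hu, lt_div_iff₀ h2W]
      linarith
    set δ1 := ((univ : Finset (Pt j)).filter fun p => c j p (neg b) = false).card with hδ1
    set δ2 := ((I j).filter fun p => f j p (neg b) = false).card with hδ2
    have hgt : cnt (g j) top = cnt (f j) top := by
      unfold cnt
      congr 1
      apply Finset.filter_congr
      intro p _
      rw [hcg j p top (hct j p)]
    have hgp : cnt (g j) (pos a) = cnt (f j) (pos a) := by
      unfold cnt
      congr 1
      apply Finset.filter_congr
      intro p _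
      rw [hcg j p (pos a) (hcp j p a)]
    have hfmono : ∀ x, cnt (f j) x ≤ cnt (f j) top := by
      intro x
      apply Finset.card_le_card
      intro p hp
      rw [Finset.mem_filter] at hp ⊢
      exact ⟨hp.1, hfm j p x hp.2⟩
    have hgf : cnt (g j) (neg b) ≤ cnt (f j) (neg b) + δ1 := by
      unfold cnt
      refine le_trans (Finset.card_le_card ?_) (Finset.card_union_le _ _)
      intro p hp
      rw [Finset.mem_union, Finset.mem_filter, Finset.mem_filter]
      by_cases hcc : c j p (neg b) = true
      · left
        refine ⟨Finset.mem_univ _, ?_⟩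
        rw [hcg j p (neg b) hcc]
        exact (Finset.mem_filter.1 hp).2
      · right
        exact ⟨Finset.mem_univ _, by simpa using hcc⟩
    have hfg : cnt (f j) (neg b) ≤ cnt (g j) (neg b) + δ1 := by
      unfold cnt
      refine le_trans (Finset.card_le_card ?_) (Finset.card_union_le _ _)
      intro p hp
      rw [Finset.mem_union, Finset.mem_filter, Finset.mem_filter]
      by_cases hcc : c j p (neg b) = true
      · left
        refine ⟨Finset.mem_univ _, ?_⟩
        rw [← hcg j p (neg b) hcc]
        exact (Finset.mem_filter.1 hp).2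
      · right
        exact ⟨Finset.mem_univ _, by simpa using hcc⟩
    refine ⟨j, ?_⟩
    by_cases hAn : A j (neg b)
    · have hAp : ¬ A j (pos a) := fun h => hj ⟨fun _ => hAn, fun _ => h⟩
      refine ⟨?_, fun h => absurd h hAp⟩
      by_contra hAt
      have h1 := (hA j top).2 hAt
      have h2 := (hA j (neg b)).1 hAn
      rw [← hwdef, hθu] at h2
      have h3 : (cnt (g j) (neg b) : ℝ) ≤ cnt (f j) (neg b) + δ1 := by exact_mod_cast hgf
      have h4 : (cnt (f j) (neg b) : ℝ) ≤ cnt (f j) top := by exact_mod_cast hfmono _
      rw [hgt] at h1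
      linarith
    · have hAp : A j (pos a) := by
        by_contra h
        exact hj ⟨fun h' => absurd h' h, fun h' => absurd h' hAn⟩
      have h1 := (hA j (neg b)).2 hAn
      rw [← hwdef] at h1
      have h2 := (hA j (pos a)).1 hAp
      rw [← hwdef, hθu] at h2
      have hI : (I j).card ≤ cnt (f j) (neg b) + δ2 := by
        unfold cnt
        refine le_trans (Finset.card_le_card ?_) (Finset.card_union_le _ _)
        intro p hp
        by_cases hff : f j p (neg b) = true
        · exact Finset.mem_union.2 (Or.inl (Finset.mem_filter.2 ⟨Finset.mem_univ _, hff⟩))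
        · exact Finset.mem_union.2 (Or.inr (Finset.mem_filter.2 ⟨hp, by simpa using hff⟩))
      have hpa : cnt (f j) (pos a) ≤ ((I j).filter fun p => f j p (pos a) = true).card + S j a := by
        unfold cnt
        refine le_trans (Finset.card_le_card ?_) (Finset.card_union_le _ _)
        intro p hp
        by_cases hpI : p ∈ I j
        · exact Finset.mem_union.2 (Or.inl (Finset.mem_filter.2 ⟨hpI, (Finset.mem_filter.1 hp).2⟩))
        · exact Finset.mem_union.2 (Or.inr (Finset.mem_filter.2
            ⟨Finset.mem_filter.2 ⟨Finset.mem_univ _, hpI⟩, (Finset.mem_filter.1 hp).2⟩))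
      have hIa : ((I j).filter fun p => f j p (pos a) = true).card ≤ (I j).card :=
        Finset.card_filter_le _ _
      have htop : ((I j).filter fun p => f j p (pos a) = true).card + M j ≤ cnt (f j) top := by
        unfold cnt
        rw [← Finset.card_union_of_disjoint]
        · apply Finset.card_le_card
          intro p hp
          rcases Finset.mem_union.1 hp with hp | hp
          · exact Finset.mem_filter.2 ⟨Finset.mem_univ _, hfm j p _ (Finset.mem_filter.1 hp).2⟩
          · exact Finset.mem_filter.2 ⟨Finset.mem_univ _, (Finset.mem_filter.1 hp).2⟩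
        · rw [Finset.disjoint_left]
          intro p hp hp'
          exact (Finset.mem_filter.1 (Finset.mem_filter.1 hp').1).2 (Finset.mem_filter.1 hp).1
      have r1 : ((I j).card : ℝ) ≤ cnt (f j) (neg b) + δ2 := by exact_mod_cast hI
      have r2 : (cnt (f j) (neg b) : ℝ) ≤ cnt (g j) (neg b) + δ1 := by exact_mod_cast hfg
      have r3 : (cnt (f j) (pos a) : ℝ) ≤ ((I j).filter fun p => f j p (pos a) = true).card + S j a := by
        exact_mod_cast hpa
      have r4 : (((I j).filter fun p => f j p (pos a) = true).card : ℝ) ≤ (I j).card := by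
        exact_mod_cast hIa
      have r5 : (((I j).filter fun p => f j p (pos a) = true).card : ℝ) + M j ≤ cnt (f j) top := by
        exact_mod_cast htop
      have r6 : (4 : ℝ) * S j a ≤ M j := by exact_mod_cast hS j
      have key : 2 * ((cnt (g j) (pos a) : ℝ) - θ j * w) ≤ cnt (g j) top - θ j * w := by
        rw [hgt, hgp] at *
        linarith
      refine ⟨?_, fun _ => key⟩
      by_contra hAt
      have h5 := (hA j top).2 hAt
      rw [← hwdef] at h5
      linarith

end Pool.Agent.NPQ
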