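import Pool.Agent.NPQ.Stmts
import Pool.Agent.NegLim.Transfer

/-!
# The statements of the modules of the project NPQ, second version

The number of the answers may be almost the number of the graphs: NOT gates are treated by a potential for
every circuit, and in one step a single answer is enough. Module `NPQ_X`: `theorem Pool.Agent.NPQ.X_thm :
Stmt_X` in `Pool/Agent/NPQ/X.lean`; a statement of the form `Stmt_A → …` may use `Stmt_A` as a hypothesis. The
whole proof is described in `Pool/Agent/NPQ/PAPER2.md`.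
-/

set_option autoImplicit false

namespace Pool.Agent.NPQ

open Finset Pool.Agent.NegLim Pool.Agent.NLM Pool.Agent.NEG72 Pool.Agent.NPP

/-- The potential of a circuit: it grows if the outputs of the NOT gates change, otherwise with the level of
its answer. -/
noncomputable def pot {E : Type} {s t : ℕ} (W : ℕ) (θ : ℝ) (C : NCirc E s t)
    (A : (E → Bool) → Prop) (x : E → Bool) : ℕ :=
  (W + 3) * (2 ^ s * (2 ^ C.nots - 1) - Phi C x) +
    lev W θ ((acc C x : ℝ) / 2 ^ (s + t)) (A x)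

/-- GUE (90 lines). Guessed outputs of the NOT gates, for inputs below `R`. PROOF. As in `NPP/TRF2.lean`,
`NPP/TRF.lean` (`DD`, `monSize_DD`, copy) with a general substitution `σ`: with `z u = guess C R u`
(`NegLim/Transfer.lean`) let `c (u, w) x = chkA (z u) C.gates (σ x) u w` and
`f (u, w) x = c (u, w) x && C.out.val (σ x) u w (gvals (z u) C.gates (σ x) u w)`; `prog hσ (z u) C.gates u w
false` gives the programs (at most `G` gates for `c`, one more for `f`; the output wire as in `monSize_DD`).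
If `Phi C (σ x) = Phi C R` then all `num` are equal (`num_eq_of_Phi`, `σ x ≤ R`), so `good_guess` gives `Good`
for `σ x`, and `chkA_of_good`. If `c = true` then `keyA` (with `σ x ≤ R` and `Good` for `R` by
`good_guess C hN fun _ => rfl`) gives `gvals = vals` at `σ x`, so `f = outp`. -/
def Stmt_GUE : Prop :=
  ∀ (E V : Type) (s t : ℕ) (C : NCirc E s t), C.NotsFree →
    ∀ σ : (V → Bool) → E → Bool, IsProj σ → ∀ R : E → Bool,
    (∀ x e, σ x e = true → R e = true) →
    ∃ f c : (Fin s → Bool) × (Fin t → Bool) → (V → Bool) → Bool,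
      (∀ p, MonSize (f p) (C.gates.length + 1)) ∧ (∀ p, MonSize (c p) (C.gates.length + 1)) ∧
      (∀ x, Phi C (σ x) = Phi C R → ∀ p, c p x = true) ∧
      ∀ x p, c p x = true → f p x = outp C (σ x) p.1 p.2

/-- PTR (100 lines). The potential. PROOF. (1) The first summand is at most
`(W + 3) * (2 ^ s * (2 ^ r - 1))`, the second one at most `W + 2` (LEV (1); `acc ≤ 2 ^ (s + t)`), and
`W + 2 < (W + 3) * 2 ^ s`. Let `x ≤ x'`. `Phi C x' ≤ Phi C x ≤ 2 ^ s * (2 ^ r - 1)` (`Phi_mono`, `Phi_le`).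
(2) If `Phi C x' ≠ Phi C x` then the first summand grows by at least `W + 3` and the level falls by at most
`W + 2` (LEV (1)). If `Phi` is equal: by `num_eq_of_Phi` and `good_guess` (guesses from `x'`) the circuit
is `Good` at `x` and at `x'` with the same guesses, so by `Good.gvals`, `gvals_mono`, `Wire.val_mono` (as at the
end of the proof of `trf2` in `NPP/TRF2.lean`) `outp C x u w = true → outp C x' u w = true`, so
`acc C x ≤ acc C x'`, and `A x → A x'` by `Gap` (`acc C x' ≥ acc C x ≥ (θ + 1 / 2 ^ W) 2 ^ (s + t)` is larger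
than `θ * 2 ^ (s + t)`); LEV (2). (3) LEV (3), divide by `2 ^ (s + t)`. -/
def Stmt_PTR : Prop := Stmt_LEV →
  ∀ (E : Type) (s t W : ℕ) (θ : ℝ) (C : NCirc E s t) (A : (E → Bool) → Prop), C.NotsFree →
    -(1 / 2 ^ W) ≤ θ → Gap C θ (1 / 2 ^ W) A →
    (∀ x, pot W θ C A x ≤ (W + 3) * 2 ^ (s + C.nots)) ∧
    ∀ x x' : E → Bool, (∀ e, x e = true → x' e = true) →
      pot W θ C A x ≤ pot W θ C A x' ∧
      (Phi C x ≠ Phi C x' → pot W θ C A x + 1 ≤ pot W θ C A x') ∧
      (A x' → (A x → 2 * ((acc C x : ℝ) - θ * 2 ^ (s + t)) ≤ acc C x' - θ * 2 ^ (s + t)) →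
        pot W θ C A x + 1 ≤ pot W θ C A x')

open Classical in
/-- STR (220 lines). One step. `g j p` are the outputs, `c j p` the checks, `f j p` the monotone functions,
`sm j a`: the NOT gates of the circuit `j` have the same outputs at `pos a` and at `top`. PROOF. Write
`N j x = cnt (g j) x`, `w j = card (Pt j)`, `δ j = w j / (8 * 2 ^ W)`, `L` = the set of the `a` in the claim.
(0) Let `T` be the set of the `a` with `sm j a` for all `j`. All `a ∉ T` are in `L`, so if
`3 * card T ≤ card P` we are done. Otherwise `12 * #{a | c j p (pos a) = true} ≥ 12 * card T > card P`, so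
for all `c j p` the first alternative holds.
(1) For every `j` let `I j` be the set of the `p` for which the first alternative holds for `f j p` (type 1);
for the others the second one holds (type 2). As in STQ (`NPQ/Stmts.lean`; if `NPQ/STQ.lean` is there, copy):
there is one `b` with, for all `j`, fewer than `δ j` of the `p` with `c j p (neg b) = false` and fewer than
`δ j` of the `p ∈ I j` with `f j p (neg b) = false` (double counting and `2 q` exceptional sets, each of them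
smaller than `card Q / (2 q)`).
(2) If for all `j`, `a` with `sm j a` and `A j (pos a)` also `A j (neg b)`: let `a ∈ T`; `D` is true at
`pos a` and false at `neg b`, so `A j (pos a)` and `A j (neg b)` are not equivalent for some `j`, so
`A j (neg b)` is true and `A j (pos a)` is false. Then `cnt (f j) top ≥ cnt (f j) (neg b) ≥ N j (neg b) - δ j
≥ (θ j + 1/2^W - 1/(8*2^W)) w j > θ j * w j` and `N j top = cnt (f j) top`, so `A j top`, and `a ∈ L`. So all
`a` are in `L`.
(3) Otherwise fix `j` and `a₀` with `sm j a₀`, `A j (pos a₀)` and not `A j (neg b)`. Then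
`card (I j) ≤ cnt (f j) (neg b) + δ j ≤ N j (neg b) + 2 δ j ≤ θ j w j + 2 δ j`. For any `a` let `S a` be the
number of the `p ∉ I j` with `f j p (pos a) = true` and `M` the number of the `p ∉ I j` with
`f j p top = true`; `S a ≤ M`. As `N j (pos a₀) = cnt (f j) (pos a₀) ≥ θ j w j + 8 δ j`: `M ≥ S a₀ ≥ 6 δ j`,
and `N j top = cnt (f j) top ≥ cnt (f j) (pos a₀) > θ j w j`, so `A j top`. The sum over `a` of the `S a` is at
most `M * card P / 12`, so `4 * S a ≤ M` for all `a` except for at most `card P / 3`. Let `a` be such that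
`4 * S a ≤ M`; claim: `a ∈ L`. If not `sm j a` or not `A j (pos a)`: clear. Otherwise `N j (pos a) =
cnt (f j) (pos a) ≤ card (I j) + S a ≤ θ j w j + 2 δ j + M / 4` and `e = N j (pos a) - θ j w j ≥ 8 δ j`, so
`M ≥ 24 δ j` and `e ≤ M / 12 + M / 4 = M / 3`, and `N j top ≥ N j (pos a) + M - S a ≥ N j (pos a) + (3/4) M`,
so `N j top - θ j w j ≥ e + (9/4) e ≥ 2 e`. -/
def Stmt_STR : Prop :=
  ∀ (q W : ℕ) (X P Q : Type) [Fintype P] [Fintype Q] (Pt : Fin q → Type) [∀ j, Fintype (Pt j)]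
    (top : X) (pos : P → X) (neg : Q → X) (f c g : (j : Fin q) → Pt j → X → Bool)
    (sm : Fin q → P → Prop) (A : Fin q → X → Prop) (D : (Fin q → Prop) → Prop) (θ : Fin q → ℝ),
    0 < q → (∀ j, 0 < Fintype.card (Pt j)) → 0 < Fintype.card Q →
    (∀ j p x, f j p x = true → f j p top = true) →
    (∀ j a, sm j a → ∀ p, c j p (pos a) = true) → (∀ j p, c j p top = true) →
    (∀ j p x, c j p x = true → f j p x = g j p x) →
    (∀ j p, 16 * q * 2 ^ W * ((univ : Finset Q).filter fun b => f j p (neg b) = false).card <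
        Fintype.card Q ∨
      12 * ((univ : Finset P).filter fun a => f j p (pos a) = true).card ≤ Fintype.card P) →
    (∀ j p, 16 * q * 2 ^ W * ((univ : Finset Q).filter fun b => c j p (neg b) = false).card <
        Fintype.card Q ∨
      12 * ((univ : Finset P).filter fun a => c j p (pos a) = true).card ≤ Fintype.card P) →
    (∀ j x, (A j x → (θ j + 1 / 2 ^ W) * Fintype.card (Pt j) ≤ cnt (g j) x) ∧
      (¬ A j x → (cnt (g j) x : ℝ) ≤ θ j * Fintype.card (Pt j))) →
    (∀ a, D fun j => A j (pos a)) → (∀ b, ¬ D fun j => A j (neg b)) →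
    2 * Fintype.card P ≤ 3 * ((univ : Finset P).filter fun a => ∃ j, ¬ sm j a ∨ (A j top ∧
      (A j (pos a) → 2 * ((cnt (g j) (pos a) : ℝ) - θ j * Fintype.card (Pt j)) ≤
        cnt (g j) top - θ j * Fintype.card (Pt j)))).card

/-- CMR (220 lines). The assembly. PROOF (compare `NPQ/CMQ.lean`). `Y = Edge v → Bool`, `top` = the complete
graph, `pos = posG hv`; for `z : Fin m → Y` write `z' = fun e => z e.1 e.2`,
`Ψ z = ∑ j, pot W (θ j) (C j) (A j) z'`. CHN with `n = m` and `K = (W + 3) * ∑ j, 2 ^ (s j + nots)` (PTR (1)).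
Let all `z i` be `top` or positive tests, `i` fixed, `σ x = (update z i x)'` (a substitution), `R = σ top`;
all `σ (pos a)` and `σ top` are in `AllClq` (as in CMQ). `σ (pos a) ≤ R`, so PTR (2) gives the monotony. Step:
GUE for every `j` gives `f j`, `c j`; STR with `X = Y`, `Pt j` = the witnesses (`card = 2 ^ (s j + t j)`),
`g j p x = outp (C j) (σ x) p.1 p.2` (so `cnt (g j) x = acc (C j) (σ x)`),
`sm j a` = `Phi (C j) (σ (pos a)) = Phi (C j) R`, answers `A j (σ x)`, `Q` = the colourings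
`Fin v → Fin (k - 1)`, `neg = negIn` (`σ (negIn χ)` is not in `AllClq`, as in CMQ). `f j p` is monotone
(`MonSize.monotone`), every graph is `≤ top`. The two alternatives for `f j p` and `c j p` are those of DI1
with `D = 12` (`0 < (k - 1) ^ v`, last numerical hypothesis). The `a` counted in STR satisfy the claim of
CHN: for the `j` given there PTR (2) or (3), for the others PTR (2) (first part). -/
def Stmt_CMR : Prop := Stmt_LEV → Stmt_DI1 → Stmt_CHN → Stmt_GUE → Stmt_PTR → Stmt_STR →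
  ∀ (m v k b h p T q W : ℕ) (_ : k * b ≤ v) (s t : Fin q → ℕ)
    (C : (j : Fin q) → NCirc (Fin m × Edge v) (s j) (t j))
    (A : Fin q → (Fin m × Edge v → Bool) → Prop) (D : (Fin q → Prop) → Prop) (θ : Fin q → ℝ),
    0 < q → 1 ≤ h → 2 * h * (2 * h - 1) ≤ k - 1 → 2 ≤ p → 4 * (p * (2 * h)) ≤ b →
    24 * T ≤ 2 ^ (2 * h) → 48 * (2 * h * p) ^ 2 ≤ b ^ 2 →
    16 * q * 2 ^ W * (T * (4 * (p * (2 * h)) ^ (4 * h))) < 2 ^ p →
    (∀ j, (C j).NotsFree) → (∀ j, (C j).gates.length + 1 ≤ T) → (∀ j, -(1 / 2 ^ W) ≤ θ j) →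
    (∀ j, Gap (C j) (θ j) (1 / 2 ^ W) (A j)) → (∀ z, AllClq m v k z ↔ D fun j => A j z) →
    2 * m ≤ 3 * ((W + 3) * ∑ j, 2 ^ (s j + (C j).nots))

/-- NMR (150 lines). The parameters. PROOF. Compare `Pool.Agent.NPP.LOW2M.params` (`NPP/LOW2.lean`, copy; the
same `h`, `p`, `b`): `y = v ^ (ε / 40)`, `P = v ^ (1 - ε)`, `h = ⌊y ^ 5 / 4⌋₊`, `p = ⌊P * y ^ 20⌋₊`,
`b = ⌊P * y ^ 30⌋₊` (`k ≤ y ^ 10`, `v = P * y ^ 40`). `48 (2 h p) ^ 2 ≤ 12 (y ^ 5 P y ^ 20) ^ 2 ≤ b ^ 2`.
`q * 2 ^ W ≤ 2 ^ P`, `G + 1 ≤ 2 ^ (y ^ 4 + 1)` (`G < 2 ^ (y ^ 4)` and `1 ≤ 2 ^ (y ^ 4)`), `2 h p ≤ v` and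
`v ≤ 2 ^ (y + 1)`, so the left-hand side of the last inequality is less than `2` to the power
`4 + P + y ^ 4 + 1 + 2 + y ^ 5 * (y + 1) < p` for large `y`. -/
def Stmt_NMR : Prop :=
  ∀ ε : ℝ, 0 < ε → ε ≤ 1 → ∃ v₀ : ℕ, ∀ v ≥ v₀, ∀ k q W G : ℕ, k = ⌊(v : ℝ) ^ (ε / 4)⌋₊ → 1 ≤ q →
    (q : ℝ) * 2 ^ W ≤ (2 : ℝ) ^ ((v : ℝ) ^ (1 - ε)) →
    (G : ℝ) < (2 : ℝ) ^ ((v : ℝ) ^ (ε / 10)) →
    ∃ h p b : ℕ, k * b ≤ v ∧ 1 ≤ h ∧ 2 * h * (2 * h - 1) ≤ k - 1 ∧ 2 ≤ p ∧
      4 * (p * (2 * h)) ≤ b ∧ 24 * (G + 1) ≤ 2 ^ (2 * h) ∧ 48 * (2 * h * p) ^ 2 ≤ b ^ 2 ∧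
      16 * q * 2 ^ W * ((G + 1) * (4 * (p * (2 * h)) ^ (4 * h))) < 2 ^ p

end Pool.Agent.NPQ
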