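import Pool.Agent.NPQ.Stm2

/-!
# The statements of the modules of the project NPQ, third version

The last step of the computation is a circuit which reads the input and all answers (nonadaptive queries to
PP). Module `NPQ_X`: `theorem Pool.Agent.NPQ.X_thm : Stmt_X` in `Pool/Agent/NPQ/X.lean`; a statement of the form
`Stmt_A → …` may use `Stmt_A` as a hypothesis. The whole proof is described in `Pool/Agent/NPQ/PAPER3.md`.
-/

set_option autoImplicit false

namespace Pool.Agent.NPQ

open Finset Pool.Agent.NegLim Pool.Agent.NLM Pool.Agent.NEG72 Pool.Agent.NPP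

open Classical in
/-- STS (250 lines). One step, with a last circuit `g₀` which reads the answers. Compare STR
(`NPQ/Stm2.lean`; its proof `NPQ/STR.lean` contains everything but the last paragraph: split it into lemmas).
PROOF. Notation as in STR: `N j x = cnt (g j) x`, `w j = card (Pt j)`, `δ j = w j / (8 * 2 ^ W)`, `L` = the
set of the `a` in the claim.
(0) If for some `c j p`, or for some `c₀ d`, the first alternative is false, then the second one holds, and all
`a` with `c j p (pos a) = false` (`c₀ d (pos a) = false`) are in `L`, so `12 * card L ≥ 11 * card P`. So let the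
first alternatives hold for all `c j p` and all `c₀ d`.
(1) `I j` = the set of the `p` for which the first alternative holds for `f j p`. Let `Gd` be the set of the `b`
such that for all `j` fewer than `δ j` of the `p` have `c j p (neg b) = false` and fewer than `δ j` of the
`p ∈ I j` have `f j p (neg b) = false`. Double counting as in STR, now with `32 q` in place of `16 q`:
`2 * card Gd > card Q`.
(2) Let `b ∈ Gd`. If `A j (neg b)` then `A j top`: `N j top = cnt (f j) top ≥ cnt (f j) (neg b) ≥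
N j (neg b) - δ j > θ j * w j`. If `sm j a` and `A j (pos a)` then `A j top`: `N j top = cnt (f j) top ≥
cnt (f j) (pos a) = N j (pos a) > θ j * w j`.
(3) Suppose there are `j` and `b ∈ Gd` with `A j top` and not `A j (neg b)`. Then the claim holds: exactly as
in STR (3) (`card (I j) ≤ θ j w j + 2 δ j`; `S a`, `M`; `4 * S a ≤ M` except for at most `card P / 3` of the
`a`; for such an `a` with `sm j a` and `A j (pos a)`: `e = N j (pos a) - θ j w j ≥ 8 δ j`,
`e ≤ 2 δ j + M / 4`, so `e ≤ M / 3` and `N j top - θ j w j ≥ e + (3/4) M ≥ 2 e`; if not `A j (pos a)` then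
`a ∈ L` because of `A j top`).
(4) Otherwise `A j (neg b) = A j top` for all `b ∈ Gd` and all `j`. Put `d j = A j top`. If the first
alternative holds for `f₀ d`: since `2 * card Gd > card Q` there is `b ∈ Gd` with `f₀ d (neg b) = true` and
`c₀ d (neg b) = true`, so `g₀ d (neg b) = true`, and `d = fun j => A j (neg b)`, a contradiction. So
`12 * card R ≤ card P` for `R = {a | f₀ d (pos a) = true}`. Let `a ∉ R`, `sm₀ a` and `sm j a` for all `j`. If
`A j (pos a) = d j` for all `j` then `g₀ d (pos a) = true` and `c₀ d (pos a) = true`, so `f₀ d (pos a) = true`, a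
contradiction. So some `j` has `A j (pos a) ≠ A j top`, and by (2) `A j top` is true and `A j (pos a)` is
false, so `a ∈ L`. Hence all `a ∉ R` are in `L`. -/
def Stmt_STS : Prop :=
  ∀ (q W : ℕ) (X P Q : Type) [Fintype P] [Fintype Q] (Pt : Fin q → Type) [∀ j, Fintype (Pt j)]
    (top : X) (pos : P → X) (neg : Q → X) (f c g : (j : Fin q) → Pt j → X → Bool)
    (sm : Fin q → P → Prop) (A : Fin q → X → Bool) (θ : Fin q → ℝ)
    (f₀ c₀ g₀ : (Fin q → Bool) → X → Bool) (sm₀ : P → Prop),
    0 < q → (∀ j, 0 < Fintype.card (Pt j)) → 0 < Fintype.card Q →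
    (∀ j p x, f j p x = true → f j p top = true) →
    (∀ j a, sm j a → ∀ p, c j p (pos a) = true) → (∀ j p, c j p top = true) →
    (∀ j p x, c j p x = true → f j p x = g j p x) →
    (∀ a, sm₀ a → ∀ d, c₀ d (pos a) = true) →
    (∀ d x, c₀ d x = true → f₀ d x = g₀ d x) →
    (∀ j p, 32 * q * 2 ^ W * ((univ : Finset Q).filter fun b => f j p (neg b) = false).card <
        Fintype.card Q ∨
      12 * ((univ : Finset P).filter fun a => f j p (pos a) = true).card ≤ Fintype.card P) →
    (∀ j p, 32 * q * 2 ^ W * ((univ : Finset Q).filter fun b => c j p (neg b) = false).card <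
        Fintype.card Q ∨
      12 * ((univ : Finset P).filter fun a => c j p (pos a) = true).card ≤ Fintype.card P) →
    (∀ d, 32 * q * 2 ^ W * ((univ : Finset Q).filter fun b => f₀ d (neg b) = false).card <
        Fintype.card Q ∨
      12 * ((univ : Finset P).filter fun a => f₀ d (pos a) = true).card ≤ Fintype.card P) →
    (∀ d, 32 * q * 2 ^ W * ((univ : Finset Q).filter fun b => c₀ d (neg b) = false).card <
        Fintype.card Q ∨
      12 * ((univ : Finset P).filter fun a => c₀ d (pos a) = true).card ≤ Fintype.card P) →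
    (∀ j x, (A j x = true → (θ j + 1 / 2 ^ W) * Fintype.card (Pt j) ≤ cnt (g j) x) ∧
      (¬ A j x = true → (cnt (g j) x : ℝ) ≤ θ j * Fintype.card (Pt j))) →
    (∀ a, g₀ (fun j => A j (pos a)) (pos a) = true) →
    (∀ b, g₀ (fun j => A j (neg b)) (neg b) = false) →
    2 * Fintype.card P ≤ 3 * ((univ : Finset P).filter fun a => ¬ sm₀ a ∨
      ∃ j, ¬ sm j a ∨ (A j top = true ∧
        (A j (pos a) = true → 2 * ((cnt (g j) (pos a) : ℝ) - θ j * Fintype.card (Pt j)) ≤
          cnt (g j) top - θ j * Fintype.card (Pt j)))).card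

/-- CMS (230 lines). The assembly. PROOF: copy `NPQ/CMR.lean` (STS in place of STR). The potential is now
`Ψ z = (2 ^ D.nots - Phi D z') + ∑ j, pot W (θ j) (C j) (fun x => A j x = true) z'`, at most
`K = 2 ^ D.nots + (W + 3) * ∑ j, 2 ^ (s j + nots)` (`Phi_le`: `Phi D ≤ 2 ^ 0 * (2 ^ D.nots - 1)`). Its first
summand does not decrease if the input grows (`Phi_mono`) and grows by at least `1` if `Phi D` changes.
GUE for `D` (with `s = 0`, `t = q`, the same `σ`, `R`) gives `f₁`, `c₁`; take `f₀ d x = f₁ (u₀, d) x`,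
`c₀ d x = c₁ (u₀, d) x`, `g₀ d x = outp D (σ x) u₀ d` with `u₀ = fun i => i.elim0`,
`sm₀ a` = `Phi D (σ (pos a)) = Phi D (σ top)`. The alternatives by DI1 as in CMR (`D.gates.length + 1 ≤ T`). For
the `a` with `¬ sm₀ a` the first summand grows. -/
def Stmt_CMS : Prop := Stmt_LEV → Stmt_DI1 → Stmt_CHN → Stmt_GUE → Stmt_PTR → Stmt_STS →
  ∀ (m v k b h p T q W : ℕ) (_ : k * b ≤ v) (s t : Fin q → ℕ)
    (C : (j : Fin q) → NCirc (Fin m × Edge v) (s j) (t j))
    (A : Fin q → (Fin m × Edge v → Bool) → Bool) (D : NCirc (Fin m × Edge v) 0 q)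
    (θ : Fin q → ℝ),
    0 < q → 1 ≤ h → 2 * h * (2 * h - 1) ≤ k - 1 → 2 ≤ p → 4 * (p * (2 * h)) ≤ b →
    24 * T ≤ 2 ^ (2 * h) → 48 * (2 * h * p) ^ 2 ≤ b ^ 2 →
    32 * q * 2 ^ W * (T * (4 * (p * (2 * h)) ^ (4 * h))) < 2 ^ p →
    (∀ j, (C j).NotsFree) → (∀ j, (C j).gates.length + 1 ≤ T) → D.NotsFree →
    D.gates.length + 1 ≤ T → (∀ j, -(1 / 2 ^ W) ≤ θ j) →
    (∀ j, Gap (C j) (θ j) (1 / 2 ^ W) fun x => A j x = true) →
    (∀ z, AllClq m v k z ↔ outp D z (fun i => i.elim0) (fun j => A j z) = true) →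
    2 * m ≤ 3 * (2 ^ D.nots + (W + 3) * ∑ j, 2 ^ (s j + (C j).nots))

/-- NMS. The parameters. PROOF: copy `NPQ/NMR.lean`; the only change is `32` in place of `16` in the last
inequality. -/
def Stmt_NMS : Prop :=
  ∀ ε : ℝ, 0 < ε → ε ≤ 1 → ∃ v₀ : ℕ, ∀ v ≥ v₀, ∀ k q W G : ℕ, k = ⌊(v : ℝ) ^ (ε / 4)⌋₊ → 1 ≤ q →
    (q : ℝ) * 2 ^ W ≤ (2 : ℝ) ^ ((v : ℝ) ^ (1 - ε)) →
    (G : ℝ) < (2 : ℝ) ^ ((v : ℝ) ^ (ε / 10)) →
    ∃ h p b : ℕ, k * b ≤ v ∧ 1 ≤ h ∧ 2 * h * (2 * h - 1) ≤ k - 1 ∧ 2 ≤ p ∧
      4 * (p * (2 * h)) ≤ b ∧ 24 * (G + 1) ≤ 2 ^ (2 * h) ∧ 48 * (2 * h * p) ^ 2 ≤ b ^ 2 ∧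
      32 * q * 2 ^ W * ((G + 1) * (4 * (p * (2 * h)) ^ (4 * h))) < 2 ^ p

end Pool.Agent.NPQ
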