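import Pool.Agent.NPQ.Stm3

/-!
# The statements of the modules of the project NPQ, fourth version

Queries to PP in rounds: the queries are asked in rounds of `q`, and a query may read the answers of the earlier
rounds. Module `NPQ_X`: `theorem Pool.Agent.NPQ.X_thm : Stmt_X` in `Pool/Agent/NPQ/X.lean`; a statement of the
form `Stmt_A → …` may use `Stmt_A` as a hypothesis. The whole proof is described in `Pool/Agent/NPQ/PAPER4.md`.
-/

set_option autoImplicit false

namespace Pool.Agent.NPQ

open Finset Pool.Agent.NegLim Pool.Agent.NLM Pool.Agent.NEG72 Pool.Agent.NPP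

/-- The answers of the earlier rounds: the query number `l` belongs to the round number `l / q`; the answers
which are not known in this round are replaced by `false`. -/
def hist (q : ℕ) {n : ℕ} (l : Fin n) (a : Fin n → Bool) : Fin n → Bool :=
  fun i => if (i : ℕ) < (l : ℕ) / q * q then a i else false

/-- The number of the witnesses `(u, w)` for which the output is `true`, if the first `n` of the last witness
bits are `d`. -/
def accH {E : Type} {s t n : ℕ} (C : NCirc E s (n + t)) (d : Fin n → Bool) (x : E → Bool) : ℕ :=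
  ((univ : Finset ((Fin s → Bool) × (Fin t → Bool))).filter fun p =>
    outp C x p.1 (Fin.append d p.2) = true).card

/-- The answers `a x l` of the query number `l` with the circuit `C` are right, with the gap `1 / 2 ^ W`; the
threshold may depend on the earlier answers. -/
def GapH (q W : ℕ) {E : Type} {s t n : ℕ} (C : NCirc E s (n + t)) (l : Fin n)
    (a : (E → Bool) → Fin n → Bool) (θ : (Fin n → Bool) → ℝ) : Prop :=
  ∀ x, (a x l = true →
      (θ (hist q l (a x)) + 1 / 2 ^ W) * 2 ^ (s + t) ≤ accH C (hist q l (a x)) x) ∧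
    (a x l = false →
      (accH C (hist q l (a x)) x : ℝ) ≤ θ (hist q l (a x)) * 2 ^ (s + t))

/-- A weighted sum over the queries, there are `c` rounds. -/
def wt (c q B : ℕ) {n : ℕ} (N L : Fin n → ℕ) : ℕ :=
  ∑ l : Fin n, (1 + q * B) ^ (c - 1 - (l : ℕ) / q) * ((B + 1) * N l + L l)

/-- MOH (50 lines). If the NOT gates do not change then the output grows. PROOF. As in the module PTR
(`NPQ/PTR.lean`, part (2)), with `w = Fin.append d p.2`: `num_eq_of_Phi`, `good_guess` (guesses from `x'`),
`Good.gvals`, `gvals_mono`, `Wire.val_mono`. -/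
def Stmt_MOH : Prop :=
  ∀ (E : Type) (s t n : ℕ) (C : NCirc E s (n + t)), C.NotsFree → ∀ x x' : E → Bool,
    (∀ e, x e = true → x' e = true) → Phi C x = Phi C x' →
    ∀ d : Fin n → Bool, accH C d x ≤ accH C d x'

/-- WGT (130 lines). Lexicographic weights. PROOF. If `N l = N' l` and `L l = L' l` for all `l` then the sums are
equal, and by strong induction on `l` (`hist q l` reads only the entries below `l / q * q ≤ l`) `a = a'`, so the
hypothesis of the second claim is false. Otherwise let `i₀` be the smallest round `l / q` of an `l` with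
`N l ≠ N' l` or `L l ≠ L' l`. For the `l` in earlier rounds `N`, `L` are equal, so (strong induction) `a l = a' l`;
so for the `l` in the rounds `≤ i₀` the `hist` are equal. With `w i = (1 + q * B) ^ (c - 1 - i)`: a term of the
round `i₀` with `N l < N' l` grows by at least `w i₀ * ((B + 1) - B)`, a term of the round `i₀` with `N l = N' l`
does not fall (`L l ≤ L' l`) and grows by at least `w i₀` if `L l ≠ L' l`; so the round `i₀` grows by at least
`w i₀`. A term of a later round `i` falls by at most `B * w i` (`N l ≤ N' l`), there are at most `q` terms in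
every round and `∑_{i₀ < i < c} q * B * w i = w i₀ - 1`. -/
def Stmt_WGT : Prop :=
  ∀ (n q c B : ℕ) (N N' L L' : Fin n → ℕ) (a a' : Fin n → Bool), 0 < q → n ≤ c * q →
    (∀ l, L l ≤ B) → (∀ l, L' l ≤ B) → (∀ l, N l ≤ N' l) →
    (∀ l, N l = N' l → hist q l a = hist q l a' → L l ≤ L' l ∧ (L l = L' l → a l = a' l)) →
    wt c q B N L ≤ wt c q B N' L' ∧
    ((∃ l, N l ≠ N' l ∨ (hist q l a = hist q l a' ∧ L l ≠ L' l)) →
      wt c q B N L + 1 ≤ wt c q B N' L')

/-- WBD (60 lines). PROOF. `(B + 1) * N l + L l ≤ (B + 1) * R`, every round has at most `q` queries, the rounds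
are `0, …, c - 1`, so the sum is at most `∑_{i < c} q * (B + 1) * R * (1 + q * B) ^ (c - 1 - i) ≤
R * ∑_{i < c} (X - 1) * X ^ (c - 1 - i) = R * (X ^ c - 1)` with `X = 1 + q * (B + 1)`. -/
def Stmt_WBD : Prop :=
  ∀ (n q c B R : ℕ) (N L : Fin n → ℕ), 0 < q → n ≤ c * q → (∀ l, N l + 1 ≤ R) → (∀ l, L l ≤ B) →
    wt c q B N L + R ≤ (1 + q * (B + 1)) ^ c * R

open Classical in
/-- STT (280 lines). One step, with rounds. All families belong to the answers `a top` (the query `l` gets
`hist q l (a top)`), and the right answers are only known at the `x` with this `hist`. PROOF: copy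
`NPQ/STS.lean`; changes:
(A) If `sm l τ` for all `l` and `a (pos τ) ≠ a top` then `τ ∈ L` (the set in the claim): let `l` be the smallest
number with `a (pos τ) l ≠ a top l`; then `hist q l (a (pos τ)) = hist q l (a top)` (entries below
`l / q * q ≤ l`). If `a (pos τ) l = true` then `cnt (g l) top = cnt (f l) top ≥ cnt (f l) (pos τ) =
cnt (g l) (pos τ) > θ l * w l`, so `a top l = true`, a contradiction. So `a top l = true` and
`a (pos τ) l = false`, and `τ ∈ L`.
(0) and (1) as in STS (`32 n`, the set `Gd` of the good `b` has more than half of the elements of `Q`).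
(2) For `b ∈ Gd` and `l` with `hist q l (a (neg b)) = hist q l (a top)`: `a (neg b) l = true` implies
`a top l = true` (as in STS).
(3) Suppose there are `l` and `b ∈ Gd` with equal `hist`, `a top l = true`, `a (neg b) l = false`. As in STS
`4 * S τ ≤ M` except for at most `card P / 3` of the `τ`; let `τ` be such. If some `sm l' τ` is false: `τ ∈ L`.
If `a (pos τ) ≠ a top`: (A). Otherwise `a (pos τ) l = true`, the `hist` are equal, and the excess is at least
doubled as in STS, so `τ ∈ L`.
(4) Otherwise `a (neg b) = a top` for all `b ∈ Gd` (the smallest `l` with different answers has equal `hist`;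
(2) and not (3)). So `g₀ (neg b) = false` for these. If the first alternative held for `f₀` there would be
`b ∈ Gd` with `f₀ (neg b) = true` and `c₀ (neg b) = true`, so `g₀ (neg b) = true`. So
`12 * card R ≤ card P`, `R = {τ | f₀ (pos τ) = true}`. Let `τ ∉ R`, `sm₀ τ` and all `sm l τ`. If
`a (pos τ) = a top` then `g₀ (pos τ) = true` and `c₀ (pos τ) = true`, so `f₀ (pos τ) = true`, a contradiction.
So (A) applies. -/
def Stmt_STT : Prop :=
  ∀ (n q W : ℕ) (X P Q : Type) [Fintype P] [Fintype Q] (Pt : Fin n → Type) [∀ l, Fintype (Pt l)]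
    (top : X) (pos : P → X) (neg : Q → X) (f c g : (l : Fin n) → Pt l → X → Bool)
    (sm : Fin n → P → Prop) (a : X → Fin n → Bool) (θ : Fin n → ℝ)
    (f₀ c₀ g₀ : X → Bool) (sm₀ : P → Prop),
    0 < n → 0 < q → (∀ l, 0 < Fintype.card (Pt l)) → 0 < Fintype.card Q →
    (∀ l p x, f l p x = true → f l p top = true) →
    (∀ l τ, sm l τ → ∀ p, c l p (pos τ) = true) → (∀ l p, c l p top = true) →
    (∀ l p x, c l p x = true → f l p x = g l p x) →
    (∀ τ, sm₀ τ → c₀ (pos τ) = true) → (∀ x, c₀ x = true → f₀ x = g₀ x) →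
    (∀ l p, 32 * n * 2 ^ W * ((univ : Finset Q).filter fun b => f l p (neg b) = false).card <
        Fintype.card Q ∨
      12 * ((univ : Finset P).filter fun τ => f l p (pos τ) = true).card ≤ Fintype.card P) →
    (∀ l p, 32 * n * 2 ^ W * ((univ : Finset Q).filter fun b => c l p (neg b) = false).card <
        Fintype.card Q ∨
      12 * ((univ : Finset P).filter fun τ => c l p (pos τ) = true).card ≤ Fintype.card P) →
    (32 * n * 2 ^ W * ((univ : Finset Q).filter fun b => f₀ (neg b) = false).card <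
        Fintype.card Q ∨
      12 * ((univ : Finset P).filter fun τ => f₀ (pos τ) = true).card ≤ Fintype.card P) →
    (32 * n * 2 ^ W * ((univ : Finset Q).filter fun b => c₀ (neg b) = false).card <
        Fintype.card Q ∨
      12 * ((univ : Finset P).filter fun τ => c₀ (pos τ) = true).card ≤ Fintype.card P) →
    (∀ l x, hist q l (a x) = hist q l (a top) →
      (a x l = true → (θ l + 1 / 2 ^ W) * Fintype.card (Pt l) ≤ cnt (g l) x) ∧
      (a x l = false → (cnt (g l) x : ℝ) ≤ θ l * Fintype.card (Pt l))) →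
    (∀ τ, a (pos τ) = a top → g₀ (pos τ) = true) →
    (∀ b, a (neg b) = a top → g₀ (neg b) = false) →
    2 * Fintype.card P ≤ 3 * ((univ : Finset P).filter fun τ => ¬ sm₀ τ ∨
      ∃ l, ¬ sm l τ ∨ (hist q l (a (pos τ)) = hist q l (a top) ∧ a top l = true ∧
        (a (pos τ) l = true → 2 * ((cnt (g l) (pos τ) : ℝ) - θ l * Fintype.card (Pt l)) ≤
          cnt (g l) top - θ l * Fintype.card (Pt l)))).card

/-- CMT (280 lines). The assembly. PROOF: copy `NPQ/CMS.lean` (STT in place of STS). For an input `z'` let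
`N l = 2 ^ (s l) * (2 ^ (C l).nots - 1) - Phi (C l) z'`, with `d = hist q l (a z')`
`L l = lev W (θ l d) (accH (C l) d z' / 2 ^ (s l + t l)) (a z' l = true)`, and
`Ψ z = (2 ^ D.nots - 1 - Phi D z') + wt c q (W + 2) N L`. `N l + 1 ≤ R` (`Phi_le` is not needed), `L l ≤ W + 2`
by LEV (1) (`accH ≤ 2 ^ (s + t)`), so WBD with `B = W + 2` gives `Ψ ≤ (1 + q * (W + 3)) ^ c * R = K`.
Let `x ≤ x'` (in CHN: `x' = σ top`, `x = σ (pos τ)`). `Phi_mono` and `Phi_le` give `N l ≤ N' l` and `N l = N' l`
iff `Phi` is equal. If `N l = N' l` and the `hist` are equal (`= d`) then `accH (C l) d x ≤ accH (C l) d x'` by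
MOH, `a x l = true → a x' l = true` by `GapH`, so LEV (2); and if the levels are equal then the answers are
equal (the level is `0` iff the answer is `false`). So WGT applies: `Ψ` does not fall. Step: for fixed `z`, `i`
and `σ` as in CMS let `d l = hist q l (a (σ top))`; GUE for `C l` (witness bits `n + t l`) gives `F`, `K`; take
`f l p x = F (p.1, Fin.append (d l) p.2) x`, `c l p x = K (p.1, Fin.append (d l) p.2) x`,
`g l p x = outp (C l) (σ x) p.1 (Fin.append (d l) p.2)` (so `cnt (g l) x = accH (C l) (d l) (σ x)`), and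
`f₀ x = F₀ (u₀, a (σ top)) x`, `c₀ x = K₀ (u₀, a (σ top)) x`, `g₀ x = outp D (σ x) u₀ (a (σ top))`; answers
`a (σ x)`, thresholds `θ l (d l)`. For the `τ` counted in STT: if `¬ sm₀ τ` then the first summand grows; if
`¬ sm l τ` then `N l ≠ N' l`; otherwise the `hist` are equal and, if `N l = N' l`, LEV (3) gives
`L l ≠ L' l`; so WGT gives `Ψ + 1 ≤ Ψ'`. -/
def Stmt_CMT : Prop := Stmt_LEV → Stmt_DI1 → Stmt_CHN → Stmt_GUE → Stmt_MOH → Stmt_WGT →
  Stmt_WBD → Stmt_STT →
  ∀ (m v k b h p T n q c W R : ℕ) (_ : k * b ≤ v) (s t : Fin n → ℕ)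
    (C : (l : Fin n) → NCirc (Fin m × Edge v) (s l) (n + t l))
    (D : NCirc (Fin m × Edge v) 0 n) (a : (Fin m × Edge v → Bool) → Fin n → Bool)
    (θ : Fin n → (Fin n → Bool) → ℝ),
    0 < n → 0 < q → n ≤ c * q → 1 ≤ h → 2 * h * (2 * h - 1) ≤ k - 1 → 2 ≤ p →
    4 * (p * (2 * h)) ≤ b → 24 * T ≤ 2 ^ (2 * h) → 48 * (2 * h * p) ^ 2 ≤ b ^ 2 →
    32 * n * 2 ^ W * (T * (4 * (p * (2 * h)) ^ (4 * h))) < 2 ^ p →
    (∀ l, (C l).NotsFree) → (∀ l, (C l).gates.length + 1 ≤ T) →
    (∀ l, 2 ^ (s l + (C l).nots) ≤ R) → D.NotsFree → D.gates.length + 1 ≤ T →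
    2 ^ D.nots ≤ R → (∀ l d, -(1 / 2 ^ W) ≤ θ l d) → (∀ l, GapH q W (C l) l a (θ l)) →
    (∀ z, AllClq m v k z ↔ outp D z (fun i => i.elim0) (a z) = true) →
    2 * m ≤ 3 * ((1 + q * (W + 3)) ^ c * R)

end Pool.Agent.NPQ
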