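import Pool.Agent.NPQ.Stm4

/-!
# The statements of the modules of the project NPQ, fifth version

Better weights: the later rounds are only disturbed if an answer of an earlier round changes.
-/

set_option autoImplicit false

namespace Pool.Agent.NPQ

open Finset Pool.Agent.NegLim Pool.Agent.NLM Pool.Agent.NEG72 Pool.Agent.NPP

/-- The largest value of the levels and of the weighted answers of `j` rounds (for fixed answers of the earlier
rounds); it is `B * ((q + 1) ^ j - 1)`. -/
def res (q B : ℕ) : ℕ → ℕ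
  | 0 => 0
  | j + 1 => res q B j + q * (B + res q B j)

/-- The weighted sum over the queries, there are `c` rounds. -/
def wtA (c q B : ℕ) {n : ℕ} (N L : Fin n → ℕ) (a : Fin n → Bool) : ℕ :=
  ∑ l : Fin n, ((B + 1 + 2 * res q B (c - 1 - (l : ℕ) / q)) * N l + L l +
    (if a l = true then res q B (c - 1 - (l : ℕ) / q) else 0))

/-- The number of the steps, for `R = 1`. -/
def steps (c q W : ℕ) : ℕ := 1 + (W + 3) * (2 * (q + 1) ^ c - q - 2)

/-- WGV (150 lines). PROOF. Let `u j = res q B j`. Show by induction on `c - i`: if `a l = a' l` for all `l` with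
`l / q < i` then the sum over the `l` with `i ≤ l / q` does not fall, and it grows by at least `1` if some `l` with
`i ≤ l / q` has `N l ≠ N' l` or equal `hist` and `L l ≠ L' l`. For `i = c` there are no such `l` (`n ≤ c * q`).
STEP: the `hist` are equal for the `l` in the round `i`. Let `u = u (c - 1 - i)`. The term of an `l` in the round
`i` with `N l < N' l` grows by at least `(B + 1 + 2 * u) - B - u = 1 + u`; for `N l = N' l` it grows by
`L' l - L l + (0 or u)` with `L l ≤ L' l`, and by at least `1 + u` if `a l ≠ a' l` (then `a l = false`,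
`a' l = true`, `L l ≠ L' l`). (a) If some `l` in the round `i` has `N l ≠ N' l` or `a l ≠ a' l` then the round
`i` grows by at least `1 + u`, and the later rounds fall by at most the sum over the rounds `i' > i` of
`q * (B + u (c - 1 - i'))`, which is `u` (`u (j + 1) = u j + q * (B + u j)`; `N l ≤ N' l`). (b) Otherwise the
answers are equal for `l / q < i + 1`, the round `i` grows by `∑ (L' l - L l)`, and the claim for `i + 1` gives
the rest. The theorem is the claim for `i = 0`. -/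
def Stmt_WGV : Prop :=
  ∀ (n q c B : ℕ) (N N' L L' : Fin n → ℕ) (a a' : Fin n → Bool), 0 < q → n ≤ c * q →
    (∀ l, L l ≤ B) → (∀ l, L' l ≤ B) → (∀ l, N l ≤ N' l) →
    (∀ l, N l = N' l → hist q l a = hist q l a' →
      L l ≤ L' l ∧ (L l = L' l → a l = a' l) ∧ (a l = true → a' l = true)) →
    wtA c q B N L a ≤ wtA c q B N' L' a' ∧
    ((∃ l, N l ≠ N' l ∨ (hist q l a = hist q l a' ∧ L l ≠ L' l)) →
      wtA c q B N L a + 1 ≤ wtA c q B N' L' a')

/-- WBV (100 lines). PROOF. If `n = 0` the sum is `0`. Otherwise `1 ≤ c`, `1 ≤ R` and with `u j = res q B j` the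
sum is at most `∑_{j < c} q * ((B + 1 + 2 * u j) * (R - 1) + B + u j)`, so the left side is at most
`(1 + c * q * (B + 1) + 2 * S) * R` with `S = ∑_{j < c} q * u j`. By induction `u c = c * q * B + S` and
`u c + B = B * (q + 1) ^ c`. So `c * q * (B + 1) + 2 * S = 2 * B * ((q + 1) ^ c - 1) - c * q * (B - 1)`, and this is at
most `(B + 1) * (2 * ((q + 1) ^ c - 1) - q)`, because `c * q ≤ (q + 1) ^ c - 1` and `1 ≤ c`: the difference is
`2 * ((q + 1) ^ c - 1) - q * (B + 1) + c * q * (B - 1)`. -/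
def Stmt_WBV : Prop :=
  ∀ (n q c B R : ℕ) (N L : Fin n → ℕ) (a : Fin n → Bool), 0 < q → n ≤ c * q →
    (∀ l, N l + 1 ≤ R) → (∀ l, L l ≤ B) →
    wtA c q B N L a + R ≤ (1 + (B + 1) * (2 * (q + 1) ^ c - q - 2)) * R

/-- CMV. PROOF: as `NPQ/CMT.lean` with the new weights. -/
def Stmt_CMV : Prop := Stmt_LEV → Stmt_DI1 → Stmt_CHN → Stmt_GUE → Stmt_MOH → Stmt_WGV →
  Stmt_WBV → Stmt_STT →
  ∀ (m v k b h p T n q c W R : ℕ) (_ : k * b ≤ v) (s t : Fin n → ℕ)
    (C : (l : Fin n) → NCirc (Fin m × Edge v) (s l) (n + t l))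
    (D : NCirc (Fin m × Edge v) 0 n) (a : (Fin m × Edge v → Bool) → Fin n → Bool)
    (θ : Fin n → (Fin n → Bool) → ℝ),
    0 < n → 0 < q → n ≤ c * q → 1 ≤ h → 2 * h * (2 * h - 1) ≤ k - 1 → 2 ≤ p →
    4 * (p * (2 * h)) ≤ b → 24 * T ≤ 2 ^ (2 * h) → 48 * (2 * h * p) ^ 2 ≤ b ^ 2 →
    32 * n * 2 ^ W * (T * (4 * (p * (2 * h)) ^ (4 * h))) < 2 ^ p →
    (∀ l, (C l).NotsFree) → (∀ l, (C l).gates.length + 1 ≤ T) →
    (∀ l, 2 ^ (s l + (C l).nots) ≤ R) → D.NotsFree → D.gates.length + 1 ≤ T →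
    2 ^ D.nots ≤ R → (∀ l d, -(1 / 2 ^ W) ≤ θ l d) → (∀ l, GapH q W (C l) l a (θ l)) →
    (∀ z, AllClq m v k z ↔ outp D z (fun i => i.elim0) (a z) = true) →
    2 * m ≤ 3 * (steps c q W * R)

end Pool.Agent.NPQ
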