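import Pool.Agent.NPQ.Up
import Pool.Agent.NPP.THR

/-!
# The statements of the modules of the project NPQ, sixth version

Many rounds are as good as NOT gates: if `(q + 1) ^ c` is larger than the number of the input bits, then `c` rounds
of `q` queries without witness bits and without NOT gates find the number of the ones of the input (search with
`q + 1` intervals in every round), and a circuit without NOT gates which knows this number can simulate every
circuit (slice functions).
-/

set_option autoImplicit false

namespace Pool.Agent.NPQ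

open Finset Pool.Agent.NegLim Pool.Agent.NLM Pool.Agent.NEG72 Pool.Agent.NPP

/-- The number of the ones. -/
def ones {E : Type} [Fintype E] (x : E → Bool) : ℕ :=
  ((univ : Finset E).filter fun e => x e = true).card

/-- The number which is given by the answers. -/
def rdv (c q : ℕ) {n : ℕ} (h : Fin n → Bool) : ℕ :=
  ∑ l : Fin n, if h l = true then (q + 1) ^ (c - 1 - (l : ℕ) / q) else 0

/-- The answer number `l`: is the digit number `l / q` of `S` (basis `q + 1`, the leading digit has number `0`, there
are `c` digits) larger than `l % q`? -/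
def dig (c q S : ℕ) (l : Fin (c * q)) : Bool :=
  decide ((l : ℕ) % q < S / (q + 1) ^ (c - 1 - (l : ℕ) / q) % (q + 1))

/-- SRC (120 lines). PROOF. Let `d i = S / (q + 1) ^ (c - 1 - i) % (q + 1) ≤ q`. For `j ≤ c` let
`V j = ∑_{i < j} d i * (q + 1) ^ (c - 1 - i)`; by induction `V j = S / (q + 1) ^ (c - j) * (q + 1) ^ (c - j)`
(`V 0 = 0` because of `S < (q + 1) ^ c`). `rdv (hist q l (dig c q S)) = V (l / q)`: the sum over
`l' = i * q + j'` of `if j' < d i then (q + 1) ^ (c - 1 - i)`, for `i < l / q`; in the same way
`rdv (dig c q S) = V c = S`. With `M = (q + 1) ^ (c - 1 - l / q)`: `S = V (l / q) + d (l / q) * M + S % M`, so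
`V (l / q) + (l % q + 1) * M ≤ S` iff `l % q + 1 ≤ d (l / q)`. -/
def Stmt_SRC : Prop :=
  ∀ (c q S : ℕ), 0 < q → S < (q + 1) ^ c →
    rdv c q (dig c q S) = S ∧
    ∀ l : Fin (c * q), (dig c q S l = true ↔
      rdv c q (hist q l (dig c q S)) + ((l : ℕ) % q + 1) * (q + 1) ^ (c - 1 - (l : ℕ) / q) ≤ S)

/-- CIR (80 lines). PROOF. As in `NPP/THR.lean`: `makes_thr_all` for the list of all `e`; the output is the disjunction
over `j ≤ N` of `(φ = j) && thr l j` (`Makes.wit`, `Makes.any`, `Makes.and`; `φ` depends only on the first `n`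
witness bits `fun i => w (Fin.castAdd t i)`; if `φ` is larger than `N` nothing holds). -/
def Stmt_CIR : Prop :=
  ∀ (E : Type) [Fintype E] (n t : ℕ) (φ : (Fin n → Bool) → ℕ),
    ∃ C : NCirc E 0 (n + t), C.nots = 0 ∧ C.gates.length ≤ 12 * (Fintype.card E + 1) ^ 3 ∧
      ∀ x u (d : Fin n → Bool) (w : Fin t → Bool),
        (outp C x u (Fin.append d w) = true ↔ φ d ≤ ones x)

/-- SIM (150 lines). PROOF. As in `NPP/THR.lean`, without NOT gates: `S` = all thresholds of the list `l` of all `e`
and of all `l.erase e` (`2 * N * (N + 1) ^ 2` gates); the negation of `x e` is the disjunction over `j ≤ N` of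
`(φ = j) && thr (l.erase e) j`, this is right if `φ` is the number of the ones (with `x e = true` the others have
only `φ - 1` ones). Then `rail` for the gates of `up n D` (`NPQ/Up.lean`: `outp_up`, `length_up`), with the
condition `φ (fun i => w (Fin.castAdd t i)) = ones x`. No check is needed. -/
def Stmt_SIM : Prop :=
  ∀ (E : Type) [Fintype E] (n t : ℕ) (φ : (Fin n → Bool) → ℕ) (D : NCirc E 0 t),
    ∃ C : NCirc E 0 (n + t), C.nots = 0 ∧
      C.gates.length ≤ 2 * D.gates.length + 12 * (Fintype.card E + 1) ^ 3 ∧
      ∀ x u (d : Fin n → Bool) (w : Fin t → Bool), φ d = ones x →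
        outp C x u (Fin.append d w) = outp D x u w

end Pool.Agent.NPQ
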