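import Pool.Agent.NPP.Mode
import Pool.Agent.NLM.Defs

/-!
# The statements of the modules of the project NPQ (MP_153864_lc)

PSPACE (already the PSPACE mode with two blocks of quantifiers) is outside of the Boolean closure of PP for
circuits with few negations. Module `NPQ_X`: `theorem Pool.Agent.NPQ.X_thm : Stmt_X` in
`Pool/Agent/NPQ/X.lean`; a statement of the form `Stmt_A → …` may use `Stmt_A` as a hypothesis. The whole
proof is described in `Pool/Agent/NPQ/PAPER.md`.
-/

set_option autoImplicit false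

namespace Pool.Agent.NPQ

open Finset Pool.Agent.NegLim Pool.Agent.NLM Pool.Agent.NEG72 Pool.Agent.NPP

/-- The number of the `p` with `g p x = true`. -/
def cnt {P X : Type} [Fintype P] (g : P → X → Bool) (x : X) : ℕ :=
  ((univ : Finset P).filter fun p => g p x = true).card

open Classical in
/-- The level of an answer `A` with the part `x` of accepting witnesses and the threshold `θ`. -/
noncomputable def lev (W : ℕ) (θ x : ℝ) (A : Prop) : ℕ :=
  if A then 1 + Nat.log 2 ⌊(x - θ) * 2 ^ W⌋₊ else 0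

/-! ### NOT gates -/

/-- TRQ (150 lines). The transfer theorem for `q` circuits at once. PROOF. Copy the proof of
`Pool.Agent.NPP.trf2` (`NPP/TRF2.lean`) with the potential `∑ j, Phi (C j)`, at most
`∑ j, 2 ^ (s j) * (2 ^ (C j).nots - 1)` (`Phi_le`): `greedy` gives `R`, `A` with `Adm R A` and: for `i ∉ A`
every admissible `R'` (there: `upd R (B i) y` with `φ i y = true`) has the same potential. Since `R' ≤ R`,
each `Phi (C j)` at `R'` is at least the one at `R` (`Phi` is antitone: see how `num_eq_of_Phi` is proved,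
or `num_le`), so all `Phi (C j)` are equal, and `num_eq_of_Phi` and `good_guess` give `Good` for all `j`.
`f j p y` = `DD (C j) R (B i) p y` (`= chkA .. && C.out.val ..`, `monSize_DD`), `c j p y` =
`chkA (guess (C j) R p.1) (C j).gates (upd R (B i) y) p.1 p.2`, a monotone function by
`prog (isProj_upd R B) (guess C R u) C.gates u w false` (as in `monSize_QQ`). `φ i y = true` gives
`c = true` by `chkA_of_good`; `c = true` gives `gvals = vals` by `keyA` (`upd R (B i) y ≤ R` since `R` is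
`true` on `B i`; `hgoodR`), so `f = outp`. -/
def Stmt_TRQ : Prop :=
  ∀ (E ι : Type) (q : ℕ) (s t : Fin q → ℕ) (B : ι → Set E), (∀ i j, i ≠ j → Disjoint (B i) (B j)) →
    ∀ (c₀ : E → Bool) (φ : ι → (E → Bool) → Bool),
      (∀ i x x', (∀ e ∈ B i, x e = x' e) → φ i x = φ i x') →
      (∀ i, φ i (fun _ => true) = true) → ∀ C : (j : Fin q) → NCirc E (s j) (t j),
      (∀ j, (C j).NotsFree) →
      ∃ A : Finset ι, A.card ≤ ∑ j, 2 ^ (s j) * (2 ^ (C j).nots - 1) ∧ ∀ i, i ∉ A →
        ∃ (Z : (E → Bool) → (E → Bool))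
          (f c : (j : Fin q) → (Fin (s j) → Bool) × (Fin (t j) → Bool) → (E → Bool) → Bool),
          ((∀ y e, (∀ j, e ∉ B j) → Z y e = c₀ e) ∧ (∀ y, φ i (Z y) = φ i y) ∧
            ∀ y i', i' ≠ i → φ i' (Z y) = true) ∧
          (∀ j p, MonSize (f j p) ((C j).gates.length + 1)) ∧
          (∀ j p, MonSize (c j p) ((C j).gates.length + 1)) ∧
          (∀ y, φ i y = true → ∀ j p, c j p y = true) ∧
          ∀ y j p, c j p y = true → f j p y = outp (C j) (Z y) p.1 p.2

/-- BLQ (110 lines). From circuits with NOT gates for `m` graphs to programs without NOT gates for `n`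
graphs. PROOF. Copy the proof of `Pool.Agent.NPP.blk2` (`NPP/BLK2.lean`) with `M = ∑ j, 2 ^ (s j + nots)`
groups of `n` graphs and TRQ in place of `trf2`; some group is not in `A` since
`∑ j, 2 ^ (s j) * (2 ^ nots - 1) < M` (`0 < q`; `Finset.sum_lt_sum_of_nonempty`). -/
def Stmt_BLQ : Prop := Stmt_TRQ →
  ∀ (m v k q n : ℕ) (s t : Fin q → ℕ) (C : (j : Fin q) → NCirc (Fin m × Edge v) (s j) (t j)),
    k ≤ v → 0 < q → (∀ j, (C j).NotsFree) → (∑ j, 2 ^ (s j + (C j).nots)) * n ≤ m →
    ∃ (Z : (Fin n × Edge v → Bool) → Fin m × Edge v → Bool)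
      (f c : (j : Fin q) → (Fin (s j) → Bool) × (Fin (t j) → Bool) → (Fin n × Edge v → Bool) → Bool),
      (∀ z, AllClq m v k (Z z) ↔ AllClq n v k z) ∧
      (∀ j p, MonSize (f j p) ((C j).gates.length + 1)) ∧
      (∀ j p, MonSize (c j p) ((C j).gates.length + 1)) ∧
      (∀ z, AllClq n v k z → ∀ j p, c j p z = true) ∧
      ∀ z j p, c j p z = true → f j p z = outp (C j) (Z z) p.1 p.2

/-! ### one graph -/

open Classical in
/-- DI1 (150 lines). The dichotomy for one graph: a small monotone program accepts almost all multipartite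
graphs or only a small part of the positive tests. PROOF. As in `Pool.Agent.NPP.ONE_thm` (`NPP/ONE.lean`, copy):
apply `APP_thm : Stmt_APP` with `V = Fin v`, `P = Fin k → Fin b`, `K = kset hv`, `pos = posG hv`,
`neg = negIn`, `c = k - 1`. If the family contains a set with at most one element then `AccN` holds for all
colourings `χ`, so `f (negIn χ) = false` only for `χ ∈ BN`: the first alternative. Otherwise the `τ` with
`f = true` are in `BP`, at most the part `T / 2 ^ (2 h) ≤ 1 / (2 D)`, or `kset τ` contains a set `X` of the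
family with at least two elements, at most the part
`∑_{a ≥ 2} (2 h p / b)^a ≤ 2 (2 h p / b)^2 ≤ 1 / (2 D)` (as `2 h p / b ≤ 1 / 4`): the second one. -/
def Stmt_DI1 : Prop :=
  ∀ (v k b h p T D : ℕ) (hv : k * b ≤ v) (f : (Edge v → Bool) → Bool), 1 ≤ h →
    2 * h * (2 * h - 1) ≤ k - 1 → 2 ≤ p → 4 * (p * (2 * h)) ≤ b → 0 < D →
    2 * D * T ≤ 2 ^ (2 * h) → 4 * D * (2 * h * p) ^ 2 ≤ b ^ 2 → MonSize f T →
    2 ^ p * ((univ : Finset (Fin v → Fin (k - 1))).filter fun χ => f (negIn χ) = false).card ≤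
        T * (4 * (p * (2 * h)) ^ (4 * h)) * (k - 1) ^ v ∨
      D * ((univ : Finset (Fin k → Fin b)).filter fun τ => f (posG hv τ) = true).card ≤ b ^ k

open Classical in
/-- STQ (200 lines). One step. `g j p` are the outputs, `c j p` the checks, `f j p` the monotone functions.
PROOF. Write `N j x = cnt (g j) x`, `w j = card (Pt j)`, `δ j = w j / (8 * 2 ^ W)`.
(1) Let `I j` be the set of the `p` with the first alternative of the hypothesis `hf` (type 1), the others
have the second one (type 2). Double counting: for every `j` the number of the `b` for which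
`c j p (neg b) = false` for at least `δ j` of the `p` is less than `card Q / (2 q)` (the sum over the `p` of
the number of the `b` is less than `w j * card Q / (16 q 2 ^ W)`), and the same for `f j p (neg b) = false`
and the `p ∈ I j`. So there is one `b` (`q > 0`, `2 q` sets) with, for all `j`, fewer than `δ j` of the `p`
with `c j p (neg b) = false` and fewer than `δ j` of the `p ∈ I j` with `f j p (neg b) = false`. Fix it.
(2) For every `j` let `S j a` be the number of the `p ∉ I j` with `f j p (pos a) = true` and `M j` the number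
of the `p ∉ I j` with `f j p top = true`. Since `f j p (pos a) = true` implies `f j p top = true`, the sum
over `a` of the `S j a` is at most `M j * card P / (12 q)`; so `4 * S j a ≤ M j` for all `a` except for at
most `card P / (3 q)` (if `M j = 0` for all `a`). So for at least two thirds of the `a` it holds for all `j`.
(3) Let `a` be such. `D` is true at `pos a` and false at `neg b`, so `A j (pos a)` and `A j (neg b)` are not
equivalent for some `j` (`funext`, `propext`). If `A j (neg b)` is true and `A j (pos a)` is false: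
`cnt (f j) top ≥ cnt (f j) (neg b) ≥ N j (neg b) - δ j ≥ (θ j + 1/2^W - 1/(8*2^W)) w j > θ j * w j`
and `N j top = cnt (f j) top`, so `A j top`. If `A j (neg b)` is false and `A j (pos a)` is true:
`card (I j) ≤ cnt (f j) (neg b) + δ j ≤ N j (neg b) + 2 δ j ≤ θ j w j + 2 δ j`, so
`S j a ≥ N j (pos a) - card (I j) ≥ N j (pos a) - θ j w j - 2 δ j ≥ (3/4) (N j (pos a) - θ j w j)`, as
`N j (pos a) - θ j w j ≥ w j / 2 ^ W = 8 δ j`; and `N j top ≥ N j (pos a) + (M j - S j a) ≥ N j (pos a) +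
3 S j a ≥ N j (pos a) + (9/4) (N j (pos a) - θ j w j)`; so the excess is at least doubled, it is positive, and
`A j top`. -/
def Stmt_STQ : Prop :=
  ∀ (q W : ℕ) (X P Q : Type) [Fintype P] [Fintype Q] (Pt : Fin q → Type) [∀ j, Fintype (Pt j)]
    (top : X) (pos : P → X) (neg : Q → X) (f c g : (j : Fin q) → Pt j → X → Bool)
    (A : Fin q → X → Prop) (D : (Fin q → Prop) → Prop) (θ : Fin q → ℝ), 0 < q →
    (∀ j, 0 < Fintype.card (Pt j)) → 0 < Fintype.card Q →
    (∀ j p x, f j p x = true → f j p top = true) →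
    (∀ j p a, c j p (pos a) = true) → (∀ j p, c j p top = true) →
    (∀ j p x, c j p x = true → f j p x = g j p x) →
    (∀ j p, 16 * q * 2 ^ W * ((univ : Finset Q).filter fun b => f j p (neg b) = false).card <
        Fintype.card Q ∨
      12 * q * ((univ : Finset P).filter fun a => f j p (pos a) = true).card ≤ Fintype.card P) →
    (∀ j p, 16 * q * 2 ^ W * ((univ : Finset Q).filter fun b => c j p (neg b) = false).card <
      Fintype.card Q) →
    (∀ j x, (A j x → (θ j + 1 / 2 ^ W) * Fintype.card (Pt j) ≤ cnt (g j) x) ∧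
      (¬ A j x → (cnt (g j) x : ℝ) ≤ θ j * Fintype.card (Pt j))) →
    (∀ a, D fun j => A j (pos a)) → (∀ b, ¬ D fun j => A j (neg b)) →
    2 * Fintype.card P ≤ 3 * ((univ : Finset P).filter fun a => ∃ j, A j top ∧
      (A j (pos a) → 2 * ((cnt (g j) (pos a) : ℝ) - θ j * Fintype.card (Pt j)) ≤
        cnt (g j) top - θ j * Fintype.card (Pt j))).card

/-- LEV (50 lines). The levels. PROOF. (1) `(x - θ) * 2 ^ W ≤ 2 ^ W + 1 < 2 ^ (W + 2)`, so the floor is
less than `2 ^ (W + 2)` and the logarithm at most `W + 1`. (2) monotonicity. (3) if `A` is false then the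
level is `0` and the other one at least `1`; if `A` is true then with `y = (x - θ) * 2 ^ W ≥ 1` and
`y' ≥ 2 y`: `⌊y'⌋₊ ≥ 2 * ⌊y⌋₊`, `⌊y⌋₊ ≥ 1` and `Nat.log 2 (2 * n) = Nat.log 2 n + 1` (`Nat.log_mul_base`). -/
def Stmt_LEV : Prop :=
  (∀ (W : ℕ) (θ x : ℝ) (A : Prop), -(1 / 2 ^ W) ≤ θ → x ≤ 1 → lev W θ x A ≤ W + 2) ∧
  (∀ (W : ℕ) (θ x x' : ℝ) (A A' : Prop), x ≤ x' → (A → A') → lev W θ x A ≤ lev W θ x' A') ∧
  ∀ (W : ℕ) (θ x x' : ℝ) (A A' : Prop), A' → (A → θ + 1 / 2 ^ W ≤ x) →
    (A → 2 * (x - θ) ≤ x' - θ) → lev W θ x A + 1 ≤ lev W θ x' A'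

open Classical in
/-- CHN (90 lines). The chain. PROOF. For `a : Fin n → P` and `i ≤ n` let `w i a` be the sequence with
`top` at the places `j < i` and `pos (a j)` at the other places, `S i = ∑ a, Ψ (w i a)`. For `i < n`:
`3 S i + 2 |P| ^ n ≤ 3 S (i + 1)`. Multiplied by `|P|`: by `Pool.Agent.NBC.RES_thm` (`NBC/RES.lean`;
averaging again over one coordinate) `|P| ∑ a, F a = ∑ a, ∑ x, F (update a i x)`, where
`w i (update a i x) = update (w i a) i (pos x)` and `w (i + 1) (update a i x) = update (w i a) i top`; for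
every `a` the sum over `x` of the differences, multiplied by `3`, is at least `2 |P|` by the hypotheses (each
difference is at least `0`, and at least `1` for two thirds of the `x`). So
`2 n |P| ^ n ≤ 3 S n ≤ 3 K |P| ^ n`. -/
def Stmt_CHN : Prop :=
  ∀ (Y P : Type) [Fintype P] [Nonempty P] (pos : P → Y) (top : Y) (n K : ℕ)
    (Ψ : (Fin n → Y) → ℕ),
    (∀ z, (∀ i, z i = top ∨ ∃ a, z i = pos a) → Ψ z ≤ K) →
    (∀ z, (∀ i, z i = top ∨ ∃ a, z i = pos a) → ∀ i a,
      Ψ (Function.update z i (pos a)) ≤ Ψ (Function.update z i top)) →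
    (∀ z, (∀ i, z i = top ∨ ∃ a, z i = pos a) → ∀ i, 2 * Fintype.card P ≤
      3 * ((univ : Finset P).filter fun a =>
        Ψ (Function.update z i (pos a)) + 1 ≤ Ψ (Function.update z i top)).card) →
    2 * n ≤ 3 * K

/-- CMQ (200 lines). The contradiction without NOT gates. PROOF. `Y = Edge v → Bool`, `top` = the complete
graph, `pos = posG hv`; for `z : Fin n → Y` write `z' = fun e => z e.1 e.2`. Replace `θ j` by
`max (θ j) (-(1 / 2 ^ W))`; this keeps the hypothesis on `A`. Let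
`Ψ z = ∑ j, lev W (θ j) (cnt (g j) z' / card (Pt j)) (A j z')`. CHN with `K = q * (W + 2)` (LEV (1);
`cnt ≤ card`): let all `z i` be `top` or positive tests; they have `k`-cliques (`clq` of `posG`: see CMP2 or
CMP; `clq_true`), so all checks are `true` and `g = f` at `z'`. Monotone: `f` is monotone
(`MonSize.monotone`, `NNDT/Core.lean`), `posG ≤ top`, so `cnt (g j)` grows from `update z i (pos a)` to
`update z i top`, and `A j` remains `true` (`cnt > θ`). LEV (2). Step: STQ with `X = Y` and all functions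
composed with `x ↦ (update z i x)'` (a substitution: `MonSize.comp`, `IsProj`, as in CMP2), `Q` = the
colourings `Fin v → Fin (k - 1)`, `neg = negIn`: the update of `z` by `negIn χ` is not in `AllClq`
(`not_hasClique_negIn`, `clq_iff`, `2 ≤ k`; see CMP), by `posG τ` it is. The dichotomy of STQ for `f j p` is
DI1 with `D = 12 * q` and the last numerical hypothesis (`0 < (k - 1) ^ v`); for `c j p` the second
alternative of DI1 is impossible since `c j p = true` for all `b ^ k > 0` positive tests. The `a` counted in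
STQ satisfy the claim of CHN: for the `j` given there LEV (3), for the others LEV (2). -/
def Stmt_CMQ : Prop := Stmt_DI1 → Stmt_STQ → Stmt_LEV → Stmt_CHN →
  ∀ (n v k b h p T q W : ℕ) (_ : k * b ≤ v) (Pt : Fin q → Type) [∀ j, Fintype (Pt j)]
    (f c g : (j : Fin q) → Pt j → (Fin n × Edge v → Bool) → Bool)
    (A : Fin q → (Fin n × Edge v → Bool) → Prop) (D : (Fin q → Prop) → Prop) (θ : Fin q → ℝ),
    0 < q → (∀ j, 0 < Fintype.card (Pt j)) → 1 ≤ h → 2 * h * (2 * h - 1) ≤ k - 1 → 2 ≤ p →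
    4 * (p * (2 * h)) ≤ b → 24 * q * T ≤ 2 ^ (2 * h) → 48 * q * (2 * h * p) ^ 2 ≤ b ^ 2 →
    16 * q * 2 ^ W * (T * (4 * (p * (2 * h)) ^ (4 * h))) < 2 ^ p →
    (∀ j p, MonSize (f j p) T) → (∀ j p, MonSize (c j p) T) →
    (∀ z, AllClq n v k z → ∀ j p, c j p z = true) →
    (∀ z j p, c j p z = true → f j p z = g j p z) →
    (∀ j z, (A j z → (θ j + 1 / 2 ^ W) * Fintype.card (Pt j) ≤ cnt (g j) z) ∧
      (¬ A j z → (cnt (g j) z : ℝ) ≤ θ j * Fintype.card (Pt j))) →
    (∀ z, AllClq n v k z ↔ D fun j => A j z) → 2 * n ≤ 3 * (q * (W + 2))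

/-! ### numbers -/

/-- NMQ (150 lines). The parameters. PROOF. Compare `Pool.Agent.NPP.LOW2M.params` (`NPP/LOW2.lean`, copy):
`y = v ^ (ε / 40)`, `P = v ^ (1 - ε)`, `σ = √q`, so `σ (W + 1) ≤ P`. `h = ⌊y ^ 5 / 4⌋₊`,
`p = ⌊(P / σ) * y ^ 20⌋₊`, `b = ⌊P * y ^ 30⌋₊` (`k ≤ y ^ 10`, `v = P * y ^ 40`). `P / σ ≥ W + 1 ≥ 1`.
`48 q (2 h p) ^ 2 ≤ 12 (y ^ 5 P y ^ 20) ^ 2 ≤ b ^ 2`. `log2 q ≤ 2 log2 v ≤ 2 y`, `log2 (G + 1) ≤ y ^ 4 + 1`,
`2 h p ≤ v`, so the logarithm of the left-hand side of the last inequality is at most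
`4 + 2 y + W + y ^ 4 + 1 + 2 + y ^ 5 * y < p` for large `y`. -/
def Stmt_NMQ : Prop :=
  ∀ ε : ℝ, 0 < ε → ε ≤ 1 → ∃ v₀ : ℕ, ∀ v ≥ v₀, ∀ k q W G : ℕ, k = ⌊(v : ℝ) ^ (ε / 4)⌋₊ → 1 ≤ q →
    (q : ℝ) * ((W : ℝ) + 1) ^ 2 ≤ (v : ℝ) ^ (2 - 2 * ε) →
    (G : ℝ) < (2 : ℝ) ^ ((v : ℝ) ^ (ε / 10)) →
    ∃ h p b : ℕ, k ≤ v ∧ k * b ≤ v ∧ 1 ≤ h ∧ 2 * h * (2 * h - 1) ≤ k - 1 ∧ 2 ≤ p ∧
      4 * (p * (2 * h)) ≤ b ∧ 24 * q * (G + 1) ≤ 2 ^ (2 * h) ∧
      48 * q * (2 * h * p) ^ 2 ≤ b ^ 2 ∧
      16 * q * 2 ^ W * ((G + 1) * (4 * (p * (2 * h)) ^ (4 * h))) < 2 ^ p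

end Pool.Agent.NPQ
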