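import Pool.Agent.NPQ.Stmts
import Pool.Agent.NPP.TRF2

/-!
# TRQ: the transfer theorem for several circuits at once

The proof follows `Pool.Agent.NPP.trf2`.
-/

set_option autoImplicit false

namespace Pool.Agent.NPQ

open Finset Pool.Agent.NegLim Pool.Agent.NLM Pool.Agent.NEG72 Pool.Agent.NPP

open Pool.Agent.NPP.TRFM in
theorem TRQ_thm : Stmt_TRQ := by
  classical
  intro E ι q s t B hB c₀ φ hloc htop C hN
  set Adm : (E → Bool) → Finset ι → Prop := fun R A =>
    (∀ e, (∀ i, e ∉ B i) → R e = c₀ e) ∧ (∀ i, i ∉ A → ∀ e ∈ B i, R e = true) ∧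
      ∀ i, φ i R = true with hAdm
  have hmem : ∀ {i j e}, e ∈ B i → e ∈ B j → i = j := by
    intro i j e h1 h2
    by_contra h
    exact Set.disjoint_left.1 (hB i j h) h1 h2
  obtain ⟨R, A, ⟨hR1, hR2, hR3⟩, hA, hmax⟩ := greedy (∑ j, 2 ^ (s j) * (2 ^ (C j).nots - 1))
    (fun x => ∑ j, Phi (C j) x) (fun x => Finset.sum_le_sum fun j _ => Phi_le (C j) x)
    Adm (fun e => if ∃ i, e ∈ B i then true else c₀ e) (by
      refine ⟨fun e he => if_neg ?_, fun i _ e he => if_pos ⟨i, he⟩,
        fun i => (hloc i _ _ fun e he => ?_).trans (htop i)⟩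
      · rintro ⟨i, hi⟩
        exact he i hi
      · exact if_pos ⟨i, he⟩)
  refine ⟨A, hA, fun i hi => ?_⟩
  have hle : ∀ y e, upd R (B i) y e = true → R e = true := by
    intro y e h
    by_cases he : e ∈ B i
    · exact hR2 i hi e he
    · rwa [upd_notMem he] at h
  have hout : ∀ y e, (∀ j, e ∉ B j) → upd R (B i) y e = c₀ e := by
    intro y e he
    rw [upd_notMem (he i)]
    exact hR1 e he
  have hφi : ∀ y, φ i (upd R (B i) y) = φ i y := fun y => hloc i _ _ fun e he => upd_mem he
  have hφj : ∀ y j, j ≠ i → φ j (upd R (B i) y) = true := by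
    intro y j hj
    refine (hloc j _ _ fun e he => ?_).trans (hR3 j)
    exact upd_notMem fun h => hj (hmem he h)
  have hgoodR : ∀ j u w, Good (guess (C j) R u) (C j).gates R u w :=
    fun j => good_guess (C j) (hN j) fun _ => rfl
  have hgood : ∀ y, φ i y = true → ∀ j u w,
      Good (guess (C j) R u) (C j).gates (upd R (B i) y) u w := by
    intro y hy
    have h1 : ∑ j, Phi (C j) (upd R (B i) y) ≤ ∑ j, Phi (C j) R := by
      refine hmax i hi (upd R (B i) y) ⟨hout y, ?_, ?_⟩
      · intro j hj e he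
        rw [Finset.mem_insert, not_or] at hj
        rw [upd_notMem fun h => hj.1 (hmem he h)]
        exact hR2 j hj.2 e he
      · intro j
        by_cases h : j = i
        · subst h
          rw [hφi, hy]
        · exact hφj y j h
    have h2 : ∀ j ∈ (univ : Finset (Fin q)), Phi (C j) R ≤ Phi (C j) (upd R (B i) y) :=
      fun j _ => Phi_mono (C j) (hle y)
    have h3 := (Finset.sum_eq_sum_iff_of_le h2).1 (le_antisymm (Finset.sum_le_sum h2) h1)
    intro j
    apply good_guess (C j) (hN j)
    intro u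
    exact num_eq_of_Phi (C j) (hle y) (h3 j (mem_univ j)).ge u
  refine ⟨fun y => upd R (B i) y, fun j p => DD (C j) R (B i) p,
    fun j p y => chkA (guess (C j) R p.1) (C j).gates (upd R (B i) y) p.1 p.2,
    ⟨hout, hφi, hφj⟩, fun j p => monSize_DD (C j) R (B i) p, ?_, ?_, ?_⟩
  · intro j p
    obtain ⟨L, h1, h2, h3, h4⟩ := prog (isProj_upd R (B i)) (guess (C j) R p.1) (C j).gates p.1
      p.2 false
    exact ⟨L, h1, h2.trans (Nat.le_succ _), h4⟩
  · intro y hy j p
    exact chkA_of_good (hgood y hy j p.1 p.2)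
  · rintro y j ⟨u, w⟩ h4
    change chkA (guess (C j) R u) (C j).gates (upd R (B i) y) u w = true at h4
    show (chkA (guess (C j) R u) (C j).gates (upd R (B i) y) u w &&
      (C j).out.val (upd R (B i) y) u w
        (gvals (guess (C j) R u) (C j).gates (upd R (B i) y) u w)) = _
    rw [h4, Bool.true_and, keyA (hle y) (hgoodR j u w) h4]
    rfl

end Pool.Agent.NPQ
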