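import Pool.Agent.NPP.UPP
import Pool.Agent.NPP.Mode

/-!
# The function is the conjunction of the answers of `m` small monotone circuits in the NP mode
-/

set_option autoImplicit false

namespace Pool.Agent.NPQ

open Finset Pool.Agent.NegLim Pool.Agent.NLM Pool.Agent.NEG72 Pool.Agent.NPP Pool.Agent.NNDT

/-- The answer in the NP mode has the gap `1 / 2 ^ (s + t)`. -/
theorem gap_acc {E : Type} {s t : ℕ} (C : NCirc E s t) : Gap C 0 (1 / 2 ^ (s + t)) C.Acc := by
  intro x
  have h2 : (0 : ℝ) < 2 ^ (s + t) := by positivity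
  constructor
  · rintro ⟨u, w, h⟩
    have h3 : 1 ≤ acc C x := by
      unfold acc
      rw [Nat.one_le_iff_ne_zero, Finset.card_ne_zero]
      exact ⟨(u, w), Finset.mem_filter.2 ⟨mem_univ _, h⟩⟩
    have h4 : (1 : ℝ) ≤ acc C x := by exact_mod_cast h3
    rw [zero_add, one_div_mul_cancel h2.ne']
    exact h4
  · intro h
    have h3 : acc C x = 0 := by
      unfold acc
      rw [Finset.card_eq_zero, Finset.filter_eq_empty_iff]
      rintro ⟨u, w⟩ _ h4
      exact h ⟨u, w, h4⟩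
    rw [h3, zero_mul, Nat.cast_zero]

namespace TightM

open UPPM

variable {m v k b : ℕ}

theorem cm_ae (i : Fin m) : Cm (F2 m v k 0 b)
    (((4 + 1) * Fintype.card (Edge v) + 1) * (prs k).length)
    (ae (k := k) (a := 0) (b := b) i) := by
  have hT : F2 m v k 0 b (fun _ _ _ => true) := Or.inl (Or.inr (Or.inl ⟨true, rfl⟩))
  have hF : F2 m v k 0 b (fun _ _ _ => false) := Or.inl (Or.inr (Or.inl ⟨false, rfl⟩))
  have hv : ∀ c : Fin k × Fin v, Cm (F2 m v k 0 b) 0 (vt 0 b c) := fun c =>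
    Cm.base (Or.inr ⟨c, rfl⟩)
  have hpe : ∀ (i : Fin m) (c : Fin k × Fin k) (e : Edge v),
      Cm (F2 m v k 0 b) 4 (pe (a := 0) (b := b) i c e) := fun i c e =>
    Cm.and (Cm.base (Or.inl (Or.inl ⟨(i, e), rfl⟩)))
      (Cm.or (Cm.and (hv (c.1, e.1.1)) (hv (c.2, e.1.2)))
        (Cm.and (hv (c.1, e.1.2)) (hv (c.2, e.1.1))))
  refine cm_all hT (fun c => ?_) (prs k)
  have h := cm_any hF (fun e => hpe i c e) (Finset.univ : Finset (Edge v)).toList
  rw [Finset.length_toList, Finset.card_univ] at h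
  exact h

theorem and_np0 (m v k : ℕ) (hk : 1 ≤ k) (hkv : k ≤ v) (hv : 2 ≤ v) :
    ∃ C : Fin m → NCirc (Fin m × Edge v) 0 (0 + k * Nat.clog 2 v),
      ∀ i, Lit (C i) ∧ (C i).nots = 0 ∧ (C i).gates.length ≤ 40 * (v ^ 2 * k ^ 2) ∧
        ∀ z, (C i).Acc z ↔ clq v k (fun e => z (i, e)) = true := by
  classical
  have hvb : v ≤ 2 ^ Nat.clog 2 v := Nat.le_pow_clog (by norm_num) v
  have hb : Nat.clog 2 v ≤ v := Nat.clog_le_of_le_pow (Nat.lt_two_pow_self).le
  have key : ∀ i : Fin m, ∃ C : NCirc (Fin m × Edge v) 0 (0 + k * Nat.clog 2 v),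
      Lit C ∧ C.nots = 0 ∧ C.gates.length ≤ 40 * (v ^ 2 * k ^ 2) ∧
        ∀ z, C.Acc z ↔ clq v k (fun e => z (i, e)) = true := by
    intro i
    obtain ⟨C, h1, h2, h3, h4⟩ := two (vt 0 (Nat.clog 2 v))
      (ae (k := k) (a := 0) (b := Nat.clog 2 v) i) cm_vt (cm_ae i)
    refine ⟨C, h1, h2, ?_, fun z => ?_⟩
    · rw [Fintype.card_prod, Fintype.card_fin, Fintype.card_fin] at h3
      have h5 := bound (m := 1) (a := 0) le_rfl hk hv hb (card_edge v) (len_prs k)
      refine h3.trans (le_trans ?_ (h5.trans (le_of_eq ?_)))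
      · omega
      · ring
    · constructor
      · rintro ⟨u, w, h⟩
        have h5 := h4 z u w
        have h6 : outp C z u w = true := h
        rw [h6] at h5
        exact clq_ae hvb hk hkv h5.symm
      · intro h
        unfold clq at h
        rw [decide_eq_true_eq] at h
        obtain ⟨S, hS, hc⟩ := h
        let w : Fin (0 + k * Nat.clog 2 v) → Bool := fun q =>
          (S.orderEmbOfFin hS (finProdFinEquiv.symm (Fin.cast (Nat.zero_add _) q)).1 :
            ℕ).testBit (finProdFinEquiv.symm (Fin.cast (Nat.zero_add _) q)).2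
        refine ⟨fun j => j.elim0, w, ?_⟩
        show outp C z _ w = true
        rw [h4]
        apply ae_clq hS hc
        intro j p
        have h7 : Fin.cast (Nat.zero_add _) (px 0 j p) = finProdFinEquiv (j, p) := by
          apply Fin.ext
          show 0 + (finProdFinEquiv (j, p) : ℕ) = (finProdFinEquiv (j, p) : ℕ)
          exact Nat.zero_add _
        show (S.orderEmbOfFin hS (finProdFinEquiv.symm
          (Fin.cast (Nat.zero_add _) (px 0 j p))).1 : ℕ).testBit
            (finProdFinEquiv.symm (Fin.cast (Nat.zero_add _) (px 0 j p))).2 = _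
        rw [h7, Equiv.symm_apply_apply]
  choose C hC using key
  exact ⟨C, hC⟩

end TightM

open TightM in
/-- **`m` answers are enough.** -/
theorem and_np (m v k : ℕ) (hk : 1 ≤ k) (hkv : k ≤ v) (hv : 2 ≤ v) :
    ∃ C : Fin m → NCirc (Fin m × Edge v) 0 (k * Nat.clog 2 v),
      (∀ i, Lit (C i) ∧ (C i).nots = 0 ∧ (C i).gates.length ≤ 40 * (v ^ 2 * k ^ 2) ∧
        Gap (C i) 0 (1 / 2 ^ (k * Nat.clog 2 v)) (C i).Acc) ∧
      ∀ z, AllClq m v k z ↔ ∀ i, (C i).Acc z := by
  have h := and_np0 m v k hk hkv hv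
  rw [Nat.zero_add] at h
  obtain ⟨C, hC⟩ := h
  refine ⟨C, fun i => ⟨(hC i).1, (hC i).2.1, (hC i).2.2.1, ?_⟩, fun z => ?_⟩
  · have h1 := gap_acc (C i)
    rw [Nat.zero_add] at h1
    exact h1
  · exact ⟨fun h i => ((hC i).2.2.2 z).2 (h i), fun h i => ((hC i).2.2.2 z).1 (h i)⟩

end Pool.Agent.NPQ
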