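import Pool.Agent.NPQ.MAIN4

/-!
# Circuits which do not read the earlier answers
-/

set_option autoImplicit false

namespace Pool.Agent.NPQ

open Pool.Agent.NegLim Pool.Agent.NLM Pool.Agent.NPP

/-- The wire which does not read the first `n` of the last witness bits. -/
def upW {E : Type} {s t : ℕ} (n : ℕ) : Wire E s t → Wire E s (n + t)
  | Wire.inp e => Wire.inp e
  | Wire.wit φ => Wire.wit fun u w => φ u fun i => w (Fin.natAdd n i)
  | Wire.gate i => Wire.gate i

/-- The gate which does not read the first `n` of the last witness bits. -/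
def upG {E : Type} {s t : ℕ} (n : ℕ) : Gate E s t → Gate E s (n + t)
  | Gate.and a b => Gate.and (upW n a) (upW n b)
  | Gate.or a b => Gate.or (upW n a) (upW n b)
  | Gate.not a => Gate.not (upW n a)

/-- The circuit `C` which does not read the first `n` of the last witness bits. -/
def up {E : Type} {s t : ℕ} (n : ℕ) (C : NCirc E s t) : NCirc E s (n + t) :=
  ⟨C.gates.map (upG n), upW n C.out⟩

theorem val_upW {E : Type} {s t : ℕ} (n : ℕ) (a : Wire E s t) (x : E → Bool) (u : Fin s → Bool)
    (w : Fin (n + t) → Bool) (l : List Bool) :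
    (upW n a).val x u w l = a.val x u (fun i => w (Fin.natAdd n i)) l := by
  cases a <;> rfl

theorem val_upG {E : Type} {s t : ℕ} (n : ℕ) (g : Gate E s t) (x : E → Bool) (u : Fin s → Bool)
    (w : Fin (n + t) → Bool) (l : List Bool) :
    (upG n g).val x u w l = g.val x u (fun i => w (Fin.natAdd n i)) l := by
  cases g <;> simp only [upG, Gate.val, val_upW]

theorem vals_up {E : Type} {s t : ℕ} (n : ℕ) (L : List (Gate E s t)) (x : E → Bool)
    (u : Fin s → Bool) (w : Fin (n + t) → Bool) :
    vals (L.map (upG n)) x u w = vals L x u fun i => w (Fin.natAdd n i) := by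
  unfold vals
  rw [List.foldl_map]
  congr 1
  funext l g
  rw [val_upG]

/-- **The output of the new circuit.** -/
theorem outp_up {E : Type} {s t : ℕ} (n : ℕ) (C : NCirc E s t) (x : E → Bool) (u : Fin s → Bool)
    (w : Fin (n + t) → Bool) : outp (up n C) x u w = outp C x u fun i => w (Fin.natAdd n i) := by
  show (upW n C.out).val x u w (vals (C.gates.map (upG n)) x u w) = _
  rw [vals_up, val_upW]
  rfl

theorem nots_up {E : Type} {s t : ℕ} (n : ℕ) (C : NCirc E s t) : (up n C).nots = C.nots := by
  show (C.gates.map (upG n)).countP Gate.isNot = C.gates.countP Gate.isNot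
  rw [List.countP_map]
  congr 1
  funext g
  cases g <;> rfl

theorem length_up {E : Type} {s t : ℕ} (n : ℕ) (C : NCirc E s t) :
    (up n C).gates.length = C.gates.length := List.length_map _

theorem notsFree_up {E : Type} {s t : ℕ} (n : ℕ) (C : NCirc E s t) (h : C.NotsFree) :
    (up n C).NotsFree := by
  rintro i ⟨a, ha⟩ x u w w'
  show (vals (C.gates.map (upG n)) x u w)[i]? = (vals (C.gates.map (upG n)) x u w')[i]?
  rw [vals_up, vals_up]
  apply h
  have h1 : (C.gates.map (upG n))[i]? = some (Gate.not a) := ha
  rw [List.getElem?_map] at h1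
  obtain ⟨g, hg1, hg2⟩ := Option.map_eq_some_iff.1 h1
  cases g with
  | and b c => cases hg2
  | or b c => cases hg2
  | not b => exact ⟨b, hg1⟩

/-- The number of the accepting witnesses does not change. -/
theorem accH_up {E : Type} {s t n : ℕ} (C : NCirc E s t) (d : Fin n → Bool) (x : E → Bool) :
    accH (up n C) d x = acc C x := by
  unfold accH acc
  congr 1
  apply Finset.filter_congr
  rintro ⟨u, w⟩ _
  rw [outp_up]
  have h1 : (fun i => Fin.append d w (Fin.natAdd n i)) = w := by
    funext i
    exact Fin.append_right d w i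
  rw [h1]

/-- A query without witness bits is right if its output is the answer. -/
theorem right_of_outp {E : Type} {n q W : ℕ} (C : NCirc E 0 (n + 0)) (l : Fin n)
    (a : (E → Bool) → Fin n → Bool)
    (h : ∀ x u w, outp C x u (Fin.append (hist q l (a x)) w) = a x l) : Right q W C l a := by
  refine Or.inl ⟨Nat.zero_le W, fun x => ?_⟩
  have h1 : accH C (hist q l (a x)) x = if a x l = true then 1 else 0 := by
    unfold accH
    split_ifs with h5
    · rw [Finset.card_eq_one]
      refine ⟨(default, default), ?_⟩
      ext ⟨u, w⟩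
      rw [Finset.mem_filter, Finset.mem_singleton, Subsingleton.elim u default,
        Subsingleton.elim w default]
      exact ⟨fun _ => rfl, fun _ => ⟨Finset.mem_univ _, (h x _ _).trans h5⟩⟩
    · rw [Finset.card_eq_zero, Finset.filter_eq_empty_iff]
      rintro ⟨u, w⟩ _ h6
      exact h5 ((h x u w).symm.trans h6)
  rw [h1]
  split_ifs with h5
  · exact ⟨fun _ => by norm_num, fun _ => h5⟩
  · exact ⟨fun h6 => absurd h6 h5, fun h6 => absurd h6 (by norm_num)⟩

end Pool.Agent.NPQ
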